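import Pool.Agent.Lib.MP_634427_lc.LT.IsoAlg
import Pool.Agent.Lib.MP_634427_lc.AlgoPT

/-!
# The filter of `IsoAlg.lean` is a polynomial-time function
-/

namespace Pool.Agent.Lib.MP_634427_lc.PT

variable {γ : Type} [Enc γ]

section

variable {AT : γ → List (List LT.Num)} {tab : γ → List (List ℕ)} {m K n : γ → ℕ}

lemma tv {g j : γ → ℕ} (htab : PT tab) (hg : PT g) (hj : PT j) :
    PT fun c => LT.tv (tab c) (g c) (j c) := by
  unfold LT.tv
  exact getLD hj (getLD hg htab (const [])) (const 0)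

lemma vvL {g j k : γ → ℕ} (hA : PT AT) (hg : PT g) (hj : PT j) (hk : PT k) :
    PT fun c => LT.vvL (AT c) (g c) (j c) (k c) := by
  have h := entry hA hg hk
  exact nadd (nadd h h) (cond (eqNat hk hj) (nofNat (const 1)) (nofNat (const 0)))

lemma idx (hn : PT n) (hm : PT m) : PT fun c => LT.idx (n c) (m c) := by
  unfold LT.idx
  exact flatMap (f := fun c g => (List.range (m c)).map fun j => (g, j)) (range hn)
    (map (f := fun (p : γ × ℕ) j => (p.2, j)) (range (hm.comp fst)) (pair (snd' fst) snd))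

lemma cell {k l : γ → ℕ} {p : γ → ℕ × ℕ} (hA : PT AT) (hK : PT K) (htab : PT tab) (hk : PT k)
    (hl : PT l) (hp : PT p) : PT fun c => LT.cell (AT c) (K c) (tab c) (k c) (l c) (p c) := by
  unfold LT.cell
  refine nmul ?_ ?_
  · refine npow2 ?_
    exact mul (const 2) (sub hK (tv htab (fst' hp) (snd' hp)))
  · exact nmul (vvL hA (fst' hp) (snd' hp) hk) (vvL hA (fst' hp) (snd' hp) hl)

lemma PPL (hA : PT AT) (hm : PT m) (hK : PT K) (htab : PT tab) :
    PT fun c => LT.PPL (AT c) (m c) (K c) (tab c) := by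
  have hc : PT fun q : ((γ × ℕ) × ℕ) × (ℕ × ℕ) => q.1.1.1 := fst' (fst' fst)
  have h3 : PT fun q : ((γ × ℕ) × ℕ) × (ℕ × ℕ) =>
      LT.cell (AT q.1.1.1) (K q.1.1.1) (tab q.1.1.1) q.1.1.2 q.1.2 q.2 :=
    cell (hA.comp hc) (hK.comp hc) (htab.comp hc) (snd' (fst' fst)) (snd' fst) snd
  have h2 : PT fun q : (γ × ℕ) × ℕ => LT.nsum ((LT.idx (AT q.1.1).length (m q.1.1)).map fun p =>
      LT.cell (AT q.1.1) (K q.1.1) (tab q.1.1) q.1.2 q.2 p) :=
    nsum (map (f := fun (q : (γ × ℕ) × ℕ) p => LT.cell (AT q.1.1) (K q.1.1) (tab q.1.1) q.1.2 q.2 p)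
      (idx (length (hA.comp (fst' fst))) (hm.comp (fst' fst))) h3)
  have h1 : PT fun q : γ × ℕ => (List.range (m q.1)).map fun l =>
      LT.nsum ((LT.idx (AT q.1).length (m q.1)).map fun p =>
      LT.cell (AT q.1) (K q.1) (tab q.1) q.2 l p) :=
    map (f := fun (q : γ × ℕ) l => LT.nsum ((LT.idx (AT q.1).length (m q.1)).map fun p =>
      LT.cell (AT q.1) (K q.1) (tab q.1) q.2 l p)) (range (hm.comp fst)) h2
  have h0 : PT fun c => (List.range (m c)).map fun k => (List.range (m c)).map fun l =>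
      LT.nsum ((LT.idx (AT c).length (m c)).map fun p =>
      LT.cell (AT c) (K c) (tab c) k l p) :=
    map (f := fun c k => (List.range (m c)).map fun l =>
      LT.nsum ((LT.idx (AT c).length (m c)).map fun p =>
      LT.cell (AT c) (K c) (tab c) k l p)) (range hm) h1
  exact h0

lemma bumpL {p : γ → ℕ × ℕ} (hn : PT n) (hm : PT m) (htab : PT tab) (hp : PT p) :
    PT fun c => LT.bumpL (n c) (m c) (tab c) (p c) := by
  unfold LT.bumpL
  refine map (f := fun c g => (List.range (m c)).map fun j =>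
    bif decide (g = (p c).1) && decide (j = (p c).2) then LT.tv (tab c) (p c).1 (p c).2 + 1
    else LT.tv (tab c) g j) (range hn) ?_
  refine map (f := fun (q : γ × ℕ) j =>
    bif decide (q.2 = (p q.1).1) && decide (j = (p q.1).2) then
      LT.tv (tab q.1) (p q.1).1 (p q.1).2 + 1
    else LT.tv (tab q.1) q.2 j) (range (hm.comp fst)) ?_
  have hc : PT fun q : (γ × ℕ) × ℕ => q.1.1 := fst' fst
  exact cond (and (eqNat (snd' fst) (fst' (hp.comp hc))) (eqNat snd (snd' (hp.comp hc))))
    (succ (tv (htab.comp hc) (fst' (hp.comp hc)) (snd' (hp.comp hc))))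
    (tv (htab.comp hc) (snd' fst) snd)

lemma canHalve {p : γ → ℕ × ℕ} (hA : PT AT) (hm : PT m) (hK : PT K) (htab : PT tab) (hp : PT p) :
    PT fun c => LT.canHalve (AT c) (m c) (K c) (tab c) (p c) := by
  unfold LT.canHalve
  exact and (lt (tv htab (fst' hp) (snd' hp)) hK)
    (nle (nmul (nofNat (length hA)) (detL hm (PPL hA hm hK (bumpL (length hA) hm htab hp))))
      (nmul (nofNat (sub (length hA) (const 4))) (detL hm (PPL hA hm hK htab))))

lemma isoStep (hA : PT AT) (hm : PT m) (hK : PT K) (htab : PT tab) :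
    PT fun c => LT.isoStep (AT c) (m c) (K c) (tab c) := by
  have h := casesOption (g := fun c p => LT.bumpL (AT c).length (m c) (tab c) p)
    (find? (p := fun c => LT.canHalve (AT c) (m c) (K c) (tab c)) (idx (length hA) hm)
      (canHalve (hA.comp fst) (hm.comp fst) (hK.comp fst) (htab.comp fst) snd)) htab
    (bumpL (length (hA.comp fst)) (hm.comp fst) (htab.comp fst) snd)
  refine h.of_eq fun c => ?_
  unfold LT.isoStep
  rcases (LT.idx (AT c).length (m c)).find? (LT.canHalve (AT c) (m c) (K c) (tab c)) with _ | p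
    <;> rfl

lemma isoK (hA : PT AT) (hm : PT m) : PT fun c => LT.isoK (AT c) (m c) := by
  unfold LT.isoK
  exact succ (mul (length hA) (mul hm (add (add (add (mul (const 2) hm) (length hA))
    (mul (const 2) (size hA))) (const 4))))

end

end Pool.Agent.Lib.MP_634427_lc.PT

namespace Pool.Agent.Lib.MP_634427_lc.LT

lemma tv_map_le {n m B : ℕ} {f : ℕ → ℕ → ℕ} (h : ∀ g j, f g j ≤ B) (g j : ℕ) :
    tv ((List.range n).map fun g => (List.range m).map fun j => f g j) g j ≤ B := by
  unfold tv
  by_cases hg : g < n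
  · rw [getD_map_range _ _ _ _ hg]
    by_cases hj : j < m
    · rw [getD_map_range _ _ _ _ hj]
      exact h g j
    · rw [List.getD_eq_default _ _ (by simpa using hj)]
      exact Nat.zero_le _
  · rw [List.getD_eq_default (l := (List.range n).map _) _ (by simpa using hg)]
    simp

lemma sz_iter_isoStep (AT : List (List Num)) (m K i : ℕ) :
    (∀ g j, tv ((isoStep AT m K)^[i] []) g j ≤ K) ∧
      sz ((isoStep AT m K)^[i] []) ≤ AT.length * (m * (K + 1) + 1) := by
  induction i with
  | zero => simp [tv_nil]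
  | succ i ih =>
    rw [Function.iterate_succ_apply']
    set tab := (isoStep AT m K)^[i] []
    rcases hf : (idx AT.length m).find? (canHalve AT m K tab) with _ | p
    · have h1 : isoStep AT m K tab = tab := by
        unfold isoStep
        rw [hf]
      rw [h1]
      exact ih
    · have h1 : isoStep AT m K tab = bumpL AT.length m tab p := by
        unfold isoStep
        rw [hf]
      rw [h1]
      have h2 := ((canHalve_iff _ _ _ _ _).1 (List.find?_some hf)).1
      have h3 : ∀ g j, (bif decide (g = p.1) && decide (j = p.2) then tv tab p.1 p.2 + 1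
          else tv tab g j) ≤ K := by
        intro g j
        cases decide (g = p.1) && decide (j = p.2)
        · exact ih.1 g j
        · exact h2
      refine ⟨tv_map_le h3, ?_⟩
      refine (sz_map_le _ _ (m * (K + 1)) fun g _ => ?_).trans (le_of_eq (by rw [List.length_range]))
      refine (sz_map_le _ _ K fun j _ => ?_).trans (le_of_eq (by rw [List.length_range]))
      rw [sz_nat]
      exact h3 g j

end Pool.Agent.Lib.MP_634427_lc.LT

namespace Pool.Agent.Lib.MP_634427_lc.PT

variable {γ : Type} [Enc γ] {AT : γ → List (List LT.Num)} {tab : γ → List (List ℕ)}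
  {m K n : γ → ℕ}

lemma isoTab (hA : PT AT) (hm : PT m) : PT fun c => LT.isoTab (AT c) (m c) := by
  refine iterate (s := fun _ => []) (f := fun c t => LT.isoStep (AT c) (m c) (LT.isoK (AT c) (m c)) t)
    (isoK hA hm) (const []) (isoStep (hA.comp fst) (hm.comp fst) (isoK (hA.comp fst) (hm.comp fst))
      snd) ?_
  have h1 : PT fun c => (AT c).length * (m c * (LT.isoK (AT c) (m c) + 1) + 1) :=
    mul (length hA) (succ (mul hm (succ (isoK hA hm))))
  obtain ⟨k, hk⟩ := h1.size_le
  refine ⟨k, fun c i _ => ?_⟩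
  have h2 := hk c
  rw [sz_nat] at h2
  exact (LT.sz_iter_isoStep _ _ _ i).2.trans h2

lemma zcell {sg : γ → List Bool} {k : γ → ℕ} {p : γ → ℕ × ℕ} (hA : PT AT) (hK : PT K)
    (htab : PT tab) (hsg : PT sg) (hk : PT k) (hp : PT p) :
    PT fun c => LT.zcell (AT c) (K c) (tab c) (sg c) (k c) (p c) := by
  unfold LT.zcell
  have h1 : PT fun c => LT.nmul (LT.npow2 (K c - LT.tv (tab c) (p c).1 (p c).2))
      (LT.vvL (AT c) (p c).1 (p c).2 (k c)) :=
    nmul (npow2 (sub hK (tv htab (fst' hp) (snd' hp)))) (vvL hA (fst' hp) (snd' hp) hk)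
  exact cond (getLD (fst' hp) hsg (const true)) h1 (nneg h1)

lemma zzL {sg : γ → List Bool} {k : γ → ℕ} (hA : PT AT) (hm : PT m) (hK : PT K) (htab : PT tab)
    (hsg : PT sg) (hk : PT k) :
    PT fun c => LT.zzL (AT c) (m c) (K c) (tab c) (sg c) (k c) := by
  have h1 : PT fun q : γ × (ℕ × ℕ) => LT.zcell (AT q.1) (K q.1) (tab q.1) (sg q.1) (k q.1) q.2 :=
    zcell (hA.comp fst) (hK.comp fst) (htab.comp fst) (hsg.comp fst) (hk.comp fst) snd
  have h2 : PT fun c => LT.nsum ((LT.idx (AT c).length (m c)).map fun p =>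
      LT.zcell (AT c) (K c) (tab c) (sg c) (k c) p) :=
    nsum (map (f := fun c p => LT.zcell (AT c) (K c) (tab c) (sg c) (k c) p)
      (idx (length hA) hm) h1)
  exact h2

lemma tcell {sg : γ → List Bool} {k l : γ → ℕ} (hA : PT AT) (hm : PT m) (hK : PT K)
    (htab : PT tab) (hsg : PT sg) (hk : PT k) (hl : PT l) :
    PT fun c => LT.tcell (AT c) (m c) (K c) (tab c) (sg c) (k c) (l c) := by
  unfold LT.tcell
  refine nadd (nmul (nofNat (length hA)) (entry (PPL hA hm hK htab) hk hl)) (nneg ?_)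
  exact nmul (nofNat (const 24)) (nmul (zzL hA hm hK htab hsg hk) (zzL hA hm hK htab hsg hl))

lemma TTL {sg : γ → List Bool} (hA : PT AT) (hm : PT m) (hK : PT K) (htab : PT tab)
    (hsg : PT sg) : PT fun c => LT.TTL (AT c) (m c) (K c) (tab c) (sg c) := by
  have hc : PT fun q : (γ × ℕ) × ℕ => q.1.1 := fst' fst
  have h2 : PT fun q : (γ × ℕ) × ℕ =>
      LT.tcell (AT q.1.1) (m q.1.1) (K q.1.1) (tab q.1.1) (sg q.1.1) q.1.2 q.2 :=
    tcell (hA.comp hc) (hm.comp hc) (hK.comp hc) (htab.comp hc) (hsg.comp hc) (snd' fst) snd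
  have h1 : PT fun q : γ × ℕ => (List.range (m q.1)).map fun l =>
      LT.tcell (AT q.1) (m q.1) (K q.1) (tab q.1) (sg q.1) q.2 l :=
    map (f := fun (q : γ × ℕ) l => LT.tcell (AT q.1) (m q.1) (K q.1) (tab q.1) (sg q.1) q.2 l)
      (range (hm.comp fst)) h2
  have h0 : PT fun c => (List.range (m c)).map fun k => (List.range (m c)).map fun l =>
      LT.tcell (AT c) (m c) (K c) (tab c) (sg c) k l :=
    map (f := fun c k => (List.range (m c)).map fun l =>
      LT.tcell (AT c) (m c) (K c) (tab c) (sg c) k l) (range hm) h1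
  exact h0

lemma keepIso {sg : γ → List Bool} (hA : PT AT) (hm : PT m) (hsg : PT sg) :
    PT fun c => LT.keepIso (AT c) (m c) (sg c) := by
  unfold LT.keepIso
  exact nle (detL hm (TTL hA hm (isoK hA hm) (isoTab hA hm) hsg)) (nofNat (const 0))

open KNo

lemma keepC {vt : γ → Item → List LT.Num} {G : γ → List Item} {c : γ → Word} (hm : PT m)
    (hA : PT fun p => (G p).map (vt p)) (hG : PT G) (hc : PT c) :
    PT fun p => LT.keepC (m p) (vt p) (G p) (c p) := by
  unfold LT.keepC
  have h2 : PT fun q : γ => (G q).map fun e => MP_634427_lc.par e.1 (c q) :=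
    map (f := fun (q : γ) (e : Item) => MP_634427_lc.par e.1 (c q))
      hG (PT.par (fst' snd) (hc.comp fst))
  exact keepIso hA hm h2

/-- The filter is a polynomial-time function. -/
theorem isoAgree {vt : γ → Item → List LT.Num} {B : γ → List Word} {G : γ → List Item}
    (hm : PT m) (hvt : PT fun p : γ × Item => vt p.1 p.2) (hB : PT B) (hG : PT G) :
    PT fun p => LT.isoAgree (m p) (vt p) (B p) (G p) := by
  have hA : PT fun p => (G p).map (vt p) := map (f := fun p e => vt p e) hG hvt
  have h1 : PT fun q : γ × Word => LT.keepC (m q.1) (vt q.1) (G q.1) q.2 :=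
    keepC (hm.comp fst) (hA.comp fst) (hG.comp fst) snd
  have h2 : PT fun p => (B p).filter fun c => LT.keepC (m p) (vt p) (G p) c :=
    filter (p := fun p c => LT.keepC (m p) (vt p) (G p) c) hB h1
  exact h2

end Pool.Agent.Lib.MP_634427_lc.PT
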