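import Pool.Agent.Lib.MP_634427_lc.LT.BinDefs

/-!
# Binary numbers as lists of digits: arithmetic in polynomial time
-/

namespace Pool.Agent.Lib.MP_634427_lc.LT

/-! ### Values of lists of digits -/

/-- The value of a digit. -/
def dg (b : Bool) : ℕ := if b then 1 else 0

@[simp] lemma dg_true : dg true = 1 := rfl
@[simp] lemma dg_false : dg false = 0 := rfl
@[simp] lemma bval_nil : bval [] = 0 := rfl
lemma bval_cons (b : Bool) (l : Word) : bval (b :: l) = dg b + 2 * bval l := rfl

theorem bval_lt (l : Word) : bval l < 2 ^ l.length := by
  induction l with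
  | nil => simp
  | cons b l ih =>
    rw [bval_cons, List.length_cons, pow_succ]
    cases b <;> simp <;> omega

lemma bval_append (l l' : Word) : bval (l ++ l') = bval l + 2 ^ l.length * bval l' := by
  induction l with
  | nil => simp
  | cons b l ih =>
    rw [List.cons_append, bval_cons, bval_cons, ih, List.length_cons, pow_succ]
    ring

lemma bval_replicate_false (n : ℕ) : bval (List.replicate n false) = 0 := by
  induction n with
  | zero => rfl
  | succ n ih => rw [List.replicate_succ, bval_cons, ih]; rfl

lemma bval_take {k : ℕ} {l : Word} (h : bval l < 2 ^ k) : bval (l.take k) = bval l := by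
  induction l generalizing k with
  | nil => simp
  | cons b l ih =>
    rcases k with _ | k
    · have : bval (b :: l) = 0 := by simpa using h
      rw [this]; rfl
    · rw [List.take_succ_cons, bval_cons, bval_cons, ih]
      rw [bval_cons, pow_succ] at h
      omega

lemma bval_headD_tail (l : Word) : bval l = dg (l.headD false) + 2 * bval l.tail := by
  cases l <;> rfl

/-! ### Addition -/

/-- Sum with a carry digit, the first argument is at least as long as the second. -/
def addC : Word → Bool → Word → Word
  | [], c, _ => [c]
  | x :: a, c, b =>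
    (Bool.xor (Bool.xor x (b.headD false)) c) ::
      addC a ((x && b.headD false) || (c && (x || b.headD false))) b.tail

/-- Add leading zeros to `a` until it is as long as `b`. -/
def padB (a b : Word) : Word := a ++ List.replicate (b.length - a.length) false

/-- Sum of binary numbers. -/
def addB (a b : Word) : Word := addC (padB a b) false b

lemma length_addC (a : Word) (c : Bool) (b : Word) : (addC a c b).length = a.length + 1 := by
  induction a generalizing c b with
  | nil => rfl
  | cons x a ih => rw [addC, List.length_cons, ih, List.length_cons]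

lemma bval_addC {a : Word} (c : Bool) {b : Word} (h : b.length ≤ a.length) :
    bval (addC a c b) = bval a + bval b + dg c := by
  induction a generalizing c b with
  | nil =>
    have : b = [] := List.length_eq_zero_iff.1 (by simpa using h)
    subst this
    simp [addC, bval_cons]
  | cons x a ih =>
    rw [addC, bval_cons, ih _ (by rw [List.length_tail]; simp at h; omega), bval_cons,
      bval_headD_tail b]
    cases x <;> cases b.headD false <;> cases c <;> simp <;> ring

lemma length_padB (a b : Word) : (padB a b).length = max a.length b.length := by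
  simp only [padB, List.length_append, List.length_replicate]; omega

lemma bval_padB (a b : Word) : bval (padB a b) = bval a := by
  rw [padB, bval_append, bval_replicate_false]; simp

lemma length_addB (a b : Word) : (addB a b).length = max a.length b.length + 1 := by
  rw [addB, length_addC, length_padB]

theorem length_addB_le (a b : Word) : (addB a b).length ≤ max a.length b.length + 1 :=
  (length_addB a b).le

theorem bval_addB (a b : Word) : bval (addB a b) = bval a + bval b := by
  rw [addB, bval_addC _ (by rw [length_padB]; exact le_max_right _ _), bval_padB]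
  simp

/-! ### Multiplication -/

/-- Product, not yet truncated. -/
def mulR (a b : Word) : Word :=
  a.foldr (fun x r => addB (bif x then b else []) (false :: r)) []

/-- Product of binary numbers. -/
def mulB (a b : Word) : Word := (mulR a b).take (a.length + b.length)

lemma bval_mulR (a b : Word) : bval (mulR a b) = bval a * bval b := by
  induction a with
  | nil => simp [mulR]
  | cons x a ih =>
    show bval (addB (bif x then b else []) (false :: mulR a b)) = _
    rw [bval_addB, bval_cons, bval_cons, ih]
    cases x <;> simp <;> ring

lemma length_foldr_mul_le (a b : Word) :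
    (a.foldr (fun x r => addB (bif x then b else []) (false :: r)) []).length
      ≤ b.length + 2 * a.length := by
  induction a with
  | nil => simp
  | cons x a ih =>
    simp only [List.foldr_cons, length_addB, List.length_cons]
    cases x <;> simp <;> omega

theorem bval_mulB (a b : Word) : bval (mulB a b) = bval a * bval b := by
  rw [mulB, bval_take, bval_mulR]
  rw [bval_mulR, pow_add]
  exact Nat.mul_lt_mul'' (bval_lt a) (bval_lt b)

theorem length_mulB_le (a b : Word) : (mulB a b).length ≤ a.length + b.length :=
  List.length_take_le _ _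

/-! ### Comparison -/

/-- Comparison of digit lists of the same length; `r` is the result for equal lists. -/
def leC : Word → Bool → Word → Bool
  | [], r, _ => r
  | x :: a, r, b => leC a (bif x == b.headD false then r else b.headD false) b.tail

/-- Comparison of binary numbers. -/
def leB (a b : Word) : Bool := leC (padB a b) true b

lemma leC_iff {a : Word} (r : Bool) {b : Word} (h : b.length ≤ a.length) :
    leC a r b = true ↔ bval a < bval b ∨ (bval a = bval b ∧ r = true) := by
  induction a generalizing r b with
  | nil =>
    have : b = [] := List.length_eq_zero_iff.1 (by simpa using h)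
    subst this
    simp [leC]
  | cons x a ih =>
    rw [leC, ih _ (by rw [List.length_tail]; simp at h; omega), bval_cons, bval_headD_tail b]
    cases x <;> cases b.headD false <;> simp <;> omega

theorem leB_iff (a b : Word) : leB a b = true ↔ bval a ≤ bval b := by
  rw [leB, leC_iff _ (by rw [length_padB]; exact le_max_right _ _), bval_padB]
  simp; omega

/-! ### Integers -/

/-- Sum. -/
def nadd (a b : Num) : Num := (addB a.1 b.1, addB a.2 b.2)

/-- Product. -/
def nmul (a b : Num) : Num :=
  (addB (mulB a.1 b.1) (mulB a.2 b.2), addB (mulB a.1 b.2) (mulB a.2 b.1))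

/-- Negative. -/
def nneg (a : Num) : Num := (a.2, a.1)

/-- Comparison. -/
def nle (a b : Num) : Bool := leB (addB a.1 b.2) (addB a.2 b.1)

/-- Zero. -/
def nzero : Num := ([], [])

/-- Sum of a list. -/
def nsum (l : List Num) : Num := l.foldr nadd nzero

/-- The binary number of a unary number. -/
def ofUn : ℕ → Word
  | 0 => []
  | n + 1 => addB (ofUn n) [true]

/-- The integer of a unary number. -/
def nofNat (n : ℕ) : Num := (ofUn n, [])

/-- A power of two. -/
def npow2 (k : ℕ) : Num := (List.replicate k false ++ [true], [])

@[simp] theorem nval_nzero : nval nzero = 0 := rfl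

@[simp] theorem wid_nzero : wid nzero = 0 := rfl

theorem nval_nadd (a b : Num) : nval (nadd a b) = nval a + nval b := by
  simp only [nval, nadd, bval_addB]; push_cast; ring

theorem nval_nmul (a b : Num) : nval (nmul a b) = nval a * nval b := by
  simp only [nval, nmul, bval_addB, bval_mulB]; push_cast; ring

theorem nval_nneg (a : Num) : nval (nneg a) = -nval a := by
  simp only [nval, nneg]; ring

theorem nle_iff (a b : Num) : nle a b = true ↔ nval a ≤ nval b := by
  rw [nle, leB_iff, bval_addB, bval_addB, nval, nval]
  omega

@[simp] theorem nsum_nil : nsum [] = nzero := rfl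
theorem nsum_cons (a : Num) (l : List Num) : nsum (a :: l) = nadd a (nsum l) := rfl

theorem nval_nsum (l : List Num) : nval (nsum l) = (l.map nval).sum := by
  induction l with
  | nil => simp
  | cons a l ih => rw [nsum_cons, nval_nadd, ih, List.map_cons, List.sum_cons]

theorem bval_ofUn (n : ℕ) : bval (ofUn n) = n := by
  induction n with
  | zero => rfl
  | succ n ih => rw [ofUn, bval_addB, ih]; rfl

theorem length_ofUn_le (n : ℕ) : (ofUn n).length ≤ n + 1 := by
  induction n with
  | zero => simp [ofUn]
  | succ n ih =>
    rw [ofUn, length_addB]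
    simp only [List.length_singleton]
    omega

theorem nval_nofNat (n : ℕ) : nval (nofNat n) = n := by
  simp [nval, nofNat, bval_ofUn]

theorem nval_npow2 (k : ℕ) : nval (npow2 k) = 2 ^ k := by
  simp [nval, npow2, bval_append, bval_replicate_false, bval_cons]

theorem wid_nadd_le (a b : Num) : wid (nadd a b) ≤ max (wid a) (wid b) + 1 := by
  simp only [wid, nadd, length_addB]; omega

theorem wid_nmul_le (a b : Num) : wid (nmul a b) ≤ wid a + wid b + 1 := by
  have h1 := length_mulB_le a.1 b.1
  have h2 := length_mulB_le a.2 b.2
  have h3 := length_mulB_le a.1 b.2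
  have h4 := length_mulB_le a.2 b.1
  simp only [wid, nmul, length_addB]; omega

theorem wid_nneg (a : Num) : wid (nneg a) = wid a := by
  simp only [wid, nneg]; omega

theorem wid_nsum_le {l : List Num} {w : ℕ} (h : ∀ a ∈ l, wid a ≤ w) :
    wid (nsum l) ≤ w + l.length := by
  induction l with
  | nil => simp
  | cons a l ih =>
    have h1 := ih fun b hb => h b (List.mem_cons_of_mem _ hb)
    have h2 := h a List.mem_cons_self
    have h3 := wid_nadd_le a (nsum l)
    rw [nsum_cons, List.length_cons]
    omega

theorem wid_nofNat_le (n : ℕ) : wid (nofNat n) ≤ n + 1 := by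
  have := length_ofUn_le n
  simp only [wid, nofNat, List.length_nil]; omega

theorem wid_npow2 (k : ℕ) : wid (npow2 k) = k + 1 := by
  simp [wid, npow2]

theorem abs_nval_lt (a : Num) : |nval a| < 2 ^ wid a := by
  have h1 : (bval a.1 : ℤ) < 2 ^ wid a := by
    have := (bval_lt a.1).trans_le (Nat.pow_le_pow_right (by omega) (le_max_left a.1.length a.2.length))
    exact_mod_cast this
  have h2 : (bval a.2 : ℤ) < 2 ^ wid a := by
    have := (bval_lt a.2).trans_le (Nat.pow_le_pow_right (by omega) (le_max_right a.1.length a.2.length))
    exact_mod_cast this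
  rw [nval, abs_lt]
  constructor <;> omega

/-! ### Sizes of codes -/

lemma sz_word_le' (w : Word) : sz w ≤ 2 * w.length := sz_word_le w

lemma sz_num_le (a : Num) : sz a ≤ 4 * wid a + 1 := by
  have h1 := sz_word_le a.1
  have h2 := sz_word_le a.2
  rw [sz_prod, wid]; omega

lemma wid_le_sz (a : Num) : wid a ≤ sz a := by
  have h1 := length_le_sz a.1
  have h2 := length_le_sz a.2
  rw [sz_prod, wid]; omega

end Pool.Agent.Lib.MP_634427_lc.LT

namespace Pool.Agent.Lib.MP_634427_lc.PT

open _root_.Pool.Agent.Lib.MP_634427_lc.LT

variable {γ : Type} [Enc γ]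

lemma padB {f g : γ → Word} (hf : PT f) (hg : PT g) : PT fun c => LT.padB (f c) (g c) :=
  append hf (replicate (sub (length hg) (length hf)) (const false))

/-- One step of the addition. -/
private def stA (s : Word × Bool × Word) (x : Bool) : Word × Bool × Word :=
  ((Bool.xor (Bool.xor x (s.2.2.headD false)) s.2.1) :: s.1,
    ((x && s.2.2.headD false) || (s.2.1 && (x || s.2.2.headD false))), s.2.2.tail)

private lemma foldl_stA (a : Word) (s : Word × Bool × Word) :
    (a.foldl stA s).1.reverse ++ [(a.foldl stA s).2.1] = s.1.reverse ++ addC a s.2.1 s.2.2 := by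
  induction a generalizing s with
  | nil => rfl
  | cons x a ih =>
    rw [List.foldl_cons, ih]
    simp [stA, addC]

private lemma sz_foldl_stA (a : Word) (s : Word × Bool × Word) :
    sz (a.foldl stA s) ≤ sz s.1 + sz s.2.2 + 2 * a.length + 3 := by
  induction a generalizing s with
  | nil =>
    have := sz_bool_le s.2.1
    simp only [List.foldl_nil]
    rw [sz_prod, sz_prod]; simp; omega
  | cons x a ih =>
    have h1 := ih (stA s x)
    have h2 := sz_bool_le (Bool.xor (Bool.xor x (s.2.2.headD false)) s.2.1)
    have h3 : sz s.2.2.tail ≤ sz s.2.2 := sz_suffix_le (List.tail_suffix _)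
    rw [List.foldl_cons]
    refine h1.trans ?_
    simp only [stA, sz_cons, List.length_cons]
    omega

private lemma pt_stA : PT fun p : (Word × Bool × Word) × Bool => stA p.1 p.2 := by
  have hx : PT fun p : (Word × Bool × Word) × Bool => p.2 := snd
  have hc : PT fun p : (Word × Bool × Word) × Bool => p.1.2.1 := fst' (snd' fst)
  have hb : PT fun p : (Word × Bool × Word) × Bool => p.1.2.2 := snd' (snd' fst)
  have hh : PT fun p : (Word × Bool × Word) × Bool => p.1.2.2.headD false :=
    headD hb (const false)
  exact pair (cons (xor (xor hx hh) hc) (fst' fst))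
    (pair (or (and hx hh) (and hc (or hx hh))) (tail hb))

lemma addB {f g : γ → Word} (hf : PT f) (hg : PT g) : PT fun c => LT.addB (f c) (g c) := by
  have h1 := foldl (f := fun (_ : γ) s x => stA s x) (padB hf hg)
    (pair (const ([] : Word)) (pair (const false) hg)) (pt_stA.comp snd) (by
      obtain ⟨k, hk⟩ := hg.size_le
      obtain ⟨k', hk'⟩ := (padB hf hg).size_le
      obtain ⟨e, he⟩ := PB.add (PB.add (F := fun n => (n + 2) ^ k) ⟨k, fun n => le_rfl⟩
        (PB.mul (PB.const 2) (G := fun n => (n + 2) ^ k') ⟨k', fun n => le_rfl⟩)) (PB.const 3)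
      refine ⟨e, fun c l' hl' => (sz_foldl_stA _ _).trans ?_⟩
      have h1 := hk c
      have h2 := hk' c
      have h3 := he (sz c)
      have h4 := length_le_sz l'
      have h5 := sz_prefix_le hl'
      beta_reduce at h3
      simp only [sz_lnil]
      omega)
  refine (append (reverse (fst' h1)) (cons (fst' (snd' h1)) (const []))).of_eq fun c => ?_
  exact foldl_stA _ _

/-- One step of the comparison. -/
private def stL (s : Bool × Word) (x : Bool) : Bool × Word :=
  ((bif x == s.2.headD false then s.1 else s.2.headD false), s.2.tail)

private lemma foldl_stL (a : Word) (s : Bool × Word) :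
    (a.foldl stL s).1 = leC a s.1 s.2 := by
  induction a generalizing s with
  | nil => rfl
  | cons x a ih => rw [List.foldl_cons, ih]; rfl

private lemma sz_foldl_stL (a : Word) (s : Bool × Word) :
    sz (a.foldl stL s) ≤ sz s.2 + 2 := by
  induction a generalizing s with
  | nil =>
    have := sz_bool_le s.1
    simp only [List.foldl_nil]
    rw [sz_prod]; omega
  | cons x a ih =>
    have h1 := ih (stL s x)
    have h3 : sz s.2.tail ≤ sz s.2 := sz_suffix_le (List.tail_suffix _)
    rw [List.foldl_cons]
    refine h1.trans ?_
    simp only [stL]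
    omega

private lemma pt_stL : PT fun p : (Bool × Word) × Bool => stL p.1 p.2 := by
  have hb : PT fun p : (Bool × Word) × Bool => p.1.2 := snd' fst
  have hh : PT fun p : (Bool × Word) × Bool => p.1.2.headD false := headD hb (const false)
  exact pair (cond (beqBool snd hh) (fst' fst) hh) (tail hb)

lemma leB {f g : γ → Word} (hf : PT f) (hg : PT g) : PT fun c => LT.leB (f c) (g c) := by
  have h1 := foldl (f := fun (_ : γ) s x => stL s x) (padB hf hg)
    (pair (const true) hg) (pt_stL.comp snd) (by
      obtain ⟨k, hk⟩ := hg.size_le
      obtain ⟨e, he⟩ := PB.add (F := fun n => (n + 2) ^ k) ⟨k, fun n => le_rfl⟩ (PB.const 2)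
      refine ⟨e, fun c l' _ => (sz_foldl_stL _ _).trans ?_⟩
      have h1 := hk c
      have h3 := he (sz c)
      beta_reduce at h3
      simp only
      omega)
  exact (fst' h1).of_eq fun c => foldl_stL _ _

lemma mulB {f g : γ → Word} (hf : PT f) (hg : PT g) : PT fun c => LT.mulB (f c) (g c) := by
  have h1 : PT fun p : γ × Bool × Word =>
      LT.addB (bif p.2.1 then g p.1 else []) (false :: p.2.2) :=
    addB (cond (fst' snd) (hg.comp fst) (const [])) (cons (const false) (snd' snd))
  have h2 := foldr (f := fun (c : γ) x r => LT.addB (bif x then g c else []) (false :: r)) hf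
    (const ([] : Word)) h1 (by
      obtain ⟨k, hk⟩ := hf.size_le
      obtain ⟨k', hk'⟩ := hg.size_le
      obtain ⟨e, he⟩ := PB.mul (PB.const 2) (PB.add (F := fun n => (n + 2) ^ k')
        ⟨k', fun n => le_rfl⟩ (PB.mul (PB.const 2) (G := fun n => (n + 2) ^ k)
        ⟨k, fun n => le_rfl⟩))
      refine ⟨e, fun c l' hl' => (sz_word_le _).trans ?_⟩
      have h1 := hk c
      have h2 := hk' c
      have h3 := he (sz c)
      have h4 := length_le_sz l'
      have h5 := sz_suffix_le hl'
      have h6 := length_foldr_mul_le l' (g c)
      have h7 := length_le_sz (g c)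
      beta_reduce at h3
      omega)
  exact take (add (length hf) (length hg)) h2

lemma nadd {f g : γ → LT.Num} (hf : PT f) (hg : PT g) : PT fun c => LT.nadd (f c) (g c) :=
  pair (addB (fst' hf) (fst' hg)) (addB (snd' hf) (snd' hg))

lemma nmul {f g : γ → LT.Num} (hf : PT f) (hg : PT g) : PT fun c => LT.nmul (f c) (g c) :=
  pair (addB (mulB (fst' hf) (fst' hg)) (mulB (snd' hf) (snd' hg)))
    (addB (mulB (fst' hf) (snd' hg)) (mulB (snd' hf) (fst' hg)))

lemma nneg {f : γ → LT.Num} (hf : PT f) : PT fun c => LT.nneg (f c) := pair (snd' hf) (fst' hf)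

lemma nle {f g : γ → LT.Num} (hf : PT f) (hg : PT g) : PT fun c => LT.nle (f c) (g c) :=
  leB (addB (fst' hf) (snd' hg)) (addB (snd' hf) (fst' hg))

lemma nsum {f : γ → List LT.Num} (hf : PT f) : PT fun c => LT.nsum (f c) :=
  foldr (f := fun (_ : γ) a r => LT.nadd a r) hf (const LT.nzero)
    (nadd (fst' snd) (snd' snd)) (by
      obtain ⟨k, hk⟩ := hf.size_le
      obtain ⟨e, he⟩ := PB.add (PB.mul (PB.const 8) (G := fun n => (n + 2) ^ k)
        ⟨k, fun n => le_rfl⟩) (PB.const 1)
      refine ⟨e, fun c l' hl' => (sz_num_le _).trans ?_⟩
      have h1 := hk c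
      have h3 := he (sz c)
      have h4 := length_le_sz l'
      have h5 := sz_suffix_le hl'
      have h6 : wid (LT.nsum l') ≤ sz l' + l'.length :=
        wid_nsum_le fun a ha => (wid_le_sz a).trans (sz_mem_le ha)
      have h7 : l'.foldr (fun a r => LT.nadd a r) LT.nzero = LT.nsum l' := rfl
      rw [h7]
      beta_reduce at h3
      omega)

lemma nofNat {n : γ → ℕ} (hn : PT n) : PT fun c => LT.nofNat (n c) := by
  have h := natRec (s := fun _ : γ => ([] : Word))
    (f := fun (_ : γ) (_ : ℕ) r => LT.addB r [true]) hn (const [])
    (addB (snd' snd) (const [true])) (by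
      obtain ⟨k, hk⟩ := hn.size_le
      obtain ⟨e, he⟩ := PB.mul (PB.const 2) (PB.add (F := fun n => (n + 2) ^ k)
        ⟨k, fun n => le_rfl⟩ (PB.const 1))
      refine ⟨e, fun c i hi => ?_⟩
      have key : ∀ i, Nat.rec (motive := fun _ => Word) [] (fun _ r => LT.addB r [true]) i
          = ofUn i := by
        intro i
        induction i with
        | zero => rfl
        | succ i ih => rw [ofUn, ← ih]
      have h1 := hk c
      have h2 := length_ofUn_le i
      have h3 := he (sz c)
      rw [sz_nat] at h1
      beta_reduce at h3
      rw [key]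
      exact (sz_word_le _).trans (by omega))
  refine (pair h (const ([] : Word))).of_eq fun c => ?_
  have key : ∀ i, Nat.rec (motive := fun _ => Word) [] (fun _ r => LT.addB r [true]) i
      = ofUn i := by
    intro i
    induction i with
    | zero => rfl
    | succ i ih => rw [ofUn, ← ih]
  rw [LT.nofNat, key]

lemma npow2 {n : γ → ℕ} (hn : PT n) : PT fun c => LT.npow2 (n c) :=
  pair (append (replicate hn (const false)) (const [true])) (const [])

end Pool.Agent.Lib.MP_634427_lc.PT
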