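import Pool.Agent.Lib.MP_634427_lc.NegModel

/-!
# Turing reductions with few blocks of negative answers and a final weighted vote
-/

namespace Pool.Agent.Lib.MP_634427_lc

/-- Is the word in `0*`? -/
def onlyZeros (w : Word) : Bool := w.all fun b => !b

/-- The number of blocks of negative answers in the list `l` of answers: a negative answer is not
counted if the preceding answer was also negative and both queries were in `0*`. -/
def noBlocks (query : List Bool → Word) (l : List Bool) : ℕ :=
  ((List.range l.length).filter fun i => !(l.getD i true) &&
    !(decide (0 < i) && !(l.getD (i - 1) true) && onlyZeros (query (l.take (i - 1))) &&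
      onlyZeros (query (l.take i)))).length

/-- The number with the binary digits `l`, least significant digit first. -/
def ofDigits : List Bool → ℕ
  | [] => 0
  | b :: l => (if b then 1 else 0) + 2 * ofDigits l

/-- The integer with sign `a.1` (`true` is `+`) and absolute value `a.2` in binary. -/
def weight (a : Bool × List Bool) : ℤ := if a.1 then (ofDigits a.2 : ℤ) else -(ofDigits a.2 : ℤ)

open Classical in
/-- The sum of the weights of the bundles of `v` that lie entirely in `S`. -/
noncomputable def votes (S : Set Word) (v : List ((Bool × List Bool) × List Word)) : ℤ :=
  (v.map fun e => if ∀ w ∈ e.2, w ∈ S then weight e.1 else 0).sum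

/-- `A` is reducible to `S` by a polynomial-time Turing reduction that has an adaptive phase with
boundedly many blocks of negative answers, followed by a weighted vote. From the input `x` and the
list of the answers received so far one computes in polynomial time whether the adaptive phase
stops (`stop`), the next query (`query`), and, when it stops, a list of bundles of words with
integer weights in binary (`out`). With oracle `S` the adaptive phase stops after at most
`|x| ^ c + c` queries, and there are at most `k` blocks of negative answers (consecutive negative
answers to queries in `0*` form one block; every other negative answer is a block of its own).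
Then `x ∈ A` if and only if the sum of the weights of the bundles inside `S` is positive. Each
bundle either consists of at most `k` words in `0*`, with an arbitrary weight, or of at most
`d |x|` words, with weight `1` or `-1`. Here `k` is a constant, `d` is nondecreasing and
`(σ n + 1) ^ d n` is at most polynomial for the density `σ` of `S` (for sparse `S` any
constant `d` is admitted). -/
def WeightedReducible (A S : Set Word) : Prop :=
  ∃ (k : ℕ) (stop : Word × List Bool → Bool) (query : Word × List Bool → Word)
    (out : Word × List Bool → List ((Bool × List Bool) × List Word)) (d : ℕ → ℕ) (c : ℕ),
    PT stop ∧ PT query ∧ PT out ∧ Monotone d ∧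
    (∀ n, ({w ∈ S | w.length ≤ n}.ncard + 1) ^ d n ≤ n ^ c + c) ∧
    ∀ x, ∃ l, l = answers S (fun l => stop (x, l)) (fun l => query (x, l)) (x.length ^ c + c) ∧
      stop (x, l) = true ∧ noBlocks (fun l => query (x, l)) l ≤ k ∧
      (∀ e ∈ out (x, l), (e.2.length ≤ k ∧ ∀ w ∈ e.2, onlyZeros w = true) ∨
        (e.2.length ≤ d x.length ∧ e.1.2 = [true])) ∧
      (x ∈ A ↔ 0 < votes S (out (x, l)))

end Pool.Agent.Lib.MP_634427_lc
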