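import Pool.Agent.Lib.MP_634427_lc.Turing
import Pool.Agent.Lib.MP_634427_lc.NegSolve
import Pool.Agent.Lib.MP_634427_lc.LT.WModel
import Pool.Agent.Lib.MP_634427_lc.LT.Bin

/-!
# Simulation of a weighted vote by asking all words of its bundles
-/

namespace Pool.Agent.Lib.MP_634427_lc

open BT

lemma exists_pow_le (e : ℕ) : ∃ c : ℕ, ∀ n : ℕ, (n + 2) ^ e ≤ n ^ c + c := by
  refine ⟨3 ^ e, fun n => ?_⟩
  rcases Nat.lt_or_ge n 2 with h | h
  · have : (n + 2) ^ e ≤ 3 ^ e := Nat.pow_le_pow_left (by omega) e
    omega
  · have h1 : n + 2 ≤ n ^ 2 := by nlinarith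
    have h2 : (n + 2) ^ e ≤ (n ^ 2) ^ e := Nat.pow_le_pow_left h1 e
    have h3 : 2 * e ≤ 3 ^ e := by
      clear h2
      induction e with
      | zero => simp
      | succ e ih =>
        have h4 : 1 ≤ 3 ^ e := Nat.one_le_pow _ _ (by omega)
        rw [pow_succ]; omega
    rw [← pow_mul] at h2
    have h4 : n ^ (2 * e) ≤ n ^ (3 ^ e) := Nat.pow_le_pow_right (by omega) h3
    omega

/-! ### Evaluation of a weighted vote with a table -/

/-- A weight as a binary integer. -/
def numW (a : Bool × List Bool) : LT.Num := bif a.1 then (a.2, []) else ([], a.2)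

lemma bval_eq_ofDigits (l : List Bool) : LT.bval l = ofDigits l := by
  induction l with
  | nil => rfl
  | cons b l ih => rw [LT.bval, ofDigits, ih]

lemma nval_numW (a : Bool × List Bool) : LT.nval (numW a) = weight a := by
  unfold numW weight LT.nval
  cases a.1
  · simp [bval_eq_ofDigits]
  · simp [bval_eq_ofDigits]

/-- The weighted vote according to a table. -/
def voteT (T : List Word) (v : List ((Bool × List Bool) × List Word)) : LT.Num :=
  LT.nsum ((v.filter fun e => e.2.all (memT T)).map fun e => numW e.1)

lemma nval_voteT (S : Set Word) (T : List Word) (v : List ((Bool × List Bool) × List Word))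
    (h : ∀ e ∈ v, ∀ w ∈ e.2, w ∈ T ↔ w ∈ S) : LT.nval (voteT T v) = votes S v := by
  classical
  rw [voteT, LT.nval_nsum]
  unfold votes
  induction v with
  | nil => simp
  | cons e v ih =>
    have ih' := ih fun e' he' => h e' (List.mem_cons_of_mem _ he')
    have hall : e.2.all (memT T) = decide (∀ w ∈ e.2, w ∈ S) := by
      rw [Bool.eq_iff_iff]
      simp only [List.all_eq_true, decide_eq_true_eq, memT_iff]
      exact ⟨fun h' w hw => (h e List.mem_cons_self w hw).1 (h' w hw),
        fun h' w hw => (h e List.mem_cons_self w hw).2 (h' w hw)⟩
    rw [List.map_cons, List.sum_cons, ← ih', List.filter_cons, hall]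
    by_cases hS : ∀ w ∈ e.2, w ∈ S
    · rw [if_pos hS, decide_eq_true hS, if_pos rfl, List.map_cons, List.map_cons, List.sum_cons,
        nval_numW]
    · rw [if_neg hS, decide_eq_false hS, if_neg (by simp), zero_add]

lemma PT.voteT {γ : Type} [Enc γ] {T : γ → List Word}
    {v : γ → List ((Bool × List Bool) × List Word)} (hT : PT T) (hv : PT v) :
    PT fun c => MP_634427_lc.voteT (T c) (v c) := by
  have h : PT fun p : γ × ((Bool × List Bool) × List Word) =>
      p.2.2.all (MP_634427_lc.memT (T p.1)) :=
    PT.all (p := fun (p : γ × ((Bool × List Bool) × List Word)) w =>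
      MP_634427_lc.memT (T p.1) w) (PT.snd' PT.snd) (PT.memT (hT.comp (PT.fst' PT.fst)) PT.snd)
  refine PT.nsum (PT.map (f := fun _ (e : (Bool × List Bool) × List Word) => numW e.1)
    (PT.filter (p := fun c (e : (Bool × List Bool) × List Word) =>
      e.2.all (MP_634427_lc.memT (T c))) hv h) ?_)
  exact PT.cond (PT.fst' (PT.fst' PT.snd)) (PT.pair (PT.snd' (PT.fst' PT.snd)) (PT.const []))
    (PT.pair (PT.const []) (PT.snd' (PT.fst' PT.snd)))

/-! ### The simulation -/

section sim

variable (stop : Word × List Bool → Bool) (query : Word × List Bool → Word)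
  (wds : Word × List Bool → List Word)

/-- The length of the first phase. -/
def phase (p : Word × List Bool) : Option ℕ :=
  (List.range (p.2.length + 1)).find? fun i => stop (p.1, p.2.take i)

/-- The words asked in the second phase. -/
def wds2 (p : Word × List Bool) (i : ℕ) : List Word := wds (p.1, p.2.take i)

/-- The new computation stops when the second phase is complete. -/
def stop2 (p : Word × List Bool) : Bool :=
  match phase stop p with
  | none => false
  | some i => decide ((wds2 wds p i).length ≤ p.2.length - i)

/-- The new query. -/
def query2 (p : Word × List Bool) : Word :=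
  match phase stop p with
  | none => query p
  | some i => (wds2 wds p i).getD (p.2.length - i) []

/-- The words with a positive answer in the second phase. -/
def tab2 (p : Word × List Bool) (i : ℕ) : List Word :=
  ((List.range (wds2 wds p i).length).filter fun j => (p.2.drop i).getD j false).map
    fun j => (wds2 wds p i).getD j []

variable {stop query wds}

lemma pt_phase (hs : PT stop) : PT (phase stop) :=
  PT.find? (l := fun p : Word × List Bool => List.range (p.2.length + 1))
    (p := fun p i => stop (p.1, p.2.take i)) (PT.range (PT.succ (PT.length PT.snd)))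
    (hs.comp (PT.pair (PT.fst' PT.fst) (PT.take PT.snd (PT.snd' PT.fst))))

lemma pt_wds2 (hw : PT wds) : PT fun q : (Word × List Bool) × ℕ => wds2 wds q.1 q.2 :=
  hw.comp (PT.pair (PT.fst' PT.fst) (PT.take PT.snd (PT.snd' PT.fst)))

lemma pt_stop2 (hs : PT stop) (hw : PT wds) : PT (stop2 stop wds) :=
  (PT.casesOption (g := fun p i => decide ((wds2 wds p i).length ≤ p.2.length - i))
    (pt_phase hs) (PT.const false) (PT.le (PT.length (pt_wds2 hw))
      (PT.sub (PT.length (PT.snd' PT.fst)) PT.snd))).of_eq fun p => by
    unfold stop2
    cases phase stop p <;> rfl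

lemma pt_query2 (hs : PT stop) (hq : PT query) (hw : PT wds) : PT (query2 stop query wds) :=
  (PT.casesOption (g := fun p i => (wds2 wds p i).getD (p.2.length - i) [])
    (pt_phase hs) hq (PT.getLD (PT.sub (PT.length (PT.snd' PT.fst)) PT.snd) (pt_wds2 hw)
      (PT.const []))).of_eq fun p => by
    unfold query2
    cases phase stop p <;> rfl

lemma pt_tab2 (hw : PT wds) : PT fun q : (Word × List Bool) × ℕ => tab2 wds q.1 q.2 :=
  PT.map (f := fun (q : (Word × List Bool) × ℕ) j => (wds2 wds q.1 q.2).getD j [])
    (PT.filter (p := fun (q : (Word × List Bool) × ℕ) j => (q.1.2.drop q.2).getD j false)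
      (PT.range (PT.length (pt_wds2 hw)))
      (PT.getLD PT.snd (PT.drop (PT.snd' PT.fst) (PT.snd' (PT.fst' PT.fst))) (PT.const false)))
    (PT.getLD PT.snd ((pt_wds2 hw).comp PT.fst) (PT.const []))

lemma phase_eq_none {p : Word × List Bool}
    (h : ∀ i ≤ p.2.length, stop (p.1, p.2.take i) = false) : phase stop p = none := by
  unfold phase
  rw [List.find?_eq_none]
  intro i hi
  rw [List.mem_range] at hi
  rw [h i (by omega)]
  simp

lemma phase_eq_some {p : Word × List Bool} {m : ℕ} (hm : m ≤ p.2.length)
    (h1 : stop (p.1, p.2.take m) = true)
    (h : ∀ i < m, stop (p.1, p.2.take i) = false) : phase stop p = some m := by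
  unfold phase
  have h2 : List.range (p.2.length + 1) = List.range m ++ (List.range (p.2.length + 1 - m)).map
      (m + ·) := by
    rw [← List.range_add]
    congr 1
    omega
  have h3 : (List.range m).find? (fun i => stop (p.1, p.2.take i)) = none := by
    rw [List.find?_eq_none]
    intro i hi
    rw [List.mem_range] at hi
    rw [h i hi]
    simp
  obtain ⟨k, hk⟩ : ∃ k, p.2.length + 1 - m = k + 1 := ⟨p.2.length - m, by omega⟩
  rw [h2, List.find?_append, h3, Option.none_or, hk, List.range_succ_eq_map, List.map_cons,
    List.find?_cons, Nat.add_zero, h1]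

/-- The first stopping time. -/
lemma exists_first (S : Set Word) (x : Word) (N : ℕ)
    (h : stop (x, answers S (fun l => stop (x, l)) (fun l => query (x, l)) N) = true) :
    ∃ m ≤ N, answers S (fun l => stop (x, l)) (fun l => query (x, l)) N =
        answers S (fun l => stop (x, l)) (fun l => query (x, l)) m ∧
      (∀ i < m, stop (x, answers S (fun l => stop (x, l)) (fun l => query (x, l)) i) = false) ∧
      ∀ i ≤ m, (answers S (fun l => stop (x, l)) (fun l => query (x, l)) i).length = i := by
  classical
  set a := answers S (fun l => stop (x, l)) (fun l => query (x, l)) with ha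
  have hex : ∃ m, stop (x, a m) = true := ⟨N, h⟩
  have hlt : ∀ i < Nat.find hex, stop (x, a i) = false := fun i hi => by
    have := Nat.find_min hex hi
    simpa using this
  refine ⟨Nat.find hex, Nat.find_min' hex h, ?_, hlt, ?_⟩
  · exact answers_stable (Nat.find_spec hex) N (Nat.find_min' hex h)
  · intro i
    induction i with
    | zero => intro _; rw [ha, answers]; rfl
    | succ i ih =>
      intro hi
      have h1 := hlt i (by omega)
      have h2 : a (i + 1) = if stop (x, a i) then a i
          else a i ++ [decide (query (x, a i) ∈ S)] := by rw [ha, answers]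
      rw [h2, h1]
      simp only [Bool.false_eq_true, if_false, List.length_append, List.length_singleton]
      rw [ih (by omega)]

lemma take_answers (S : Set Word) (x : Word) {m : ℕ}
    (hlen : ∀ i ≤ m, (answers S (fun l => stop (x, l)) (fun l => query (x, l)) i).length = i)
    {i n : ℕ} (hi : i ≤ n) (hn : n ≤ m) :
    (answers S (fun l => stop (x, l)) (fun l => query (x, l)) n).take i =
      answers S (fun l => stop (x, l)) (fun l => query (x, l)) i := by
  have h1 : answers S (fun l => stop (x, l)) (fun l => query (x, l)) i <+:
      answers S (fun l => stop (x, l)) (fun l => query (x, l)) n := answers_prefix_le hi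
  have h2 := List.prefix_iff_eq_take.1 h1
  rw [hlen i (by omega)] at h2
  exact h2.symm

open Classical in
/-- The run of the new computation. -/
lemma answers2 (S : Set Word) (x : Word) {m : ℕ}
    (hm : stop (x, answers S (fun l => stop (x, l)) (fun l => query (x, l)) m) = true)
    (hlt : ∀ i < m, stop (x, answers S (fun l => stop (x, l)) (fun l => query (x, l)) i) = false)
    (hlen : ∀ i ≤ m, (answers S (fun l => stop (x, l)) (fun l => query (x, l)) i).length = i)
    (n : ℕ) :
    (n ≤ m → answers S (fun l => stop2 stop wds (x, l)) (fun l => query2 stop query wds (x, l)) n =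
      answers S (fun l => stop (x, l)) (fun l => query (x, l)) n) ∧
    (m ≤ n → answers S (fun l => stop2 stop wds (x, l)) (fun l => query2 stop query wds (x, l)) n =
      answers S (fun l => stop (x, l)) (fun l => query (x, l)) m ++
        ((wds (x, answers S (fun l => stop (x, l)) (fun l => query (x, l)) m)).take (n - m)).map
          fun w => decide (w ∈ S)) := by
  set a := answers S (fun l => stop (x, l)) (fun l => query (x, l)) with ha
  have hstep : ∀ i, a (i + 1) = if stop (x, a i) then a i else a i ++ [decide (query (x, a i) ∈ S)] :=
    fun i => by rw [ha, answers]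
  induction n with
  | zero =>
    refine ⟨fun _ => by rw [ha, answers, answers], fun h => ?_⟩
    have : m = 0 := by omega
    subst this
    rw [ha, answers, answers]
    simp
  | succ n ih =>
    have key : n < m → answers S (fun l => stop2 stop wds (x, l))
        (fun l => query2 stop query wds (x, l)) (n + 1) = a (n + 1) := by
      intro hn
      have h1 := ih.1 hn.le
      have h2 : phase stop (x, a n) = none := phase_eq_none fun i hi => by
        have hi' : i ≤ n := by
          have h3 : i ≤ (a n).length := hi
          rwa [hlen n hn.le] at h3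
        have h4 : (a n).take i = a i := take_answers S x hlen hi' hn.le
        show stop (x, (a n).take i) = false
        rw [h4]
        exact hlt i (by omega)
      have h3 : stop2 stop wds (x, a n) = false := by unfold stop2; rw [h2]
      have h4 : query2 stop query wds (x, a n) = query (x, a n) := by unfold query2; rw [h2]
      rw [answers, h1, h3, h4, hstep, hlt n hn]
    constructor
    · intro h
      exact key (by omega)
    · intro h
      rcases Nat.lt_or_ge n m with hn | hn
      · have hnm : m = n + 1 := by omega
        rw [key hn, hnm]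
        simp
      · have h1 := ih.2 hn
        set W := wds (x, a m) with hW
        set l := a m ++ (W.take (n - m)).map (fun w => decide (w ∈ S)) with hl
        have hla : (a m).length = m := hlen m le_rfl
        have htake : ∀ i ≤ m, l.take i = a i := fun i hi => by
          rw [hl, List.take_append_of_le_length (by rw [hla]; exact hi)]
          exact take_answers S x hlen hi le_rfl
        have hll : l.length = m + min (n - m) W.length := by
          rw [hl, List.length_append, hla, List.length_map, List.length_take]
        have h2 : phase stop (x, l) = some m := phase_eq_some (by show m ≤ l.length; omega)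
          (by show stop (x, l.take m) = true; rw [htake m le_rfl]; exact hm)
          (fun i hi => by show stop (x, l.take i) = false; rw [htake i hi.le]; exact hlt i hi)
        have h5 : wds2 wds (x, l) m = W := by
          show wds (x, l.take m) = W
          rw [htake m le_rfl]
        have h3 : stop2 stop wds (x, l) = decide (W.length ≤ l.length - m) := by
          unfold stop2; rw [h2]; simp only; rw [h5]
        have h4 : query2 stop query wds (x, l) = W.getD (l.length - m) [] := by
          unfold query2; rw [h2]; simp only; rw [h5]
        rw [answers, h1, h3, h4]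
        by_cases h6 : W.length ≤ n - m
        · have h7 : W.length ≤ l.length - m := by omega
          rw [decide_eq_true h7, if_pos rfl, hl, List.take_of_length_le h6,
            List.take_of_length_le (by omega)]
        · have h7 : ¬ W.length ≤ l.length - m := by omega
          have h8 : l.length - m = n - m := by omega
          rw [decide_eq_false h7, if_neg (by simp), h8, hl, List.append_assoc]
          congr 1
          have h9 : n + 1 - m = (n - m) + 1 := by omega
          rw [h9, List.take_add_one, List.map_append, List.getD_eq_getElem?_getD,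
            List.getElem?_eq_getElem (by omega : n - m < W.length)]
          simp

open Classical in
lemma mem_tab2 (S : Set Word) (x : Word) (l : List Bool) (m : ℕ) (W : List Word)
    (h1 : wds2 wds (x, l) m = W) (h2 : l.drop m = W.map fun w => decide (w ∈ S)) (w : Word) :
    w ∈ tab2 wds (x, l) m ↔ w ∈ W ∧ w ∈ S := by
  unfold tab2
  rw [h1]
  show w ∈ List.map _ ((List.range W.length).filter fun j => (l.drop m).getD j false) ↔ _
  rw [h2]
  simp only [List.mem_map, List.mem_filter, List.mem_range]
  constructor
  · rintro ⟨j, ⟨hj, h3⟩, rfl⟩
    rw [List.getD_eq_getElem _ _ (by simpa using hj), List.getElem_map, decide_eq_true_eq] at h3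
    rw [List.getD_eq_getElem _ _ hj]
    exact ⟨List.getElem_mem _, h3⟩
  · rintro ⟨h3, h4⟩
    obtain ⟨j, hj, rfl⟩ := List.getElem_of_mem h3
    refine ⟨j, ⟨hj, ?_⟩, List.getD_eq_getElem _ _ hj⟩
    rw [List.getD_eq_getElem _ _ (by simpa using hj), List.getElem_map, decide_eq_true_eq]
    exact h4

end sim

/-- The words in a weighted vote. -/
def wordsW (v : List ((Bool × List Bool) × List Word)) : List Word := v.flatMap fun e => e.2

lemma length_wordsW_le (v : List ((Bool × List Bool) × List Word)) :
    (wordsW v).length ≤ sz v := by
  induction v with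
  | nil => simp [wordsW]
  | cons e v ih =>
    simp only [wordsW, List.flatMap_cons, List.length_append] at ih ⊢
    have h1 := length_le_sz e.2
    rw [sz_cons, sz_prod]
    omega

/-- The final threshold instance. -/
def out2 (stop : Word × List Bool → Bool)
    (out : Word × List Bool → List ((Bool × List Bool) × List Word))
    (p : Word × List Bool) : List (Bool × List Word) :=
  match phase stop p with
  | none => []
  | some i => bif LT.nle (voteT (tab2 (fun q => wordsW (out q)) p i) (out (p.1, p.2.take i)))
      LT.nzero then [] else [(true, [])]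

theorem turingRed_of_weighted {A S : Set Word} (h : WeightedReducible A S) : TuringRed A S := by
  classical
  obtain ⟨k, stop, query, out, d, c, hs, hq, ho, _, _, hA⟩ := h
  have hw : PT fun q => wordsW (out q) :=
    PT.flatMap (f := fun _ (e : (Bool × List Bool) × List Word) => e.2) ho (PT.snd' PT.snd)
  have ho2 : PT (out2 stop out) := by
    refine (PT.casesOption (g := fun p i => bif LT.nle (voteT (tab2 (fun q => wordsW (out q)) p i)
      (out (p.1, p.2.take i))) LT.nzero then [] else [(true, ([] : List Word))])
      (pt_phase hs) (PT.const []) ?_).of_eq fun p => ?_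
    · exact PT.cond (PT.nle (PT.voteT (pt_tab2 hw) (ho.comp (PT.pair (PT.fst' PT.fst)
        (PT.take PT.snd (PT.snd' PT.fst))))) (PT.const LT.nzero)) (PT.const [])
        (PT.const [(true, [])])
    · unfold out2
      cases phase stop p <;> rfl
  -- the number of steps
  obtain ⟨c', hc'⟩ : ∃ c', ∀ (x : Word) (l : List Bool), l.length ≤ x.length ^ c + c →
      x.length ^ c + c + (wordsW (out (x, l))).length ≤ x.length ^ c' + c' := by
    obtain ⟨k3, hk3⟩ := ho.size_le
    obtain ⟨e, he⟩ : PB fun n => (n ^ c + c) + (2 * n + 2 * (n ^ c + c) + 1 + 2) ^ k3 :=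
      PB.add (PB.add (PB.pow PB.id c) (PB.const c)) (PB.pow (PB.add (PB.add (PB.add
        (PB.mul (PB.const 2) PB.id) (PB.mul (PB.const 2) (PB.add (PB.pow PB.id c) (PB.const c))))
        (PB.const 1)) (PB.const 2)) k3)
    obtain ⟨c', hc'⟩ := exists_pow_le e
    refine ⟨c', fun x l hl => le_trans ?_ ((he x.length).trans (hc' x.length))⟩
    refine Nat.add_le_add_left ?_ _
    refine (length_wordsW_le _).trans ((hk3 _).trans (Nat.pow_le_pow_left ?_ k3))
    have h1 := sz_word_le x
    have h2 := sz_word_le l
    rw [sz_pair]
    omega
  refine ⟨stop2 stop (fun q => wordsW (out q)), query2 stop query (fun q => wordsW (out q)),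
    out2 stop out, c', pt_stop2 hs hw, pt_query2 hs hq hw, ho2, fun x => ?_⟩
  obtain ⟨l0, hl0, h1, _, _, h2⟩ := hA x
  rw [hl0] at h1
  obtain ⟨m, hmN, hm1, hlt, hlen⟩ := exists_first S x _ h1
  rw [hm1] at h1
  have hrun := (answers2 (wds := fun q => wordsW (out q)) S x h1 hlt hlen
    (x.length ^ c' + c')).2
  set a := answers S (fun l => stop (x, l)) (fun l => query (x, l)) with ha
  have hl0' : l0 = a m := hl0.trans hm1
  have hlam : (a m).length = m := hlen m le_rfl
  have h3 := hc' x (a m) (by rw [hlam]; exact hmN)
  have h4 := hrun (by omega)
  set W := wordsW (out (x, a m)) with hW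
  rw [List.take_of_length_le (by show W.length ≤ _; omega)] at h4
  rw [h4, h2, hl0']
  set l := a m ++ W.map (fun w => decide (w ∈ S)) with hl
  have htake : ∀ i ≤ m, l.take i = a i := fun i hi => by
    rw [hl, List.take_append_of_le_length (by rw [hlam]; exact hi)]
    exact take_answers S x hlen hi le_rfl
  have h5 : phase stop (x, l) = some m := phase_eq_some
    (by show m ≤ l.length; rw [hl, List.length_append, hlam]; omega)
    (by show stop (x, l.take m) = true; rw [htake m le_rfl]; exact h1)
    (fun i hi => by show stop (x, l.take i) = false; rw [htake i hi.le]; exact hlt i hi)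
  have h6 : wds2 (fun q => wordsW (out q)) (x, l) m = W := by
    show wordsW (out (x, l.take m)) = W
    rw [htake m le_rfl]
  have h7 : l.drop m = W.map fun w => decide (w ∈ S) := by
    rw [hl, List.drop_append, hlam, Nat.sub_self, List.drop_zero,
      List.drop_of_length_le (by omega), List.nil_append]
  have h8 : LT.nval (voteT (tab2 (fun q => wordsW (out q)) (x, l) m) (out (x, a m))) =
      votes S (out (x, a m)) := by
    refine nval_voteT S _ _ fun e he w hwe => ?_
    rw [mem_tab2 S x l m W h6 h7]
    have : w ∈ W := by
      rw [hW]
      unfold wordsW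
      exact List.mem_flatMap.2 ⟨e, he, hwe⟩
    tauto
  have h9 : out2 stop out (x, l) = bif LT.nle (voteT (tab2 (fun q => wordsW (out q)) (x, l) m)
      (out (x, a m))) LT.nzero then [] else [(true, [])] := by
    unfold out2
    rw [h5]
    simp only
    rw [htake m le_rfl]
  rw [h9]
  have h10 := LT.nle_iff (voteT (tab2 (fun q => wordsW (out q)) (x, l) m) (out (x, a m))) LT.nzero
  rw [h8, LT.nval_nzero] at h10
  cases hb : LT.nle (voteT (tab2 (fun q => wordsW (out q)) (x, l) m) (out (x, a m))) LT.nzero
  · rw [hb] at h10
    have : 0 < votes S (out (x, a m)) := by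
      by_contra h'
      exact absurd (h10.2 (not_lt.1 h')) (by simp)
    simp [this, balance]
  · rw [hb] at h10
    have : ¬ 0 < votes S (out (x, a m)) := not_lt.2 (h10.1 rfl)
    simp [this, balance]

/-! ### Hybrid reductions are a special case -/

lemma noBlocks_le_count (query : List Bool → Word) (l : List Bool) :
    noBlocks query l ≤ l.count false := by
  have key : ∀ l : List Bool, ((List.range l.length).filter fun i => !(l.getD i true)).length =
      l.count false := by
    intro l
    induction l with
    | nil => rfl
    | cons b l ih =>
      rw [List.length_cons, List.range_succ_eq_map, List.filter_cons, List.filter_map,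
        List.count_cons]
      have h1 : ((fun i => !((b :: l).getD i true)) ∘ Nat.succ) = fun i => !(l.getD i true) := by
        funext i
        simp
      rw [h1]
      cases b
      · simp only [List.getD_cons_zero, Bool.not_false, if_true, List.length_cons,
          List.length_map, ih, beq_self_eq_true]
      · simp only [List.getD_cons_zero, Bool.not_true, Bool.false_eq_true, if_false,
          List.length_map, ih, beq_iff_eq]
        simp
  rw [← key]
  unfold noBlocks
  refine List.Sublist.length_le (List.monotone_filter_right _ fun i h => ?_)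
  simp only [Bool.and_eq_true] at h
  exact h.1

theorem weighted_of_hybrid {A S : Set Word} (h : HybridReducible A S) :
    WeightedReducible A S := by
  classical
  obtain ⟨k, stop, query, out, d, c, h1, h2, h3, h4, h5, h6⟩ := h
  refine ⟨k, stop, query, fun p => (out p).map fun e => ((e.1, [true]), e.2), d, c, h1, h2,
    PT.map (f := fun _ (e : Bool × List Word) => ((e.1, [true]), e.2)) h3
      (PT.pair (PT.pair (PT.fst' PT.snd) (PT.const [true])) (PT.snd' PT.snd)), h4, h5,
    fun x => ?_⟩
  obtain ⟨l, hl, h7, h8, h9, h10⟩ := h6 x
  refine ⟨l, hl, h7, (noBlocks_le_count _ _).trans h8, ?_, ?_⟩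
  · intro e he
    obtain ⟨e', he', rfl⟩ := List.mem_map.1 he
    exact Or.inr ⟨h9 e' he', rfl⟩
  · rw [h10]
    have : votes S ((out (x, l)).map fun e => ((e.1, [true]), e.2)) = balance S (out (x, l)) := by
      unfold votes balance
      rw [List.map_map]
      congr 1
    rw [this]

end Pool.Agent.Lib.MP_634427_lc
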