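import Pool.Agent.Lib.MP_634427_lc.LT.Vec
import Pool.Agent.Lib.MP_634427_lc.Frame

/-!
# The vectors attached to weighted votes are computed in polynomial time
-/

namespace Pool.Agent.Lib.MP_634427_lc.PT

variable {γ : Type} [Enc γ]

lemma keysT {ℓ : γ → ℕ} (hℓ : PT ℓ) (k : ℕ) : PT fun c => LT.keysT (ℓ c) k := by
  induction k with
  | zero => exact const _
  | succ k ih =>
    have h1 : PT fun q : (γ × ℕ) × List Word => List.replicate q.1.2 false :: q.2 :=
      cons (replicate (snd' fst) (const false)) snd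
    have h2 : PT fun q : γ × ℕ => (LT.keysT (ℓ q.1) k).map fun κ => List.replicate q.2 false :: κ :=
      map (f := fun (q : γ × ℕ) κ => List.replicate q.2 false :: κ) (ih.comp fst) h1
    have h3 : PT fun c => (List.range (ℓ c + 1)).flatMap fun i =>
        (LT.keysT (ℓ c) k).map fun κ => List.replicate i false :: κ :=
      flatMap (f := fun c i => (LT.keysT (ℓ c) k).map fun κ => List.replicate i false :: κ)
        (range (succ hℓ)) h2
    exact cons (const []) h3

lemma cd {κ : γ → List Word} (hκ : PT κ) : PT fun c => LT.cd (κ c) :=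
  PT.code (pt_enc hκ)

lemma eqBundle {f g : γ → List Word} (hf : PT f) (hg : PT g) : PT fun c => decide (f c = g c) :=
  PT.eqDec (enc_list_injective enc_word_injective) hf hg

lemma memBundle {κ : γ → List Word} {L : γ → List (List Word)} (hκ : PT κ) (hL : PT L) :
    PT fun c => decide (κ c ∈ L c) :=
  (PT.any (p := fun c a => decide (κ c = a)) hL (eqBundle (hκ.comp fst) snd)).of_eq fun c => by
    rw [Bool.eq_iff_iff, List.any_eq_true]
    simp

lemma numW {a : γ → Bool × Word} (ha : PT a) : PT fun c => LT.numW (a c) :=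
  cond (fst' ha) (pair (snd' ha) (const [])) (pair (const []) (snd' ha))

lemma sgn2 {b : γ → Bool} (hb : PT b) : PT fun c => LT.sgn2 (b c) :=
  cond hb (nofNat (const 2)) (nneg (nofNat (const 2)))

lemma coefA {p : γ → ℕ} {out : γ → List LT.Vote} {κ : γ → List Word} (hp : PT p) (hout : PT out)
    (hκ : PT κ) : PT fun c => LT.coefA (p c) (out c) (κ c) := by
  unfold LT.coefA
  have h1 : PT fun q : γ × LT.Vote => decide (q.2.2 = κ q.1) :=
    eqBundle (snd' snd) (hκ.comp fst)
  have h2 : PT fun c => (out c).filter fun e => decide (e.2 = κ c) :=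
    filter (p := fun c e => decide (e.2 = κ c)) hout h1
  have h3 : PT fun q : γ × LT.Vote => LT.numW q.2.1 := numW (fst' snd)
  have h4 : PT fun c => ((out c).filter fun e => decide (e.2 = κ c)).map fun e => LT.numW e.1 :=
    map (f := fun (_ : γ) (e : LT.Vote) => LT.numW e.1) h2 h3
  exact nmul (nofNat (mul (const 2) hp)) (nsum h4)

lemma coefB {ℓ p x y : γ → ℕ} {out : γ → List LT.Vote} (hℓ : PT ℓ) (k : ℕ) (hp : PT p)
    (hp0 : ∀ c, 0 < p c) (hout : PT out) (hx : PT x) (hy : PT y) :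
    PT fun c => LT.coefB (ℓ c) k (p c) (out c) (x c) (y c) := by
  unfold LT.coefB
  have h1 : PT fun q : γ × LT.Vote => !decide (q.2.2 ∈ LT.keysT (ℓ q.1) k) &&
      decide (LT.hsh (p q.1) (x q.1) (LT.cd q.2.2) = y q.1) :=
    and (not (memBundle (snd' snd) ((keysT hℓ k).comp fst)))
      (eqNat (hsh (hp.comp fst) (hx.comp fst) (cd (snd' snd)) fun q => hp0 q.1) (hy.comp fst))
  have h2 : PT fun c => (out c).filter fun e => !decide (e.2 ∈ LT.keysT (ℓ c) k) &&
      decide (LT.hsh (p c) (x c) (LT.cd e.2) = y c) :=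
    filter (p := fun c e => !decide (e.2 ∈ LT.keysT (ℓ c) k) &&
      decide (LT.hsh (p c) (x c) (LT.cd e.2) = y c)) hout h1
  have h3 : PT fun q : γ × LT.Vote => LT.sgn2 q.2.1.1 := sgn2 (fst' (fst' snd))
  exact nsum (map (f := fun (_ : γ) (e : LT.Vote) => LT.sgn2 e.1.1) h2 h3)

lemma wvec {ℓ p : γ → ℕ} {out : γ → List LT.Vote} (hℓ : PT ℓ) (k : ℕ) (hp : PT p)
    (hp0 : ∀ c, 0 < p c) (hout : PT out) : PT fun c => LT.wvec (ℓ c) k (p c) (out c) := by
  unfold LT.wvec
  have h1 : PT fun q : γ × List Word => LT.coefA (p q.1) (out q.1) q.2 :=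
    coefA (hp.comp fst) (hout.comp fst) snd
  have h2 : PT fun c => (LT.keysT (ℓ c) k).map (LT.coefA (p c) (out c)) :=
    map (f := fun c κ => LT.coefA (p c) (out c) κ) (keysT hℓ k) h1
  have h3 : PT fun q : γ × (ℕ × ℕ) => LT.coefB (ℓ q.1) k (p q.1) (out q.1) q.2.1 q.2.2 :=
    coefB (hℓ.comp fst) k (hp.comp fst) (fun q => hp0 q.1) (hout.comp fst) (fst' snd) (snd' snd)
  have h4 : PT fun c => (LT.idx (p c) (p c)).map fun q =>
      LT.coefB (ℓ c) k (p c) (out c) q.1 q.2 :=
    map (f := fun c (q : ℕ × ℕ) => LT.coefB (ℓ c) k (p c) (out c) q.1 q.2) (idx hp hp) h3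
  exact append (append h2 h4) (cons (nneg (nofNat hp)) (const []))

lemma wdim {ℓ p : γ → ℕ} (hℓ : PT ℓ) (k : ℕ) (hp : PT p) :
    PT fun c => LT.wdim (ℓ c) k (p c) := by
  unfold LT.wdim
  exact succ (add (length (keysT hℓ k)) (length (idx hp hp)))

end Pool.Agent.Lib.MP_634427_lc.PT
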