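import Pool.Agent.Lib.MP_634427_lc.Hybrid
import Pool.Agent.Lib.MP_634427_lc.CoverPT
import Pool.Agent.Lib.MP_634427_lc.LT.VecPT

/-!
# Candidate lists from weighted votes after an adaptive phase

A sparse set that is hard for NP under polynomial-time Turing reductions that consist of an
adaptive phase with boundedly many blocks of negative answers and a final weighted vote gives
polynomial-time candidate lists for unique projections of witnesses.
-/

namespace Pool.Agent.Lib.MP_634427_lc

open BT KNo Hyb

section blocks

variable {S : Set Word} {stop : List Bool → Bool} {query : List Bool → Word}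

lemma good_answers {next : Word → List Bool → Option Word} {r : Word}
    (hn : ∀ l, next r l = nxt stop query l) (n : ℕ) :
    Good next S (r, answers S stop query n) := by
  classical
  induction n with
  | zero => exact Good.nil r
  | succ n ih =>
    rw [answers]
    split_ifs with h
    · exact ih
    · refine ih.append (s := query (answers S stop query n)) ?_ (by simp)
      show next r (answers S stop query n) = some (query (answers S stop query n))
      rw [hn, nxt_eq_some]
      exact ⟨Bool.eq_false_iff.2 h, rfl⟩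

lemma onlyZeros_eq (w : Word) : onlyZeros w = isTally w := rfl

lemma turns_eq_noBlocks {next : Word → List Bool → Option Word} {r : Word}
    (hn : ∀ l, next r l = nxt stop query l) {l : List Bool} (hl : Good next S (r, l)) :
    turns next (r, l) = noBlocks query l := by
  have hnext : ∀ i < l.length, next r (l.take i) = some (query (l.take i)) := by
    intro i hi
    have h1 : l.take i ++ [l[i]] <+: l := by
      rw [List.take_append_getElem hi]
      exact List.take_prefix _ _
    obtain ⟨s, hs, _⟩ := hl (l.take i) l[i] h1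
    have h2 := hs
    rw [hn, nxt_eq_some] at h2
    rw [hs, h2.2]
  unfold turns noBlocks
  congr 1
  refine List.filter_congr fun i hi => ?_
  rw [List.mem_range] at hi
  change i < l.length at hi
  congr 2
  unfold KNo.free KNo.blk
  simp only
  rw [hnext i hi]
  rcases i with _ | i
  · simp
  · have hi' : i < l.length := by omega
    have h3 : (l.take (i + 1)).dropLast = l.take i := by
      rw [List.dropLast_take, Nat.add_sub_cancel]
      exact hi
    have h4 : (l.take (i + 1)).getLast?.getD true = l.getD i true := by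
      rw [List.getLast?_take, List.getD_eq_getElem?_getD]
      simp [List.getElem?_eq_getElem hi']
    rw [h3, h4, hnext i hi', Nat.add_sub_cancel]
    simp [onlyZeros_eq]

end blocks

namespace KNo

open PT

variable {δ : Type} [Enc δ]

lemma pt_numC {ℓ q P : δ → ℕ} (hℓ : PT ℓ) (hq : PT q) (hP : PT P) (j : ℕ) :
    PT fun d => numC (ℓ d) (q d) (P d) j := by
  induction j with
  | zero => exact const 1
  | succ j ih => exact PT.mul hP (PT.mul (PT.succ (PT.mul hq (PT.succ hℓ))) ih)

lemma pt_rhoC {P θb E : δ → ℕ} (hP : PT P) (hθ : PT θb) (hE : PT E) (j : ℕ) :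
    ∀ {ρ : δ → ℕ}, PT ρ → PT fun d => rhoC (P d) (θb d) (E d) j (ρ d) := by
  induction j with
  | zero => intro ρ hρ; exact hρ
  | succ j ih => intro ρ hρ; exact ih (PT.mul (PT.mul (pt_thC hP hθ hE j) hθ) hρ)

lemma pt_srch {α : Type} [Enc α] {colls : α → List Word → List (List Item)}
    {vt : α → Item → List LT.Num} {md : α → ℕ}
    (hcolls : PT fun p : α × List Word => colls p.1 p.2)
    (hvt : PT fun p : α × Item => vt p.1 p.2) (hmd : PT md) :
    PT fun p : α × List Word × List Word =>
      (colls p.1 p.2.1).flatMap fun G => LT.isoAgree (md p.1) (vt p.1) p.2.2 G := by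
  have h0 : PT fun p : ((α × List Word × List Word) × List Item) × Item => vt p.1.1.1 p.2 :=
    hvt.comp (PT.pair (PT.fst' (PT.fst' PT.fst)) PT.snd)
  have h2 : PT fun q : (α × List Word × List Word) × List Item => md q.1.1 :=
    hmd.comp (PT.fst' PT.fst)
  have h1 : PT fun q : (α × List Word × List Word) × List Item =>
      LT.isoAgree (md q.1.1) (vt q.1.1) q.1.2.2 q.2 :=
    PT.isoAgree (m := fun q : (α × List Word × List Word) × List Item => md q.1.1)
      (vt := fun (q : (α × List Word × List Word) × List Item) => vt q.1.1)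
      (B := fun q : (α × List Word × List Word) × List Item => q.1.2.2)
      (G := fun q : (α × List Word × List Word) × List Item => q.2) h2 h0
      (PT.snd' (PT.snd' PT.fst)) PT.snd
  have h3 : PT fun p : α × List Word × List Word => colls p.1 p.2.1 :=
    hcolls.comp (PT.pair PT.fst (PT.fst' PT.snd))
  exact PT.flatMap (f := fun (p : α × List Word × List Word) G =>
    LT.isoAgree (md p.1) (vt p.1) p.2.2 G) h3 h1

end KNo

/-- A sparse set that is hard for NP under weighted reductions gives polynomial-time candidate
lists for unique projections of witnesses. -/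
theorem projCands_of_weighted (S : Set Word) (hS : Sparse S)
    (hard : ∀ A, InNP A → WeightedReducible A S) : ProjCands := by
  intro α _ Rel π m m' hRel hπ hm hm'
  obtain ⟨A, hA, hmem⟩ := exists_parity_proj Rel π m hRel hπ hm
  obtain ⟨k, stop, query, out, d, c, hstop, hquery, hout, hdm, hSd, hred⟩ := hard A hA
  let cw : α → Word → Word := fun a r => code (enc (a, (r, true)))
  have hcwlen : ∀ a r, (cw a r).length = 2 * (sz a + (sz r + 1 + 1) + 1) + 1 :=
    fun a r => length_code _
  -- the adaptive procedure
  let next : α → Word → List Bool → Option Word := fun a r l =>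
    nxt (fun l => stop (cw a r, l)) (fun l => query (cw a r, l)) l
  let vec : α → Word → List Bool → List LT.Vote := fun a r l => out (cw a r, l)
  have hcw : PT fun p : α × Word => cw p.1 p.2 :=
    PT.code (pt_enc (PT.pair PT.fst (PT.pair PT.snd (PT.const true))))
  have hcwl : PT fun p : α × Word × List Bool => (cw p.1 p.2.1, p.2.2) :=
    PT.pair (hcw.comp (PT.pair PT.fst (PT.fst' PT.snd))) (PT.snd' PT.snd)
  have hnext : PT fun p : α × Word × List Bool => next p.1 p.2.1 p.2.2 :=
    PT.cond (hstop.comp hcwl) (PT.const none) (PT.some (hquery.comp hcwl))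
  have hvec : PT fun p : α × Word × List Bool => vec p.1 p.2.1 p.2.2 := hout.comp hcwl
  -- the number of steps
  let L : α → ℕ := fun a => 2 * (sz a + (2 * m' a + 1 + 1) + 1) + 1
  have hL : PT L := PT.succ (PT.mul (PT.const 2) (PT.succ (PT.add (PT.size PT.id)
    (PT.succ (PT.succ (PT.mul (PT.const 2) hm'))))))
  have hLcw : ∀ a r, r.length ≤ m' a → (cw a r).length ≤ L a := by
    intro a r hr
    rw [hcwlen]
    have := sz_word_le r
    simp only [L]
    omega
  let q : α → ℕ := fun a => L a ^ c + c
  have hq : PT q := PT.add (PT.pow hL c) (PT.const c)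
  -- the size of the queries and of the vectors
  obtain ⟨kn, hkn⟩ := hnext.size_le
  obtain ⟨kv, hkv⟩ := hvec.size_le
  let ℓ : α → ℕ := fun a => (sz a + (2 * m' a + 2 * q a + 1) + 1 + 2) ^ (kn + kv) + L a
  have hℓ : PT ℓ := PT.add (PT.pow (PT.add (PT.succ (PT.add (PT.size PT.id) (PT.succ (PT.add
    (PT.mul (PT.const 2) hm') (PT.mul (PT.const 2) hq))))) (PT.const 2)) (kn + kv)) hL
  have hℓn : ∀ a r tr, r.length ≤ m' a → tr.length ≤ q a → sz (next a r tr) ≤ ℓ a := by
    intro a r tr hr htr
    have h3 := hkn (a, r, tr)
    simp only [sz_pair] at h3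
    have h4 := sz_word_le r
    have h5 := sz_word_le tr
    have h8 : (sz a + (sz r + sz tr + 1) + 1 + 2) ^ kn
        ≤ (sz a + (2 * m' a + 2 * q a + 1) + 1 + 2) ^ (kn + kv) :=
      (Nat.pow_le_pow_left (by omega) kn).trans (Nat.pow_le_pow_right (by omega) (by omega))
    exact h3.trans (h8.trans (Nat.le_add_right _ _))
  have hℓv : ∀ a r tr, r.length ≤ m' a → tr.length ≤ q a → sz (vec a r tr) ≤ ℓ a := by
    intro a r tr hr htr
    have h3 := hkv (a, r, tr)
    simp only [sz_pair] at h3
    have h4 := sz_word_le r
    have h5 := sz_word_le tr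
    have h8 : (sz a + (sz r + sz tr + 1) + 1 + 2) ^ kv
        ≤ (sz a + (2 * m' a + 2 * q a + 1) + 1 + 2) ^ (kn + kv) :=
      (Nat.pow_le_pow_left (by omega) kv).trans (Nat.pow_le_pow_right (by omega) (by omega))
    exact h3.trans (h8.trans (Nat.le_add_right _ _))
  obtain ⟨cs, hcs⟩ := hS
  let P : α → ℕ := fun a => ℓ a ^ cs + cs + 1
  have hP : PT P := PT.succ (PT.add (PT.pow hℓ cs) (PT.const cs))
  have hP0 : ∀ a, 0 < P a := fun a => Nat.succ_pos _
  let Q : α → ℕ := fun a => ℓ a ^ c + c
  have hQ : PT Q := PT.add (PT.pow hℓ c) (PT.const c)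
  -- the bundles inside `S`
  let Fs : α → Finset Word := fun a => (finite_words S (ℓ a)).toFinset
  let T : α → Finset (List Word) := fun a =>
    (listsOf (Fs a) (d (ℓ a))).filter fun κ => sz κ ≤ ℓ a
  have hTcard : ∀ a, (T a).card ≤ Q a := by
    intro a
    refine (Finset.card_filter_le _ _).trans ((card_listsOf_le _ _).trans ?_)
    have h1 := hSd (ℓ a)
    rw [Set.ncard_eq_toFinset_card _ (finite_words S (ℓ a))] at h1
    exact h1
  have hTcd : ∀ a, ∀ κ ∈ T a, (LT.cd κ).length ≤ 2 * ℓ a + 1 := by
    intro a κ hκ
    have h1 := (Finset.mem_filter.1 hκ).2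
    rw [LT.length_cd]
    omega
  -- the fingerprints
  let pr : α → ℕ := fun a => LT.nextPrime (2 * (ℓ a * (Q a * (2 * ℓ a + 1))))
  have hpr : PT pr := PT.nextPrime (PT.mul (PT.const 2) (PT.mul hℓ (PT.mul hQ
    (PT.succ (PT.mul (PT.const 2) hℓ)))))
  have hprp : ∀ a, (pr a).Prime := fun a => LT.nextPrime_prime _
  have hprbig : ∀ a, 2 * (ℓ a * (Q a * (2 * ℓ a + 1))) < pr a := fun a => LT.lt_nextPrime _
  -- the vectors
  let vt : α → Item → List LT.Num := fun a e => LT.wvec (ℓ a) k (pr a) (vec a e.1 e.2)
  have hvt : PT fun p : α × Item => vt p.1 p.2 :=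
    PT.wvec (hℓ.comp PT.fst) k (hpr.comp PT.fst) (fun p => (hprp p.1).pos) hvec
  let md : α → ℕ := fun a => LT.wdim (ℓ a) k (pr a)
  have hmd : PT md := PT.wdim hℓ k hpr
  have hmd0 : ∀ a, 0 < md a := fun a => Nat.succ_pos _
  let E : α → ℕ := fun a => 24 * md a
  have hE : PT E := PT.mul (PT.const 24) hmd
  have hE2 : ∀ a, 2 ≤ E a := fun a => by
    have := hmd0 a
    simp only [E]
    omega
  let θb : α → ℕ := fun a => 2 * (q a * (ℓ a + 1)) + 2
  have hθb : PT θb := PT.add (PT.mul (PT.const 2) (PT.mul hq (PT.succ hℓ))) (PT.const 2)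
  have hθb2 : ∀ a, 2 ≤ θb a := fun a => by simp only [θb]; omega
  let ρ : α → ℕ := fun a => rhoC (P a) (θb a) (E a) k 1
  have hρ : PT ρ := pt_rhoC hP hθb hE k (PT.const 1)
  let K : α → ℕ := fun a => numC (ℓ a) (q a) (P a) k * (24 * md a ^ 2 * ρ a)
  have hK : PT K := PT.mul (pt_numC hℓ hq hP k) (PT.mul (PT.mul (PT.const 24) (PT.pow hmd 2)) hρ)
  -- the pruning procedure
  let colls : α → List Word → List (List Item) := fun a R =>
    searchC (next a) (ℓ a) (q a) (P a) (θb a) (E a) k [] (R.map fun r => (r, []))
  have hcolls : PT fun p : α × List Word => colls p.1 p.2 := by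
    have h1 : PT fun p : α × List Word =>
        ((p.1, (([] : List Word), p.2.map fun r => ((r, []) : Item))) :
          α × List Word × List Item) :=
      PT.pair PT.fst (PT.pair (PT.const [])
        (PT.map (f := fun (_ : α × List Word) r => ((r, []) : Item)) PT.snd
          (PT.pair PT.snd (PT.const []))))
    exact (pt_searchC (next := next) hnext hq hℓ hP hθb hE k).comp h1
  let srch : α → List Word → List Word → List Word := fun a R B =>
    (colls a R).flatMap fun G => LT.isoAgree (md a) (vt a) B G
  have hsrch : PT fun p : α × List Word × List Word => srch p.1 p.2.1 p.2.2 := by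
    exact pt_srch hcolls hvt hmd
  let prune : α → List Word → List Word → List Word := fun a R B =>
    bif R.isEmpty then B else B.filter fun w => decide (w ∈ srch a R B)
  have hprunePT : PT fun p : α × List Word × List Word => prune p.1 p.2.1 p.2.2 := by
    refine PT.cond (PT.isEmpty (PT.fst' PT.snd)) (PT.snd' PT.snd) ?_
    refine PT.filter (PT.snd' PT.snd) (p := fun (p : α × List Word × List Word) w =>
      decide (w ∈ srch p.1 p.2.1 p.2.2)) ?_
    exact PT.memWord PT.snd (hsrch.comp PT.fst)
  have hIsPrune : ∀ a, Frame.IsPrune (prune a) (K a) (m' a) := by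
    intro a
    refine ⟨?_, ?_, ?_⟩
    · intro R B w hw
      rcases R with _ | ⟨r, R⟩
      · exact hw
      · exact List.mem_of_mem_filter hw
    · intro R B hB
      rcases R with _ | ⟨r, R⟩
      · exact hB
      · exact hB.filter _
    · intro R B hB hR horth _
      have hRpos : 0 < R.length := List.length_pos_of_ne_nil hR
      have hpr' : prune a R B = B.filter fun w => decide (w ∈ srch a R B) := by
        rcases R with _ | ⟨r, R⟩
        · exact absurd rfl hR
        · rfl
      have h1 : (srch a R B).length ≤ K a := by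
        have hlen := length_searchC (next := next a) (ℓ := ℓ a) (q a) (P a) (θb a) (E a) (hP0 a) k
          [] (R.map fun r => (r, []))
        have hsh := shape_searchC (next := next a) (ℓ := ℓ a) (R := R) (q a) (hP0 a) (hθb2 a)
          (hE2 a) k [] (R.map fun r => (r, [])) 1
          ⟨fun _ => true, fun _ => [], by rw [List.filter_true]⟩ (by simp)
        refine (length_flatMap_le _ _ (24 * md a ^ 2 * ρ a) fun G hG => ?_).trans
          (Nat.mul_le_mul_right _ hlen.1)
        obtain ⟨h2, h3⟩ := hsh G hG
        exact LT.length_isoAgree hB horth h2 hRpos h3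
      refine le_trans ?_ h1
      have h2 : (prune a R B).Nodup := by rw [hpr']; exact hB.filter _
      exact (List.subperm_of_subset h2 fun w hw => by
        rw [hpr'] at hw
        simpa using (List.mem_filter.1 hw).2).length_le
  obtain ⟨cand, hcand, hc⟩ := Frame.exists_candidates hm' prune K hprunePT hK hIsPrune
  refine ⟨cand, hcand, fun a u hu hex huniq => hc a u hu ?_⟩
  intro R B j hj hRj huB
  rcases R.eq_nil_or_concat with hR0 | ⟨R0, r0, hR0⟩
  · subst hR0
    exact huB
  have hRpos : 0 < R.length := by rw [hR0]; simp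
  have hpr' : prune a R B = B.filter fun w => decide (w ∈ srch a R B) := by
    rcases R with _ | ⟨r, R⟩
    · simp at hRpos
    · rfl
  rw [hpr']
  refine List.mem_filter.2 ⟨huB, ?_⟩
  rw [decide_eq_true_eq]
  have hparA : ∀ r ∈ R, (cw a r ∈ A ↔ par r (u.take j) = true) := by
    intro r hr
    have hpar : par r (u.take j) = par r u := by
      conv_rhs => rw [← List.take_append_drop j u]
      rw [par_append_of_le]
      rw [List.length_take, hu]
      exact le_min (hRj r hr) ((hRj r hr).trans hj)
    rw [hmem, hpar]
    constructor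
    · rintro ⟨w, h1, h2, h3⟩
      rwa [huniq w h1 h2] at h3
    · intro h
      obtain ⟨w, h1, h2⟩ := hex
      exact ⟨w, h1, h2, by rw [huniq w h1 h2]; exact h⟩
  -- the properties of the reduction
  have hrun : ∀ r ∈ R, ∀ tr, Good (next a) S (r, tr) →
      tr.length ≤ q a ∧ turns (next a) (r, tr) ≤ k ∧
        (next a r tr = none → (∀ e ∈ vec a r tr,
          (e.2.length ≤ k ∧ ∀ w ∈ e.2, onlyZeros w = true) ∨
            (e.2.length ≤ d (ℓ a) ∧ e.1.2 = [true])) ∧
          (par r (u.take j) = true ↔ 0 < votes S (vec a r tr))) := by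
    intro r hr tr htr
    obtain ⟨l, hl, hstopl, hcount, hdl, hcor⟩ := hred (cw a r)
    have htr' := good_eq_answers (S := S) (stop := fun l => stop (cw a r, l))
      (query := fun l => query (cw a r, l)) (fun _ => rfl) tr htr
    have hrm : r.length ≤ m' a := (hRj r hr).trans hj
    have hqr : (cw a r).length ^ c + c ≤ q a :=
      Nat.add_le_add_right (Nat.pow_le_pow_left (hLcw a r hrm) c) c
    have hpre : tr <+: l := by
      rw [hl, htr']
      rcases le_total tr.length ((cw a r).length ^ c + c) with h | h
      · exact answers_prefix_le h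
      · rw [answers_stable (by rw [← hl]; exact hstopl) _ h]
    refine ⟨?_, ?_, ?_⟩
    · refine hpre.length_le.trans ?_
      rw [hl]
      exact (length_answers_le _).trans hqr
    · refine (turns_mono r hpre).trans ?_
      have h1 : Good (next a) S (r, l) := by
        rw [hl]
        exact good_answers (stop := fun l => stop (cw a r, l))
          (query := fun l => query (cw a r, l)) (fun _ => rfl) _
      rw [turns_eq_noBlocks (stop := fun l => stop (cw a r, l))
        (query := fun l => query (cw a r, l)) (fun _ => rfl) h1]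
      exact hcount
    · intro hnone
      have hst : stop (cw a r, tr) = true := nxt_eq_none.1 hnone
      have hlen : tr.length ≤ (cw a r).length ^ c + c := by
        refine hpre.length_le.trans ?_
        rw [hl]; exact length_answers_le _
      have heq : l = tr := by
        rw [hl]
        have h2 := answers_stable (S := S) (stop := fun l => stop (cw a r, l))
          (query := fun l => query (cw a r, l)) (n := tr.length) (by rw [← htr']; exact hst)
          _ hlen
        rw [h2, ← htr']
      rw [heq] at hdl hcor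
      refine ⟨fun e he => ?_, ?_⟩
      · rcases hdl e he with h | ⟨h1, h2⟩
        · exact Or.inl h
        · exact Or.inr ⟨h1.trans (hdm ((hLcw a r hrm).trans (Nat.le_add_left _ _))), h2⟩
      · rw [← hparA r hr]
        exact hcor
  have hredT : RedT (next a) S R (q a) k :=
    ⟨fun r hr tr h => (hrun r hr tr h).1, fun r hr tr h => (hrun r hr tr h).2.1⟩
  have hqlen : ∀ r ∈ R, ∀ tr s, Good (next a) S (r, tr) → next a r tr = some s →
      s.length ≤ ℓ a := by
    intro r hr tr s hgood hnx
    have h3 := hℓn a r tr ((hRj r hr).trans hj) (hrun r hr tr hgood).1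
    rw [hnx, sz_some] at h3
    have h7 := length_le_sz s
    omega
  obtain ⟨G, hG, hGpos, hGbad, hGR, hGnone⟩ := exists_cover (θb := θb a) (E := E a) hredT hqlen
    (hP0 a) (by simp only [θb]; omega) (hθb2 a) (hE2 a) (by
      intro Ls hLs hmemL
      have h1 : ∀ s ∈ Ls, s ∈ {w ∈ S | w.length ≤ ℓ a} := by
        intro s hs
        obtain ⟨hsS, r, hr, tr, hgood, hnx⟩ := hmemL s hs
        exact ⟨hsS, hqlen r hr tr s hgood hnx⟩
      have h2 : Ls.length ≤ {w ∈ S | w.length ≤ ℓ a}.ncard := by
        rw [← List.toFinset_card_of_nodup hLs, ← Set.ncard_coe_finset]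
        refine Set.ncard_le_ncard ?_ (finite_words S (ℓ a))
        intro s hs
        exact h1 s (List.mem_toFinset.1 hs)
      exact Nat.lt_succ_of_le (h2.trans (hcs (ℓ a)))) k [] (R.map fun r => (r, []))
    List.nodup_nil (by simp) (by
      intro e he
      obtain ⟨r, hr, rfl⟩ := List.mem_map.1 he
      exact hr) (by rw [List.length_map]; exact hRpos) (by
      have : bad (next a) S (R.map fun r => (r, [])) = 0 := by
        classical
        unfold bad
        rw [List.length_eq_zero_iff, List.filter_eq_nil_iff]
        intro e he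
        obtain ⟨r, hr, rfl⟩ := List.mem_map.1 he
        simpa using Good.nil r
      rw [this]
      simp) (by
      intro e he _
      obtain ⟨r, hr, rfl⟩ := List.mem_map.1 he
      exact ⟨by simp [KNo.free, KNo.blk], Nat.le_add_right _ _⟩)
  refine List.mem_flatMap.2 ⟨G, hG, ?_⟩
  classical
  refine LT.mem_isoAgree (hmd0 a) (fun i => (LT.wfun S (T a) (ℓ a) k (pr a)).getD i 0)
    (fun i => LT.abs_wfun_le _ _ _ _ _ i) (fun e => Good (next a) S e) ?_ hGpos ?_ huB
  · intro e he hg
    have hn := hGnone e he hg
    obtain ⟨h1, _, h3⟩ := hrun e.1 (hGR e he) e.2 hg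
    obtain ⟨h4, h5⟩ := h3 hn
    have hszv := hℓv a e.1 e.2 ((hRj _ (hGR e he)).trans hj) h1
    refine LT.pairing_sign (lam := 2 * ℓ a + 1) (hprp a) (hTcd a) ?_ ?_ _ h5
    · intro x hx
      have h6 := sz_mem_le hx
      rw [sz_prod] at h6
      have h7 : ∀ w ∈ x.2, w.length ≤ ℓ a := by
        intro w hw
        have h7 := sz_mem_le hw
        have h8 := length_le_sz w
        omega
      rcases h4 x hx with ⟨h8, h9⟩ | ⟨h8, h9⟩
      · exact Or.inl (LT.mem_keysT.2 ⟨h8, fun w hw => ⟨h9 w hw, h7 w hw⟩⟩)
      · right
        refine ⟨h9, ⟨fun h w hw => ?_, fun h => ?_⟩, ?_⟩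
        · have := of_mem_listsOf _ _ _ (Finset.mem_filter.1 h).1 w hw
          simp only [Fs, Set.Finite.mem_toFinset] at this
          exact this.1
        · refine Finset.mem_filter.2 ⟨mem_listsOf _ _ _ h8 fun w hw => ?_, by omega⟩
          simp only [Fs, Set.Finite.mem_toFinset]
          exact ⟨h w hw, h7 w hw⟩
        · rw [LT.length_cd]
          omega
    · refine lt_of_le_of_lt ?_ (hprbig a)
      exact Nat.mul_le_mul_left _ (Nat.mul_le_mul ((length_le_sz _).trans hszv)
        (Nat.mul_le_mul_right _ (hTcard a)))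
  · refine le_trans (le_of_eq ?_) hGbad
    unfold bad
    rfl

end Pool.Agent.Lib.MP_634427_lc
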