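import Pool.Agent.Lib.MP_634427_lc.Data

/-!
# Binary numbers as lists of digits: definitions
-/

namespace Pool.Agent.Lib.MP_634427_lc.LT

/-- Value of a list of binary digits, least significant digit first. -/
def bval : Word → ℕ
  | [] => 0
  | b :: l => (if b then 1 else 0) + 2 * bval l

/-- An integer, given as a difference of two natural numbers in binary. -/
abbrev Num := Word × Word

/-- The value. -/
def nval (a : Num) : ℤ := (bval a.1 : ℤ) - bval a.2

/-- The number of digits. -/
def wid (a : Num) : ℕ := max a.1.length a.2.length

/-- An entry of a matrix given as a list of rows. -/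
def entry (A : List (List Num)) (i j : ℕ) : Num := (A.getD i []).getD j ([], [])

/-- The matrix given by a list of rows. -/
def mat (n : ℕ) (A : List (List Num)) : Matrix (Fin n) (Fin n) ℤ := fun i j => nval (entry A i j)

end Pool.Agent.Lib.MP_634427_lc.LT
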