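import Mathlib

/-! The division-free determinant algorithm of Bird (2011). The proof is by generating
functions: the power series of the iterates solve a linear recurrence whose solution is a
bordered determinant. -/

namespace Pool.Agent.Lib.MP_634427_lc.LT

variable {R : Type*} [CommRing R]

def mu {n : ℕ} (X : Matrix (Fin n) (Fin n) R) : Matrix (Fin n) (Fin n) R := fun i j =>
  if i < j then X i j else if i = j then -∑ l ∈ Finset.univ.filter (fun l => i < l), X l l else 0

def bird {n : ℕ} (A : Matrix (Fin n) (Fin n) R) : ℕ → Matrix (Fin n) (Fin n) R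
  | 0 => A
  | k + 1 => mu (bird A k) * A

namespace Bird

open Finset Matrix

/-- One step of the iteration, entrywise. -/
theorem bird_succ_apply {n : ℕ} (A : Matrix (Fin n) (Fin n) R) (k : ℕ) (i j : Fin n) :
    bird A (k + 1) i j = ∑ l ∈ univ.filter (fun l => i < l), bird A k i l * A l j -
      (∑ l ∈ univ.filter (fun l => i < l), bird A k l l) * A i j := by
  have h : ∀ l : Fin n, mu (bird A k) i l * A l j =
      (if i < l then bird A k i l * A l j else 0) +
      (if l = i then -(∑ l ∈ univ.filter (fun l => i < l), bird A k l l) * A i j else 0) := by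
    intro l
    unfold mu
    by_cases h1 : i < l
    · have h2 : l ≠ i := (ne_of_lt h1).symm
      simp [h1, h2]
    · by_cases h2 : i = l
      · subst h2
        simp
      · have h3 : l ≠ i := fun h => h2 h.symm
        simp [h1, h2, h3]
  change (mu (bird A k) * A) i j = _
  rw [Matrix.mul_apply, Finset.sum_congr rfl fun l _ => h l, Finset.sum_add_distrib,
    Finset.sum_ite_eq' univ i, if_pos (mem_univ i), Finset.sum_filter, Finset.sum_filter]
  ring

/-- A sum over the indices after the first one. -/
theorem sum_gt_zero {M : Type*} [AddCommMonoid M] {n : ℕ} (f : Fin (n + 1) → M) :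
    ∑ l ∈ univ.filter (fun l : Fin (n + 1) => 0 < l), f l = ∑ l : Fin n, f l.succ := by
  rw [Finset.sum_filter, Fin.sum_univ_succ]
  simp

/-- A sum over the indices after `i.succ`. -/
theorem sum_gt_succ {M : Type*} [AddCommMonoid M] {n : ℕ} (f : Fin (n + 1) → M) (i : Fin n) :
    ∑ l ∈ univ.filter (fun l : Fin (n + 1) => i.succ < l), f l =
      ∑ l ∈ univ.filter (fun l : Fin n => i < l), f l.succ := by
  rw [Finset.sum_filter, Fin.sum_univ_succ, Finset.sum_filter]
  simp

/-- The iteration on the lower right block does not see the first row and column. -/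
theorem bird_submatrix {n : ℕ} (A : Matrix (Fin (n + 1)) (Fin (n + 1)) R) (k : ℕ) :
    ∀ i j : Fin n, bird A k i.succ j.succ = bird (A.submatrix Fin.succ Fin.succ) k i j := by
  induction k with
  | zero => intro i j; rfl
  | succ k ih =>
    intro i j
    rw [bird_succ_apply, bird_succ_apply, sum_gt_succ, sum_gt_succ]
    simp only [ih, Matrix.submatrix_apply]

/-- The generating function of the entries. -/
noncomputable def HH {n : ℕ} (A : Matrix (Fin n) (Fin n) R) (i j : Fin n) : PowerSeries R :=
  PowerSeries.mk fun k => bird A k i j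

theorem HH_eq {n : ℕ} (A : Matrix (Fin n) (Fin n) R) (i j : Fin n) :
    HH A i j = PowerSeries.C (A i j) + PowerSeries.X *
      (∑ l ∈ univ.filter (fun l => i < l), HH A i l * PowerSeries.C (A l j) -
      (∑ l ∈ univ.filter (fun l => i < l), HH A l l) * PowerSeries.C (A i j)) := by
  ext k
  cases k with
  | zero => simp [HH, bird]
  | succ k =>
    rw [map_add, PowerSeries.coeff_succ_X_mul, map_sub, map_sum, PowerSeries.coeff_mul_C, map_sum]
    simp only [PowerSeries.coeff_mul_C]
    simp only [HH, PowerSeries.coeff_mk, PowerSeries.coeff_C, bird_succ_apply]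
    simp

theorem HH_submatrix {n : ℕ} (A : Matrix (Fin (n + 1)) (Fin (n + 1)) R) (i j : Fin n) :
    HH A i.succ j.succ = HH (A.submatrix Fin.succ Fin.succ) i j := by
  ext k
  simp [HH, bird_submatrix]

/-- The matrix `1 - X A` over power series. -/
noncomputable def DD {n : ℕ} (A : Matrix (Fin n) (Fin n) R) :
    Matrix (Fin n) (Fin n) (PowerSeries R) :=
  1 - (PowerSeries.X : PowerSeries R) • A.map PowerSeries.C

theorem det_DD_eq {n : ℕ} (A : Matrix (Fin n) (Fin n) R) :
    (DD A).det = ((A.charpolyRev : Polynomial R) : PowerSeries R) := by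
  have h : DD A = (Polynomial.coeToPowerSeries.ringHom (R := R)).mapMatrix
      (1 - (Polynomial.X : Polynomial R) • A.map Polynomial.C) := by
    ext1 i j
    rw [RingHom.mapMatrix_apply, Matrix.map_apply, Matrix.sub_apply, Matrix.smul_apply,
      Matrix.map_apply, map_sub, smul_eq_mul, map_mul, Matrix.one_apply, DD, Matrix.sub_apply,
      Matrix.smul_apply, Matrix.map_apply, Matrix.one_apply, smul_eq_mul]
    simp only [Polynomial.coeToPowerSeries.ringHom_apply, Polynomial.coe_X, Polynomial.coe_C]
    by_cases hij : i = j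
    · simp only [hij, if_true, Polynomial.coe_one]
    · simp only [hij, if_false, Polynomial.coe_zero]
  rw [h, ← RingHom.map_det]
  rfl

theorem isUnit_det_DD {n : ℕ} (A : Matrix (Fin n) (Fin n) R) : IsUnit (DD A).det := by
  rw [det_DD_eq, PowerSeries.isUnit_iff_constantCoeff]
  rw [Polynomial.constantCoeff_coe, Polynomial.coeff_zero_eq_eval_zero, Matrix.eval_charpolyRev]
  exact isUnit_one

/-- The first row of the generating functions, when the determinants of the lower right block are
known. -/
theorem HH_zero {n : ℕ} (A : Matrix (Fin (n + 1)) (Fin (n + 1)) R)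
    (hB : (DD (A.submatrix Fin.succ Fin.succ)).det =
      1 - PowerSeries.X * ∑ l, HH (A.submatrix Fin.succ Fin.succ) l l) (j : Fin (n + 1)) :
    HH A 0 j = (DD (A.submatrix Fin.succ Fin.succ)).det * PowerSeries.C (A 0 j) +
      PowerSeries.X * ∑ l : Fin n, HH A 0 l.succ * PowerSeries.C (A l.succ j) := by
  conv_lhs => rw [HH_eq]
  rw [sum_gt_zero, sum_gt_zero, hB]
  simp only [HH_submatrix]
  ring

theorem DD_apply {n : ℕ} (A : Matrix (Fin n) (Fin n) R) (i j : Fin n) :
    DD A i j = (if i = j then 1 else 0) - PowerSeries.X * PowerSeries.C (A i j) := by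
  simp [DD, Matrix.one_apply]

theorem det_DD_succ {n : ℕ} (A : Matrix (Fin (n + 1)) (Fin (n + 1)) R)
    (hB : (DD (A.submatrix Fin.succ Fin.succ)).det =
      1 - PowerSeries.X * ∑ l, HH (A.submatrix Fin.succ Fin.succ) l l) :
    (DD A).det = (DD (A.submatrix Fin.succ Fin.succ)).det - PowerSeries.X * HH A 0 0 := by
  set d := (DD (A.submatrix Fin.succ Fin.succ)).det with hd
  have hu : IsUnit d := isUnit_det_DD _
  set c : Fin (n + 1) → PowerSeries R := Fin.cons d fun l => PowerSeries.X * HH A 0 l.succ with hc
  have h1 := Matrix.det_updateRow_sum (DD A) 0 c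
  have h0 : (∑ k, c k • DD A k) 0 = d - PowerSeries.X * HH A 0 0 := by
    rw [Finset.sum_apply, Fin.sum_univ_succ, HH_zero A hB 0]
    simp only [hc, Fin.cons_zero, Fin.cons_succ, Pi.smul_apply, smul_eq_mul, DD_apply]
    simp only [if_true, Fin.succ_ne_zero, if_false, mul_sub, mul_add, Finset.mul_sum]
    simp only [mul_zero, Finset.sum_sub_distrib, mul_one, Finset.sum_const_zero]
    rw [← hd, zero_sub, ← sub_sub, ← sub_eq_add_neg]
    congr 1
    · ring
    · exact Finset.sum_congr rfl fun l _ => by ring
  have hs : ∀ j : Fin n, (∑ k, c k • DD A k) j.succ = 0 := by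
    intro j
    have hz := HH_zero A hB j.succ
    rw [Finset.sum_apply, Fin.sum_univ_succ]
    simp only [hc, Fin.cons_zero, Fin.cons_succ, Pi.smul_apply, smul_eq_mul, DD_apply]
    simp only [(Fin.succ_ne_zero j).symm, if_false, Fin.succ_inj, mul_sub]
    simp only [mul_zero, Finset.sum_sub_distrib, mul_one, zero_sub, mul_ite,
      Finset.sum_ite_eq', Finset.mem_univ, if_true]
    rw [hz, ← hd, mul_add, Finset.mul_sum, Finset.mul_sum]
    have e : ∑ l : Fin n, PowerSeries.X * HH A 0 l.succ *
        (PowerSeries.X * PowerSeries.C (A l.succ j.succ)) =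
        ∑ l : Fin n, PowerSeries.X *
        (PowerSeries.X * (HH A 0 l.succ * PowerSeries.C (A l.succ j.succ))) :=
      Finset.sum_congr rfl fun l _ => by ring
    rw [e]
    ring
  have h2 : ((DD A).updateRow 0 (∑ k, c k • DD A k)).det = (d - PowerSeries.X * HH A 0 0) * d := by
    rw [Matrix.det_succ_row_zero, Fin.sum_univ_succ]
    have e1 : ((DD A).updateRow 0 (∑ k, c k • DD A k)).submatrix Fin.succ
        (Fin.succAbove 0) = DD (A.submatrix Fin.succ Fin.succ) := by
      ext1 i j
      rw [Matrix.submatrix_apply, Matrix.updateRow_ne (Fin.succ_ne_zero i), Fin.succAbove_zero,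
        DD_apply, DD_apply, Matrix.submatrix_apply]
      simp only [Fin.succ_inj]
    rw [e1, Matrix.updateRow_self, h0, Finset.sum_eq_zero fun j _ => by rw [hs j]; ring]
    simp [← hd]
  rw [h2] at h1
  have h3 : c 0 = d := rfl
  rw [h3, smul_eq_mul, mul_comm] at h1
  exact (hu.mul_left_cancel h1).symm

/-- The determinant of `1 - X A` in terms of the iteration. -/
theorem det_DD {n : ℕ} (A : Matrix (Fin n) (Fin n) R) :
    (DD A).det = 1 - PowerSeries.X * ∑ l, HH A l l := by
  induction n with
  | zero => simp
  | succ n ih =>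
    rw [det_DD_succ A (ih _), ih, Fin.sum_univ_succ]
    simp only [HH_submatrix]
    ring

end Bird

/-- **Bird's algorithm is correct.** -/
theorem bird_det {n : ℕ} (A : Matrix (Fin (n + 1)) (Fin (n + 1)) R) :
    bird A n 0 0 = (-1) ^ n * A.det := by
  nontriviality R
  have h := Bird.det_DD_succ A (Bird.det_DD _)
  have h1 := congrArg (PowerSeries.coeff (n + 1)) h
  rw [map_sub, PowerSeries.coeff_succ_X_mul, Bird.det_DD_eq, Bird.det_DD_eq,
    Polynomial.coeff_coe, Polynomial.coeff_coe, ← Matrix.reverse_charpoly,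
    ← Matrix.reverse_charpoly] at h1
  have e1 : (A.charpoly.reverse).coeff (n + 1) = (-1) ^ (n + 1) * A.det := by
    have hd : A.charpoly.natDegree = n + 1 := by
      rw [Matrix.charpoly_natDegree_eq_dim, Fintype.card_fin]
    rw [Polynomial.coeff_reverse, hd, Polynomial.revAt_le le_rfl, Nat.sub_self]
    rw [Matrix.det_eq_sign_charpoly_coeff A, Fintype.card_fin, ← mul_assoc, ← pow_add,
      ← two_mul, pow_mul, neg_one_sq, one_pow, one_mul]
  have e2 : ((A.submatrix Fin.succ Fin.succ).charpoly.reverse).coeff (n + 1) = 0 := by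
    apply Polynomial.coeff_eq_zero_of_natDegree_lt
    refine lt_of_le_of_lt (Polynomial.reverse_natDegree_le _) ?_
    rw [Matrix.charpoly_natDegree_eq_dim, Fintype.card_fin]
    exact Nat.lt_succ_self n
  have e3 : PowerSeries.coeff n (Bird.HH A 0 0) = bird A n 0 0 := PowerSeries.coeff_mk _ _
  rw [e1, e2, e3, zero_sub] at h1
  have h2 : bird A n 0 0 = -((-1) ^ (n + 1) * A.det) := by rw [h1, neg_neg]
  rw [h2, pow_succ]
  ring

end Pool.Agent.Lib.MP_634427_lc.LT
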