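import Pool.Agent.Lib.MP_634427_lc.LT.Bird
import Pool.Agent.Lib.MP_634427_lc.LT.Bin

/-!
# The determinant of an integer matrix in polynomial time

Bird's iteration, on lists of rows of binary integers.
-/

namespace Pool.Agent.Lib.MP_634427_lc.LT

/-- An entry of the next iterate (with the sign changed). -/
def dEntry (n : ℕ) (A X : List (List Num)) (i j : ℕ) : Num :=
  nadd (nmul (nsum ((List.range n).map fun l => if i < l then entry X l l else ([], [])))
    (entry A i j))
    (nneg (nsum ((List.range n).map fun l =>
      if i < l then nmul (entry X i l) (entry A l j) else ([], []))))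

/-- One step of the iteration. -/
def dStep (n : ℕ) (A X : List (List Num)) : List (List Num) :=
  (List.range n).map fun i => (List.range n).map fun j => dEntry n A X i j

/-- The determinant of the matrix given by the first `n` rows and columns. -/
def detL (n : ℕ) (A : List (List Num)) : Num :=
  if n = 0 then ([true], []) else entry ((dStep n A)^[n - 1] A) 0 0

theorem entry_map_range (n : ℕ) (f : ℕ → ℕ → Num) {i j : ℕ} (hi : i < n) (hj : j < n) :
    entry ((List.range n).map fun i => (List.range n).map fun j => f i j) i j = f i j := by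
  unfold entry
  rw [List.getD_eq_getElem?_getD, List.getD_eq_getElem?_getD]
  simp [hi, hj]

theorem list_sum_range (n : ℕ) (f : ℕ → ℤ) :
    ((List.range n).map f).sum = ∑ l ∈ Finset.range n, f l := by
  induction n with
  | zero => simp
  | succ n ih => rw [List.range_succ, List.map_append, List.sum_append, ih, Finset.sum_range_succ]; simp

theorem nval_nsum_ite (n i : ℕ) (f : ℕ → Num) :
    nval (nsum ((List.range n).map fun l => if i < l then f l else ([], []))) =
      ∑ l : Fin n, if i < (l : ℕ) then nval (f l) else 0 := by
  rw [nval_nsum, List.map_map, list_sum_range, Finset.sum_range]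
  refine Finset.sum_congr rfl fun l _ => ?_
  simp only [Function.comp_apply]
  split_ifs
  · rfl
  · rfl

theorem nval_dEntry (n : ℕ) (A X : List (List Num)) (i j : Fin n) :
    nval (dEntry n A X i j) =
      (∑ l ∈ Finset.univ.filter (fun l => i < l), mat n X l l) * mat n A i j -
      ∑ l ∈ Finset.univ.filter (fun l => i < l), mat n X i l * mat n A l j := by
  rw [dEntry, nval_nadd, nval_nmul, nval_nneg, nval_nsum_ite, nval_nsum_ite, Finset.sum_filter,
    Finset.sum_filter, ← sub_eq_add_neg]
  simp only [nval_nmul]
  rfl

theorem mat_dStep (n : ℕ) (A X : List (List Num)) (i j : Fin n) :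
    mat n (dStep n A X) i j =
      (∑ l ∈ Finset.univ.filter (fun l => i < l), mat n X l l) * mat n A i j -
      ∑ l ∈ Finset.univ.filter (fun l => i < l), mat n X i l * mat n A l j := by
  rw [← nval_dEntry]
  unfold mat dStep
  rw [entry_map_range n (fun i j => dEntry n A X i j) i.2 j.2]

theorem mat_iterate (n : ℕ) (A : List (List Num)) (k : ℕ) (i j : Fin n) :
    mat n ((dStep n A)^[k] A) i j = (-1) ^ k * bird (mat n A) k i j := by
  induction k generalizing i j with
  | zero => simp [bird]
  | succ k ih =>
    rw [Function.iterate_succ_apply', mat_dStep, Bird.bird_succ_apply]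
    simp only [ih]
    simp only [mul_assoc, ← Finset.mul_sum]
    rw [pow_succ]
    ring

/-- The value of `detL`. -/
theorem nval_detL (n : ℕ) (A : List (List Num)) : nval (detL n A) = (mat n A).det := by
  cases n with
  | zero => simp [detL, nval, bval]
  | succ m =>
    have h := mat_iterate (m + 1) A m 0 0
    rw [bird_det, ← mul_assoc, ← mul_pow] at h
    rw [detL, if_neg (Nat.succ_ne_zero m), Nat.add_sub_cancel]
    have h2 : ((-1 : ℤ) * -1) ^ m = 1 := by norm_num
    rw [h2, one_mul] at h
    exact h

/-! ### Sizes -/

theorem sz_getD_le {α : Type} [Enc α] (l : List α) (i : ℕ) (d : α) :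
    sz (l.getD i d) ≤ max (sz l) (sz d) := by
  rw [List.getD_eq_getElem?_getD]
  rcases h : l[i]? with _ | a
  · exact le_max_right _ _
  · exact (sz_mem_le (List.mem_of_getElem? h)).trans (le_max_left _ _)

theorem wid_entry_le (A : List (List Num)) (i j : ℕ) : wid (entry A i j) ≤ sz A := by
  unfold entry
  rw [List.getD_eq_getElem?_getD (l := A.getD i [])]
  rcases h : (A.getD i [])[j]? with _ | a
  · exact Nat.zero_le _
  · refine (wid_le_sz _).trans ((sz_mem_le (List.mem_of_getElem? h)).trans ?_)
    refine (sz_getD_le A i []).trans ?_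
    simp

theorem sz_map_le {α β : Type} [Enc β] (l : List α) (f : α → β) (B : ℕ)
    (h : ∀ a ∈ l, sz (f a) ≤ B) : sz (l.map f) ≤ l.length * (B + 1) := by
  induction l with
  | nil => simp
  | cons a l ih =>
    have h1 := h a List.mem_cons_self
    have h2 := ih fun b hb => h b (List.mem_cons_of_mem a hb)
    rw [List.map_cons, sz_cons, List.length_cons, Nat.succ_mul]
    omega

theorem wid_dEntry_le {n a w : ℕ} {A X : List (List Num)} (hA : ∀ i j, wid (entry A i j) ≤ a)
    (hX : ∀ i j, wid (entry X i j) ≤ w) (i j : ℕ) : wid (dEntry n A X i j) ≤ w + a + n + 2 := by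
  have h1 : wid (nsum ((List.range n).map fun l => if i < l then entry X l l else ([], []))) ≤
      w + n := by
    have := wid_nsum_le (w := w)
      (l := (List.range n).map fun l => if i < l then entry X l l else ([], [])) (by
        intro b hb
        obtain ⟨l, _, rfl⟩ := List.mem_map.1 hb
        split_ifs
        · exact hX _ _
        · exact Nat.zero_le _)
    rwa [List.length_map, List.length_range] at this
  have h2 : wid (nsum ((List.range n).map fun l =>
      if i < l then nmul (entry X i l) (entry A l j) else ([], []))) ≤ w + a + 1 + n := by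
    have := wid_nsum_le (w := w + a + 1) (l := (List.range n).map fun l =>
      if i < l then nmul (entry X i l) (entry A l j) else ([], [])) (by
        intro b hb
        obtain ⟨l, _, rfl⟩ := List.mem_map.1 hb
        split_ifs
        · exact (wid_nmul_le _ _).trans (by have := hX i l; have := hA l j; omega)
        · exact Nat.zero_le _)
    rwa [List.length_map, List.length_range] at this
  refine (wid_nadd_le _ _).trans ?_
  have h3 := wid_nmul_le
    (nsum ((List.range n).map fun l => if i < l then entry X l l else ([], []))) (entry A i j)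
  have h4 := hA i j
  rw [wid_nneg]
  have h5 : max (wid (nmul (nsum ((List.range n).map fun l =>
      if i < l then entry X l l else ([], []))) (entry A i j)))
      (wid (nsum ((List.range n).map fun l =>
      if i < l then nmul (entry X i l) (entry A l j) else ([], [])))) ≤ w + a + n + 1 :=
    max_le (by omega) (by omega)
  omega

theorem wid_entry_dStep_le {n a w : ℕ} {A X : List (List Num)} (hA : ∀ i j, wid (entry A i j) ≤ a)
    (hX : ∀ i j, wid (entry X i j) ≤ w) (i j : ℕ) :
    wid (entry (dStep n A X) i j) ≤ w + a + n + 2 := by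
  by_cases hi : i < n
  · by_cases hj : j < n
    · unfold dStep
      rw [entry_map_range n (fun i j => dEntry n A X i j) hi hj]
      exact wid_dEntry_le hA hX i j
    · unfold entry dStep
      rw [List.getD_eq_getElem?_getD, List.getD_eq_getElem?_getD]
      simp [hi, hj, wid]
  · unfold entry dStep
    rw [List.getD_eq_getElem?_getD, List.getD_eq_getElem?_getD]
    simp [hi, wid]

theorem wid_iterate_le {n a : ℕ} {A : List (List Num)} (hA : ∀ i j, wid (entry A i j) ≤ a)
    (k : ℕ) : ∀ i j, wid (entry ((dStep n A)^[k] A) i j) ≤ a + k * (a + n + 2) := by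
  induction k with
  | zero => intro i j; simpa using hA i j
  | succ k ih =>
    intro i j
    rw [Function.iterate_succ_apply']
    refine (wid_entry_dStep_le hA ih i j).trans ?_
    rw [Nat.succ_mul]
    omega

theorem sz_dStep_le {n a w : ℕ} {A X : List (List Num)} (hA : ∀ i j, wid (entry A i j) ≤ a)
    (hX : ∀ i j, wid (entry X i j) ≤ w) :
    sz (dStep n A X) ≤ n * (n * (4 * (w + a + n + 2) + 2) + 1) := by
  unfold dStep
  refine (sz_map_le _ _ (n * (4 * (w + a + n + 2) + 2)) fun i _ => ?_).trans
    (by rw [List.length_range])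
  refine (sz_map_le _ _ (4 * (w + a + n + 2) + 1) fun j _ => ?_).trans
    (by rw [List.length_range])
  refine (sz_num_le _).trans ?_
  have := wid_dEntry_le (n := n) hA hX i j
  omega

end Pool.Agent.Lib.MP_634427_lc.LT

/-! ### Polynomial time -/

namespace Pool.Agent.Lib.MP_634427_lc.PT

variable {γ : Type} [Enc γ]

theorem entry {A : γ → List (List LT.Num)} {i j : γ → ℕ} (hA : PT A) (hi : PT i) (hj : PT j) :
    PT fun c => LT.entry (A c) (i c) (j c) :=
  getLD hj (getLD hi hA (const [])) (const ([], []))

theorem dEntry {n : γ → ℕ} {A X : γ → List (List LT.Num)} {i j : γ → ℕ} (hn : PT n) (hA : PT A)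
    (hX : PT X) (hi : PT i) (hj : PT j) :
    PT fun c => LT.dEntry (n c) (A c) (X c) (i c) (j c) := by
  have h1 : PT fun c => (List.range (n c)).map fun l =>
      if i c < l then LT.entry (X c) l l else ([], []) :=
    map (f := fun c l => if i c < l then LT.entry (X c) l l else ([], [])) (range hn)
      (ite (p := fun p : γ × ℕ => i p.1 < p.2) (lt (hi.comp fst) snd)
        (entry (hX.comp fst) snd snd) (const _))
  have h2 : PT fun c => (List.range (n c)).map fun l =>
      if i c < l then LT.nmul (LT.entry (X c) (i c) l) (LT.entry (A c) l (j c)) else ([], []) :=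
    map (f := fun c l => if i c < l then
        LT.nmul (LT.entry (X c) (i c) l) (LT.entry (A c) l (j c)) else ([], [])) (range hn)
      (ite (p := fun p : γ × ℕ => i p.1 < p.2) (lt (hi.comp fst) snd)
        (nmul (entry (hX.comp fst) (hi.comp fst) snd) (entry (hA.comp fst) snd (hj.comp fst)))
        (const _))
  exact nadd (nmul (nsum h1) (entry hA hi hj)) (nneg (nsum h2))

theorem dStep {n : γ → ℕ} {A X : γ → List (List LT.Num)} (hn : PT n) (hA : PT A) (hX : PT X) :
    PT fun c => LT.dStep (n c) (A c) (X c) := by
  have h1 : PT fun p : γ × ℕ => (List.range (n p.1)).map fun j =>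
      LT.dEntry (n p.1) (A p.1) (X p.1) p.2 j :=
    map (f := fun (p : γ × ℕ) j => LT.dEntry (n p.1) (A p.1) (X p.1) p.2 j)
      (range (hn.comp fst))
      (dEntry (hn.comp (fst' fst)) (hA.comp (fst' fst)) (hX.comp (fst' fst)) (snd' fst) snd)
  exact map (f := fun c i => (List.range (n c)).map fun j => LT.dEntry (n c) (A c) (X c) i j)
    (range hn) h1

theorem detL_pair : PT fun p : ℕ × List (List LT.Num) => LT.detL p.1 p.2 := by
  have hit : PT fun p : ℕ × List (List LT.Num) => (LT.dStep p.1 p.2)^[p.1 - 1] p.2 := by
    refine iterate (f := fun (p : ℕ × List (List LT.Num)) X => LT.dStep p.1 p.2 X)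
      (sub fst (const 1)) snd (dStep (fst' fst) (snd' fst) snd) ⟨8, fun p i hi => ?_⟩
    rcases p with ⟨n, A⟩
    simp only at hi ⊢
    have hA : ∀ i j, LT.wid (LT.entry A i j) ≤ sz A := LT.wid_entry_le A
    rcases i with _ | i
    · simp only [Function.iterate_zero, id_eq, sz_pair, sz_nat]
      calc sz A ≤ n + sz A + 1 + 2 := by omega
        _ = (n + sz A + 1 + 2) ^ 1 := (pow_one _).symm
        _ ≤ _ := Nat.pow_le_pow_right (by omega) (by norm_num)
    · rw [Function.iterate_succ_apply']
      refine (LT.sz_dStep_le hA (LT.wid_iterate_le hA i)).trans ?_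
      simp only [sz_pair, sz_nat]
      set M := n + sz A + 1 + 2 with hM
      have hn : n ≤ M := by omega
      have hi' : i ≤ M := by omega
      have hM2 : 3 ≤ M := by omega
      have h1 : sz A + n + 2 ≤ M := by omega
      have hMM : M ≤ M * M := Nat.le_mul_of_pos_left M (by omega)
      have h2 : sz A + i * (sz A + n + 2) + sz A + n + 2 ≤ 3 * (M * M) := by
        have h3 := Nat.mul_le_mul hi' h1
        omega
      have h4 : 4 * (sz A + i * (sz A + n + 2) + sz A + n + 2) + 2 ≤ 14 * (M * M) := by omega
      have h5 : n * (4 * (sz A + i * (sz A + n + 2) + sz A + n + 2) + 2) + 1 ≤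
          15 * (M * (M * M)) := by
        have h6 := Nat.mul_le_mul hn h4
        have h7 : M * (14 * (M * M)) = 14 * (M * (M * M)) := by ring
        have h8 : 0 < M * (M * M) := by positivity
        omega
      calc n * (n * (4 * (sz A + i * (sz A + n + 2) + sz A + n + 2) + 2) + 1)
          ≤ M * (15 * (M * (M * M))) := Nat.mul_le_mul hn h5
        _ = 15 * M ^ 4 := by ring
        _ ≤ M ^ 4 * M ^ 4 := by
          refine Nat.mul_le_mul_right _ ?_
          calc 15 ≤ 3 ^ 4 := by norm_num
            _ ≤ M ^ 4 := Nat.pow_le_pow_left hM2 4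
        _ = M ^ 8 := by ring
  have h0 : PT fun p : ℕ × List (List LT.Num) => LT.entry ((LT.dStep p.1 p.2)^[p.1 - 1] p.2) 0 0 :=
    entry hit (const 0) (const 0)
  exact ite (p := fun p : ℕ × List (List LT.Num) => p.1 = 0) (isZero fst) (const _) h0

/-- The determinant is computed in polynomial time. -/
theorem detL {n : γ → ℕ} {A : γ → List (List LT.Num)} (hn : PT n) (hA : PT A) :
    PT fun c => LT.detL (n c) (A c) :=
  comp₂ detL_pair hn hA

end Pool.Agent.Lib.MP_634427_lc.PT
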