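import Mathlib
import Pool.Agent.Lib.MP_634427_lc.Data

/-!
# Polynomial fingerprints of words over a prime field
-/

open Polynomial

namespace Pool.Agent.Lib.MP_634427_lc.LT

/-- The fingerprint of a word: the polynomial with coefficients the letters of the word and leading
coefficient one, evaluated at `x` modulo `p`. -/
def hsh (p x : ℕ) : Word → ℕ
  | [] => 1 % p
  | b :: w => ((if b then 1 else 0) + x * hsh p x w) % p

theorem hsh_lt {p x : ℕ} (hp : 0 < p) (w : Word) : hsh p x w < p := by
  cases w with
  | nil => exact Nat.mod_lt _ hp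
  | cons b w => exact Nat.mod_lt _ hp

/-- The polynomial of a word. -/
noncomputable def hpol (p : ℕ) : Word → (ZMod p)[X]
  | [] => 1
  | b :: w => C (if b then 1 else 0) + X * hpol p w

theorem eval_hpol (p x : ℕ) (w : Word) :
    (hpol p w).eval (x : ZMod p) = (hsh p x w : ZMod p) := by
  induction w with
  | nil => simp [hpol, hsh]
  | cons b w ih =>
    simp only [hpol, hsh, eval_add, eval_C, eval_mul, eval_X, ih, ZMod.natCast_mod, Nat.cast_add,
      Nat.cast_mul]
    cases b <;> simp

theorem natDegree_hpol {p : ℕ} [Fact p.Prime] (w : Word) :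
    (hpol p w).Monic ∧ (hpol p w).natDegree = w.length := by
  induction w with
  | nil => simp [hpol]
  | cons b w ih =>
    obtain ⟨h1, h2⟩ := ih
    have h3 : (X * hpol p w).Monic := monic_X.mul h1
    have h4 : (X * hpol p w).natDegree = w.length + 1 := by
      rw [natDegree_X_mul h1.ne_zero, h2]
    have h5 : (C (if b then (1 : ZMod p) else 0)).degree < (X * hpol p w).degree := by
      refine lt_of_le_of_lt degree_C_le ?_
      rw [degree_eq_natDegree h3.ne_zero, h4]
      exact_mod_cast Nat.succ_pos _
    refine ⟨?_, ?_⟩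
    · exact h3.add_of_right h5
    · show (C (if b then (1 : ZMod p) else 0) + X * hpol p w).natDegree = w.length + 1
      rw [natDegree_add_eq_right_of_degree_lt h5, h4]

theorem hpol_injective {p : ℕ} [Fact p.Prime] : Function.Injective (hpol p) := by
  intro w
  induction w with
  | nil =>
    intro w' h
    have h1 := (natDegree_hpol (p := p) w').2
    rw [← h] at h1
    simp only [hpol, natDegree_one] at h1
    exact (List.length_eq_zero_iff.1 h1.symm).symm
  | cons b w ih =>
    intro w' h
    cases w' with
    | nil =>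
      have h1 := (natDegree_hpol (p := p) (b :: w)).2
      rw [h] at h1
      simp [hpol] at h1
    | cons b' w' =>
      simp only [hpol] at h
      have h0 := congrArg (fun q => q.coeff 0) h
      simp only [coeff_add, coeff_C_zero, coeff_X_mul_zero, add_zero] at h0
      have hb : b = b' := by
        cases b <;> cases b' <;> simp_all
      subst hb
      have h2 : X * hpol p w = X * hpol p w' := add_left_cancel h
      rw [ih (mul_left_cancel₀ X_ne_zero h2)]

theorem card_hsh_eq_le {p : ℕ} (hp : p.Prime) {w w' : Word} {ℓ : ℕ} (hw : w.length ≤ ℓ)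
    (hw' : w'.length ≤ ℓ) (hne : w ≠ w') :
    ((Finset.range p).filter fun x => hsh p x w = hsh p x w').card ≤ ℓ := by
  classical
  have : Fact p.Prime := ⟨hp⟩
  set q : (ZMod p)[X] := hpol p w - hpol p w' with hq
  have hq0 : q ≠ 0 := sub_ne_zero.2 fun h => hne (hpol_injective h)
  have h1 : ((Finset.range p).filter fun x => hsh p x w = hsh p x w').card ≤
      q.roots.toFinset.card := by
    refine Finset.card_le_card_of_injOn (fun x => (x : ZMod p)) ?_ ?_
    · intro x hx
      have hx' := (Finset.mem_filter.1 (Finset.mem_coe.1 hx)).2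
      simp only [Finset.mem_coe, Multiset.mem_toFinset]
      rw [mem_roots hq0, IsRoot, hq, eval_sub, eval_hpol, eval_hpol, hx', sub_self]
    · intro x hx y hy hxy
      have hx' := Finset.mem_range.1 (Finset.mem_filter.1 (Finset.mem_coe.1 hx)).1
      have hy' := Finset.mem_range.1 (Finset.mem_filter.1 (Finset.mem_coe.1 hy)).1
      have := (ZMod.natCast_eq_natCast_iff' x y p).1 hxy
      rwa [Nat.mod_eq_of_lt hx', Nat.mod_eq_of_lt hy'] at this
  refine h1.trans ((Multiset.toFinset_card_le _).trans ((card_roots' q).trans ?_))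
  refine (natDegree_sub_le _ _).trans ?_
  rw [(natDegree_hpol w).2, (natDegree_hpol w').2]
  exact max_le hw hw'

/-! ### The next prime -/

/-- Primality by trial division. -/
def isPrimeB (n : ℕ) : Bool :=
  decide (2 ≤ n) && (List.range n).all fun m => decide (m < 2) || !decide (n % m = 0)

theorem isPrimeB_iff (n : ℕ) : isPrimeB n = true ↔ n.Prime := by
  rw [isPrimeB, Nat.prime_def]
  simp only [Bool.and_eq_true, decide_eq_true_eq, List.all_eq_true, List.mem_range,
    Bool.or_eq_true, Bool.not_eq_true', decide_eq_false_iff_not]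
  refine and_congr_right fun h2 => ⟨fun h m hm => ?_, fun h m hm => ?_⟩
  · rcases (Nat.le_of_dvd (by omega) hm).eq_or_lt with h3 | h3
    · exact Or.inr h3
    · rcases h m h3 with h4 | h4
      · have : m ≠ 0 := by rintro rfl; rw [zero_dvd_iff] at hm; omega
        exact Or.inl (by omega)
      · exact absurd (Nat.mod_eq_zero_of_dvd hm) h4
  · by_cases h4 : m < 2
    · exact Or.inl h4
    · refine Or.inr fun h5 => ?_
      rcases h m (Nat.dvd_of_mod_eq_zero h5) with h6 | h6 <;> omega

/-- The smallest prime larger than `N`. -/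
def nextPrime (N : ℕ) : ℕ :=
  (N + 1) + ((List.range (N + 2)).find? fun i => isPrimeB ((N + 1) + i)).getD 0

theorem nextPrime_spec (N : ℕ) : ∃ i < N + 2, nextPrime N = (N + 1) + i ∧ ((N + 1) + i).Prime := by
  have hex : ∃ i < N + 2, ((N + 1) + i).Prime := by
    rcases Nat.eq_zero_or_pos N with rfl | hN
    · exact ⟨1, by omega, Nat.prime_two⟩
    · obtain ⟨p, hp, h1, h2⟩ := Nat.exists_prime_lt_and_le_two_mul N (by omega)
      exact ⟨p - (N + 1), by omega, by rwa [Nat.add_sub_cancel' (by omega)]⟩
  rcases h : (List.range (N + 2)).find? (fun i => isPrimeB ((N + 1) + i)) with _ | i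
  · exfalso
    obtain ⟨i, hi, hi'⟩ := hex
    have := List.find?_eq_none.1 h i (List.mem_range.2 hi)
    exact this ((isPrimeB_iff _).2 hi')
  · refine ⟨i, List.mem_range.1 (List.mem_of_find?_eq_some h), ?_, ?_⟩
    · rw [nextPrime, h, Option.getD_some]
    · exact (isPrimeB_iff _).1 (List.find?_some (p := fun i => isPrimeB ((N + 1) + i)) h)

theorem nextPrime_prime (N : ℕ) : (nextPrime N).Prime := by
  obtain ⟨i, -, h1, h2⟩ := nextPrime_spec N
  rwa [h1]

theorem lt_nextPrime (N : ℕ) : N < nextPrime N := by
  rw [nextPrime]; omega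

theorem nextPrime_le (N : ℕ) : nextPrime N ≤ 2 * N + 2 := by
  obtain ⟨i, h, h1, -⟩ := nextPrime_spec N
  omega

theorem nextPrime_pos (N : ℕ) : 0 < nextPrime N := (nextPrime_prime N).pos

/-! ### Iterated subtraction -/

/-- One step of the computation of a remainder. -/
def modStep (b r : ℕ) : ℕ := if b ≤ r then r - b else r

theorem modStep_iterate (b : ℕ) : ∀ i r, r ≤ i → (modStep b)^[i] r = r % b := by
  intro i
  induction i with
  | zero =>
    intro r hr
    obtain rfl : r = 0 := by omega
    simp
  | succ i ih =>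
    intro r hr
    rw [Function.iterate_succ_apply]
    rcases Nat.eq_zero_or_pos b with rfl | hb
    · have h0 : modStep 0 r = r := by simp [modStep]
      have h1 : ∀ j, (modStep 0)^[j] r = r := by
        intro j
        induction j with
        | zero => rfl
        | succ j ihj => rw [Function.iterate_succ_apply, h0, ihj]
      rw [h0, h1, Nat.mod_zero]
    · by_cases h : b ≤ r
      · have h0 : modStep b r = r - b := by simp [modStep, h]
        rw [h0, ih _ (by omega)]
        exact (Nat.mod_eq_sub_mod h).symm
      · have h0 : modStep b r = r := by simp [modStep, h]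
        have h1 : ∀ j, (modStep b)^[j] r = r := by
          intro j
          induction j with
          | zero => rfl
          | succ j ihj => rw [Function.iterate_succ_apply, h0, ihj]
        rw [h0, h1, Nat.mod_eq_of_lt (by omega)]

theorem modStep_iterate_le (b : ℕ) : ∀ i r, (modStep b)^[i] r ≤ r := by
  intro i
  induction i with
  | zero => intro r; exact le_rfl
  | succ i ih =>
    intro r
    rw [Function.iterate_succ_apply]
    refine (ih _).trans ?_
    unfold modStep
    split_ifs <;> omega

theorem hsh_eq_foldr (p x : ℕ) (w : Word) :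
    hsh p x w = w.foldr (fun b r => ((bif b then 1 else 0) + x * r) % p) (1 % p) := by
  induction w with
  | nil => rfl
  | cons b w ih =>
    rw [hsh, ih]
    cases b <;> rfl

end Pool.Agent.Lib.MP_634427_lc.LT

namespace Pool.Agent.Lib.MP_634427_lc.PT

variable {γ : Type} [Enc γ]

theorem mod {f g : γ → ℕ} (hf : PT f) (hg : PT g) : PT fun c => f c % g c := by
  have h := iterate (f := fun (c : γ) (r : ℕ) => LT.modStep (g c) r) hf hf
    (ite (p := fun q : γ × ℕ => g q.1 ≤ q.2) (le (hg.comp fst) snd) (sub snd (hg.comp fst)) snd)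
    (by
      obtain ⟨k, hk⟩ := hf.size_le
      refine ⟨k, fun c i _ => ?_⟩
      have h1 := LT.modStep_iterate_le (g c) i (f c)
      have h2 := hk c
      rw [sz_nat] at h2 ⊢
      exact h1.trans h2)
  exact h.of_eq fun c => LT.modStep_iterate (g c) (f c) (f c) le_rfl

theorem hsh {p x : γ → ℕ} {w : γ → Word} (hp : PT p) (hx : PT x) (hw : PT w)
    (hpos : ∀ c, 0 < p c) : PT fun c => LT.hsh (p c) (x c) (w c) := by
  have h := foldr_bdd (l := w) (s := fun c => 1 % p c)
    (f := fun c (b : Bool) (r : ℕ) => ((bif b then 1 else 0) + x c * r) % p c) hw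
    (mod (const 1) hp)
    (mod (add (cond (fst' snd) (const 1) (const 0)) (mul (hx.comp fst) (snd' snd)))
      (hp.comp fst)) (by
      obtain ⟨k, hk⟩ := hp.size_le
      refine ⟨k, fun c a r _ => ?_⟩
      have h1 : ((bif a then 1 else 0) + x c * r) % p c < p c := Nat.mod_lt _ (hpos c)
      have h2 := hk c
      rw [sz_nat] at h2 ⊢
      exact h1.le.trans h2)
  exact h.of_eq fun c => (LT.hsh_eq_foldr _ _ _).symm

theorem isPrimeB {f : γ → ℕ} (hf : PT f) : PT fun c => LT.isPrimeB (f c) :=
  and (le (const 2) hf) (all (p := fun c (m : ℕ) => decide (m < 2) || !decide (f c % m = 0))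
    (range hf) (or (lt snd (const 2)) (not (isZero (mod (hf.comp fst) snd)))))

theorem nextPrime {f : γ → ℕ} (hf : PT f) : PT fun c => LT.nextPrime (f c) :=
  add (succ hf) (getD (find? (p := fun c (i : ℕ) => LT.isPrimeB ((f c + 1) + i))
    (range (succ (succ hf))) (isPrimeB (add (succ (hf.comp fst)) snd))) (const 0))

end Pool.Agent.Lib.MP_634427_lc.PT
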