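import Mathlib

/-!
# Radial isotropic position: definitions
-/

namespace Pool.Agent.Lib.MP_634427_lc.LT

open Finset

/-- The `j`-th vector of item `g`; the vectors of one item are linearly independent. -/
def vv (a : ℕ → ℕ → ℤ) (g j k : ℕ) : ℤ := 2 * a g k + if k = j then 1 else 0

/-- The moment matrix of the vectors with weights `2 ^ (K - t g j)`. -/
def PP (a : ℕ → ℕ → ℤ) (n m K : ℕ) (t : ℕ → ℕ → ℕ) : Matrix (Fin m) (Fin m) ℤ := fun k l =>
  ∑ g ∈ range n, ∑ j ∈ range m, 4 ^ (K - t g j) * vv a g j k * vv a g j l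

/-- Halve the weight of the `j`-th vector of item `g`. -/
def bump (t : ℕ → ℕ → ℕ) (g j : ℕ) : ℕ → ℕ → ℕ := fun g' j' =>
  if g' = g ∧ j' = j then t g j + 1 else t g' j'

/-- The value of the functional `w` at the weighted vector. -/
def yy (a : ℕ → ℕ → ℤ) (m K : ℕ) (t : ℕ → ℕ → ℕ) (w : ℕ → ℤ) (g j : ℕ) : ℤ :=
  2 ^ (K - t g j) * ∑ k ∈ range m, w k * vv a g j k

/-- Sum of the weighted vectors with signs. -/
def zz (a : ℕ → ℕ → ℤ) (n m K : ℕ) (t : ℕ → ℕ → ℕ) (sg : ℕ → ℤ) : Fin m → ℤ := fun k =>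
  ∑ g ∈ range n, ∑ j ∈ range m, sg g * 2 ^ (K - t g j) * vv a g j k

/-- The matrix of the test. -/
def TT (a : ℕ → ℕ → ℤ) (n m K : ℕ) (t : ℕ → ℕ → ℕ) (sg : ℕ → ℤ) : Matrix (Fin m) (Fin m) ℤ :=
  fun k l => (n : ℤ) * PP a n m K t k l - 24 * zz a n m K t sg k * zz a n m K t sg l

end Pool.Agent.Lib.MP_634427_lc.LT
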