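import Mathlib
import Pool.Agent.Lib.MP_634427_lc.LT.IsoDefs

/-!
# Radial isotropic position: the potential function
-/

set_option autoImplicit false

namespace Pool.Agent.Lib.MP_634427_lc.LT

open Finset Matrix

/-! ### Rank one updates of positive definite matrices -/

theorem pot_det_update {m : ℕ} {A : Matrix (Fin m) (Fin m) ℝ} (hA : IsUnit A.det) (c : ℝ)
    (u : Fin m → ℝ) :
    (A + c • vecMulVec u u).det = A.det * (1 + c * (u ⬝ᵥ (A⁻¹ *ᵥ u))) := by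
  have h1 : c • vecMulVec u u = replicateCol Unit (c • u) * replicateRow Unit u := by
    rw [← vecMulVec_eq, smul_vecMulVec]
  rw [h1, det_add_replicateCol_mul_replicateRow hA]
  congr 1
  rw [det_unique (1 + replicateRow Unit u * A⁻¹ * replicateCol Unit (c • u)), Matrix.add_apply,
    Matrix.one_apply_eq, Matrix.mul_assoc]
  congr 1
  have h2 : A⁻¹ * replicateCol Unit (c • u) = replicateCol Unit (A⁻¹ *ᵥ (c • u)) := by
    rw [replicateCol_mulVec]
  rw [h2, replicateRow_mul_replicateCol_apply, mulVec_smul, dotProduct_smul, smul_eq_mul]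

theorem pot_posDef_sum {m : ℕ} {A : Matrix (Fin m) (Fin m) ℝ} (hA : A.PosDef) (h0 : 0 < A.det)
    {ι : Type*} (S : Finset ι) (u : ι → Fin m → ℝ) :
    (A + ∑ i ∈ S, vecMulVec (u i) (u i)).PosDef ∧
      A.det ≤ (A + ∑ i ∈ S, vecMulVec (u i) (u i)).det := by
  classical
  induction S using Finset.induction_on with
  | empty => simp [hA]
  | insert i S hi ih =>
    obtain ⟨h1, h2⟩ := ih
    have h3 : A + ∑ i ∈ insert i S, vecMulVec (u i) (u i) =
        (A + ∑ i ∈ S, vecMulVec (u i) (u i)) + (1 : ℝ) • vecMulVec (u i) (u i) := by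
      rw [Finset.sum_insert hi, one_smul]
      abel
    have h4 : (vecMulVec (u i) (u i)).PosSemidef := by
      have := posSemidef_vecMulVec_self_star (u i)
      simpa using this
    have hdet : 0 < (A + ∑ i ∈ S, vecMulVec (u i) (u i)).det := h0.trans_le h2
    rw [h3]
    refine ⟨?_, ?_⟩
    · rw [one_smul]
      exact h1.add_posSemidef h4
    · rw [pot_det_update hdet.ne'.isUnit]
      have h5 : 0 ≤ u i ⬝ᵥ ((A + ∑ i ∈ S, vecMulVec (u i) (u i))⁻¹ *ᵥ u i) := by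
        have := h1.inv.posSemidef.dotProduct_mulVec_nonneg (u i)
        simpa using this
      nlinarith

theorem pot_cauchy {m : ℕ} {P : Matrix (Fin m) (Fin m) ℝ} (hP : P.PosDef) (hu : IsUnit P.det)
    (w v : Fin m → ℝ) :
    (w ⬝ᵥ v) ^ 2 ≤ (w ⬝ᵥ (P *ᵥ w)) * (v ⬝ᵥ (P⁻¹ *ᵥ v)) := by
  have hsym : Pᵀ = P := by
    have := hP.isHermitian
    simpa [IsHermitian] using this
  set z : Fin m → ℝ := P⁻¹ *ᵥ v with hz
  have hPz : P *ᵥ z = v := by
    rw [hz, mulVec_mulVec, mul_nonsing_inv _ hu, one_mulVec]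
  have hcomm : ∀ x y : Fin m → ℝ, x ⬝ᵥ (P *ᵥ y) = y ⬝ᵥ (P *ᵥ x) := by
    intro x y
    rw [dotProduct_mulVec, ← mulVec_transpose, hsym, dotProduct_comm]
  have hq : ∀ s : ℝ, 0 ≤ (w ⬝ᵥ (P *ᵥ w)) + 2 * s * (w ⬝ᵥ v) + s ^ 2 * (v ⬝ᵥ z) := by
    intro s
    have h := hP.posSemidef.dotProduct_mulVec_nonneg (w + s • z)
    have h1 : star (w + s • z) ⬝ᵥ (P *ᵥ (w + s • z)) =
        (w ⬝ᵥ (P *ᵥ w)) + 2 * s * (w ⬝ᵥ v) + s ^ 2 * (v ⬝ᵥ z) := by
      rw [star_trivial, mulVec_add, mulVec_smul, hPz]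
      simp only [add_dotProduct, dotProduct_add, smul_dotProduct, dotProduct_smul, smul_eq_mul]
      have h2 : z ⬝ᵥ (P *ᵥ w) = w ⬝ᵥ v := by rw [hcomm, hPz]
      rw [h2, dotProduct_comm z v]
      ring
    rw [h1] at h
    exact h
  have h0 : 0 ≤ v ⬝ᵥ z := by
    have := hP.inv.posSemidef.dotProduct_mulVec_nonneg v
    simpa using this
  rcases h0.eq_or_lt with h | h
  · have h1 : w ⬝ᵥ v = 0 := by
      by_contra hne
      have h2 := hq (-(w ⬝ᵥ (P *ᵥ w) + 1) / (2 * (w ⬝ᵥ v)))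
      rw [← h] at h2
      have h3 : 2 * (-(w ⬝ᵥ (P *ᵥ w) + 1) / (2 * (w ⬝ᵥ v))) * (w ⬝ᵥ v) =
          -(w ⬝ᵥ (P *ᵥ w) + 1) := by
        field_simp
      rw [h3] at h2
      linarith
    rw [h1, ← h]
    simp
  · have h2 := hq (-(w ⬝ᵥ v) / (v ⬝ᵥ z))
    have h3 : (w ⬝ᵥ (P *ᵥ w)) + 2 * (-(w ⬝ᵥ v) / (v ⬝ᵥ z)) * (w ⬝ᵥ v) +
        (-(w ⬝ᵥ v) / (v ⬝ᵥ z)) ^ 2 * (v ⬝ᵥ z) =
        (w ⬝ᵥ (P *ᵥ w)) - (w ⬝ᵥ v) ^ 2 / (v ⬝ᵥ z) := by
      field_simp
      ring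
    rw [h3, sub_nonneg, div_le_iff₀ h] at h2
    exact h2

/-! ### The moment matrix over the reals -/

/-- The weighted vectors. -/
noncomputable def uu (a : ℕ → ℕ → ℤ) (m K : ℕ) (t : ℕ → ℕ → ℕ) (g j : ℕ) : Fin m → ℝ := fun k =>
  2 ^ (K - t g j) * (vv a g j k : ℝ)

/-- The moment matrix over the reals. -/
noncomputable def RP (a : ℕ → ℕ → ℤ) (n m K : ℕ) (t : ℕ → ℕ → ℕ) : Matrix (Fin m) (Fin m) ℝ :=
  (PP a n m K t).map (Int.cast : ℤ → ℝ)

theorem RP_det (a : ℕ → ℕ → ℤ) (n m K : ℕ) (t : ℕ → ℕ → ℕ) :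
    (RP a n m K t).det = ((PP a n m K t).det : ℝ) := by
  unfold RP
  exact (Int.cast_det (PP a n m K t)).symm

theorem RP_eq (a : ℕ → ℕ → ℤ) (n m K : ℕ) (t : ℕ → ℕ → ℕ) :
    RP a n m K t = ∑ g ∈ range n, ∑ j ∈ range m,
      vecMulVec (uu a m K t g j) (uu a m K t g j) := by
  ext k l
  simp only [RP, PP, Matrix.map_apply, Matrix.sum_apply, vecMulVec_apply, uu]
  push_cast
  refine Finset.sum_congr rfl fun g _ => Finset.sum_congr rfl fun j _ => ?_
  have : (4 : ℝ) ^ (K - t g j) = 2 ^ (K - t g j) * 2 ^ (K - t g j) := by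
    rw [← mul_pow]; norm_num
  rw [this]
  ring

/-- The vectors of one item. -/
def VV (a : ℕ → ℕ → ℤ) (m g : ℕ) : Matrix (Fin m) (Fin m) ℤ := fun j k => vv a g j k

theorem VV_det (a : ℕ → ℕ → ℤ) (m g : ℕ) :
    (VV a m g).det = 1 + 2 * ∑ k : Fin m, a g k := by
  have h : VV a m g = 1 + replicateCol Unit (fun _ => (1 : ℤ)) *
      replicateRow Unit (fun k : Fin m => 2 * a g k) := by
    ext j k
    simp only [VV, vv, Matrix.add_apply, Matrix.mul_apply, Matrix.one_apply, replicateCol_apply,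
      replicateRow_apply, Finset.univ_unique, Finset.sum_singleton, one_mul]
    rw [add_comm]
    congr 1
    by_cases hjk : j = k
    · subst hjk; simp
    · have : ¬ ((k : ℕ) = (j : ℕ)) := fun h => hjk (Fin.ext h.symm)
      simp [hjk, this]
  rw [h, det_one_add_replicateCol_mul_replicateRow]
  simp [dotProduct, Finset.mul_sum]

theorem one_le_VV_det_sq (a : ℕ → ℕ → ℤ) (m g : ℕ) : 1 ≤ ((VV a m g).det : ℝ) ^ 2 := by
  have h : (VV a m g).det ≠ 0 := by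
    rw [VV_det]
    omega
  have h2 : 1 ≤ (VV a m g).det ^ 2 := by
    have := Int.one_le_abs h
    nlinarith [sq_abs (VV a m g).det]
  exact_mod_cast h2

/-- The part of one item of the moment matrix. -/
theorem item_posDef (a : ℕ → ℕ → ℤ) (m K : ℕ) (t : ℕ → ℕ → ℕ) (g : ℕ) :
    (∑ j ∈ range m, vecMulVec (uu a m K t g j) (uu a m K t g j)).PosDef ∧
      ∏ j ∈ range m, (4 : ℝ) ^ (K - t g j) ≤
        (∑ j ∈ range m, vecMulVec (uu a m K t g j) (uu a m K t g j)).det := by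
  set W : Matrix (Fin m) (Fin m) ℝ := fun j k => uu a m K t g j k with hW
  have h1 : ∑ j ∈ range m, vecMulVec (uu a m K t g j) (uu a m K t g j) = Wᴴ * W := by
    ext k l
    rw [Matrix.sum_apply, Matrix.mul_apply, Finset.sum_range]
    refine Finset.sum_congr rfl fun j _ => ?_
    rw [vecMulVec_apply, conjTranspose_apply, star_trivial]
  have h2 : W = diagonal (fun j : Fin m => (2 : ℝ) ^ (K - t g j)) *
      (VV a m g).map (Int.cast : ℤ → ℝ) := by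
    ext j k
    rw [diagonal_mul, Matrix.map_apply]
    rfl
  have h3 : W.det = (∏ j : Fin m, (2 : ℝ) ^ (K - t g j)) * ((VV a m g).det : ℝ) := by
    rw [h2, det_mul, det_diagonal, Int.cast_det]
  have h4 : W.det ≠ 0 := by
    rw [h3]
    have := one_le_VV_det_sq a m g
    refine mul_ne_zero (Finset.prod_ne_zero_iff.2 fun j _ => by positivity) ?_
    intro h
    rw [h] at this
    norm_num at this
  rw [h1]
  refine ⟨PosDef.conjTranspose_mul_self W ?_, ?_⟩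
  · exact mulVec_injective_of_isUnit ((isUnit_iff_isUnit_det W).2 h4.isUnit)
  · rw [det_mul, det_conjTranspose, star_trivial, h3]
    have h5 : ∏ j ∈ range m, (4 : ℝ) ^ (K - t g j) =
        (∏ j : Fin m, (2 : ℝ) ^ (K - t g j)) * (∏ j : Fin m, (2 : ℝ) ^ (K - t g j)) := by
      rw [← Finset.prod_mul_distrib, Finset.prod_range]
      refine Finset.prod_congr rfl fun j _ => ?_
      rw [← mul_pow]; norm_num
    rw [h5]
    have h6 : 0 ≤ (∏ j : Fin m, (2 : ℝ) ^ (K - t g j)) * (∏ j : Fin m, (2 : ℝ) ^ (K - t g j)) := by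
      positivity
    have h7 := one_le_VV_det_sq a m g
    nlinarith

theorem RP_posDef (a : ℕ → ℕ → ℤ) {n : ℕ} (m K : ℕ) (t : ℕ → ℕ → ℕ) {g : ℕ} (hg : g < n) :
    (RP a n m K t).PosDef ∧ ∏ j ∈ range m, (4 : ℝ) ^ (K - t g j) ≤ (RP a n m K t).det := by
  obtain ⟨h1, h2⟩ := item_posDef a m K t g
  have h3 : RP a n m K t = (∑ j ∈ range m, vecMulVec (uu a m K t g j) (uu a m K t g j)) +
      ∑ i ∈ (range n).erase g ×ˢ range m, vecMulVec (uu a m K t i.1 i.2) (uu a m K t i.1 i.2) := by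
    rw [RP_eq, Finset.sum_product]
    exact (Finset.add_sum_erase (range n) (fun g => ∑ j ∈ range m,
      vecMulVec (uu a m K t g j) (uu a m K t g j)) (Finset.mem_range.2 hg)).symm
  have h0 : 0 < ∏ j ∈ range m, (4 : ℝ) ^ (K - t g j) := Finset.prod_pos fun j _ => by positivity
  obtain ⟨h4, h5⟩ := pot_posDef_sum h1 (h0.trans_le h2)
    ((range n).erase g ×ˢ range m) (fun i => uu a m K t i.1 i.2)
  rw [← h3] at h4 h5
  exact ⟨h4, h2.trans h5⟩

theorem RP_det_pos (a : ℕ → ℕ → ℤ) {n : ℕ} (m K : ℕ) (t : ℕ → ℕ → ℕ) (hn : 0 < n) :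
    0 < (RP a n m K t).det := by
  have h0 : 0 < ∏ j ∈ range m, (4 : ℝ) ^ (K - t 0 j) := Finset.prod_pos fun j _ => by positivity
  exact h0.trans_le (RP_posDef a m K t hn).2

theorem det_PP_pos (a : ℕ → ℕ → ℤ) {n : ℕ} (m K : ℕ) (t : ℕ → ℕ → ℕ) (hn : 0 < n) :
    0 < (PP a n m K t).det := by
  have := RP_det_pos a m K t hn
  rw [RP_det] at this
  exact_mod_cast this

/-- The key lower bound. -/
theorem pow_le_det_PP (a : ℕ → ℕ → ℤ) {n : ℕ} (m K : ℕ) (t : ℕ → ℕ → ℕ) {g : ℕ} (hg : g < n)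
    (ht : ∀ j < m, t g j ≤ K) :
    4 ^ (K * m) ≤ 4 ^ (∑ j ∈ range m, t g j) * (PP a n m K t).det := by
  have h1 := (RP_posDef a m K t hg).2
  rw [RP_det] at h1
  have h2 : (∏ j ∈ range m, (4 : ℤ) ^ (K - t g j)) ≤ (PP a n m K t).det := by
    exact_mod_cast h1
  have h3 : (4 : ℤ) ^ (K * m) = 4 ^ (∑ j ∈ range m, t g j) *
      ∏ j ∈ range m, (4 : ℤ) ^ (K - t g j) := by
    rw [Finset.prod_pow_eq_pow_sum, ← pow_add, ← Finset.sum_add_distrib]
    congr 1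
    rw [Finset.sum_congr rfl (g := fun _ => K) (fun j hj => by
      have := ht j (Finset.mem_range.1 hj)
      omega)]
    simp [mul_comm]
  rw [h3]
  exact mul_le_mul_of_nonneg_left h2 (by positivity)

theorem PP_zero (a : ℕ → ℕ → ℤ) (n m K : ℕ) :
    (PP a n m K fun _ _ => 0).det = 4 ^ (K * m) * (PP a n m 0 fun _ _ => 0).det := by
  have h : (PP a n m K fun _ _ => 0) = (4 : ℤ) ^ K • (PP a n m 0 fun _ _ => 0) := by
    ext k l
    simp only [PP, Matrix.smul_apply, smul_eq_mul, Nat.sub_zero, pow_zero, one_mul,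
      Finset.mul_sum]
    refine Finset.sum_congr rfl fun g _ => Finset.sum_congr rfl fun j _ => by ring
  rw [h, det_smul, Fintype.card_fin, ← pow_mul]

theorem pot_exp_bound {n : ℕ} (hn : 4 ≤ n) : 16 * (n - 4) ^ n ≤ n ^ n := by
  have hn0 : (0 : ℝ) < n := by
    have : 0 < n := by omega
    exact_mod_cast this
  have h1 := Real.one_sub_div_pow_le_exp_neg (n := n) (t := 4) (by exact_mod_cast hn)
  have h2 : Real.exp (-4) ≤ 1 / 16 := by
    rw [Real.exp_neg, one_div]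
    refine inv_anti₀ (by norm_num) ?_
    have h3 : (2 : ℝ) ≤ Real.exp 1 := by
      have := Real.add_one_le_exp (1 : ℝ)
      linarith
    have h4 : Real.exp 4 = Real.exp 1 ^ 4 := by
      rw [← Real.exp_nat_mul]; norm_num
    rw [h4]
    calc (16 : ℝ) = 2 ^ 4 := by norm_num
      _ ≤ Real.exp 1 ^ 4 := by gcongr
  have h3 : (1 - 4 / (n : ℝ)) ^ n ≤ 1 / 16 := h1.trans h2
  have h4 : ((n : ℝ) - 4) ^ n = (n : ℝ) ^ n * (1 - 4 / (n : ℝ)) ^ n := by
    rw [← mul_pow]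
    congr 1
    field_simp
  have h5 : 16 * ((n : ℝ) - 4) ^ n ≤ (n : ℝ) ^ n := by
    rw [h4]
    have : 0 ≤ (n : ℝ) ^ n := by positivity
    nlinarith
  have h6 : (((n - 4 : ℕ) : ℕ) : ℝ) = (n : ℝ) - 4 := by
    rw [Nat.cast_sub hn]; norm_num
  have h7 : ((16 * (n - 4) ^ n : ℕ) : ℝ) ≤ ((n ^ n : ℕ) : ℝ) := by
    push_cast [h6]
    exact h5
  exact_mod_cast h7

theorem iter_bound (a : ℕ → ℕ → ℤ) {n m K T B : ℕ} (t : ℕ → ℕ → ℕ) (hn : 0 < n)
    (ht : ∀ g < n, ∀ j < m, t g j ≤ K) (hT : ∑ g ∈ range n, ∑ j ∈ range m, t g j = T)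
    (hB : (PP a n m 0 fun _ _ => 0).det ≤ 2 ^ B)
    (hinv : (n : ℤ) ^ T * (PP a n m K t).det ≤
      ((n - 4 : ℕ) : ℤ) ^ T * (PP a n m K fun _ _ => 0).det) : 2 * T ≤ n * B := by
  rcases Nat.eq_zero_or_pos T with hT0 | hTpos
  · rw [hT0]; omega
  have hpos := det_PP_pos a m K t hn
  rcases le_or_gt n 4 with hn4 | hn4
  · exfalso
    have h1 : (n - 4 : ℕ) = 0 := by omega
    rw [h1, Nat.cast_zero, zero_pow hTpos.ne', zero_mul] at hinv
    have h2 : 0 < (n : ℤ) ^ T * (PP a n m K t).det := by positivity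
    linarith
  -- an item with few halvings
  obtain ⟨g, hg, hgT⟩ : ∃ g < n, n * ∑ j ∈ range m, t g j ≤ T := by
    by_contra hcon
    push Not at hcon
    have h1 : n * T < n * T := by
      calc n * T = ∑ g ∈ range n, T := by simp
        _ < ∑ g ∈ range n, n * ∑ j ∈ range m, t g j :=
          Finset.sum_lt_sum_of_nonempty ⟨0, Finset.mem_range.2 hn⟩
            (fun g hg => hcon g (Finset.mem_range.1 hg))
        _ = n * T := by rw [← Finset.mul_sum, hT]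
    exact lt_irrefl _ h1
  set τ := ∑ j ∈ range m, t g j with hτ
  have h1 := pow_le_det_PP a m K t hg (ht g hg)
  rw [← hτ] at h1
  rw [PP_zero] at hinv
  -- n^T ≤ 4^τ (n-4)^T 2^B
  have h2 : (n : ℤ) ^ T ≤ 4 ^ τ * ((n - 4 : ℕ) : ℤ) ^ T * 2 ^ B := by
    have h3 : (n : ℤ) ^ T * 4 ^ (K * m) ≤
        (4 ^ τ * ((n - 4 : ℕ) : ℤ) ^ T * 2 ^ B) * 4 ^ (K * m) := by
      calc (n : ℤ) ^ T * 4 ^ (K * m) ≤ (n : ℤ) ^ T * (4 ^ τ * (PP a n m K t).det) := by gcongr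
        _ = 4 ^ τ * ((n : ℤ) ^ T * (PP a n m K t).det) := by ring
        _ ≤ 4 ^ τ * (((n - 4 : ℕ) : ℤ) ^ T * (4 ^ (K * m) * (PP a n m 0 fun _ _ => 0).det)) := by
          gcongr
        _ ≤ 4 ^ τ * (((n - 4 : ℕ) : ℤ) ^ T * (4 ^ (K * m) * 2 ^ B)) := by gcongr
        _ = _ := by ring
    exact le_of_mul_le_mul_right h3 (by positivity)
  have h3 : n ^ T ≤ 4 ^ τ * (n - 4) ^ T * 2 ^ B := by exact_mod_cast h2
  have hpn : 0 < (n - 4) ^ (n * T) := by
    have : 0 < n - 4 := by omega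
    positivity
  have h4 : 16 ^ T * (n - 4) ^ (n * T) ≤ 4 ^ T * 2 ^ (n * B) * (n - 4) ^ (n * T) := by
    calc 16 ^ T * (n - 4) ^ (n * T) = (16 * (n - 4) ^ n) ^ T := by
          rw [mul_pow, ← pow_mul]
      _ ≤ (n ^ n) ^ T := Nat.pow_le_pow_left (pot_exp_bound hn4.le) T
      _ = (n ^ T) ^ n := by rw [← pow_mul, ← pow_mul, mul_comm]
      _ ≤ (4 ^ τ * (n - 4) ^ T * 2 ^ B) ^ n := Nat.pow_le_pow_left h3 n
      _ = 4 ^ (n * τ) * (n - 4) ^ (n * T) * 2 ^ (n * B) := by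
          rw [mul_pow, mul_pow, ← pow_mul, ← pow_mul, ← pow_mul, mul_comm τ, mul_comm T,
            mul_comm B]
      _ ≤ 4 ^ T * (n - 4) ^ (n * T) * 2 ^ (n * B) := by
          gcongr
          norm_num
      _ = _ := by ring
  have h5 : 16 ^ T ≤ 4 ^ T * 2 ^ (n * B) := Nat.le_of_mul_le_mul_right h4 hpn
  have h6 : 4 ^ T ≤ 2 ^ (n * B) := by
    have h7 : (16 : ℕ) ^ T = 4 ^ T * 4 ^ T := by rw [← mul_pow]; norm_num
    rw [h7] at h5
    exact Nat.le_of_mul_le_mul_left h5 (by positivity)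
  have h7 : (2 : ℕ) ^ (2 * T) ≤ 2 ^ (n * B) := by
    rw [pow_mul]
    exact h6
  exact (Nat.pow_le_pow_iff_right (by norm_num)).1 h7

theorem yy_eq (a : ℕ → ℕ → ℤ) (m K : ℕ) (t : ℕ → ℕ → ℕ) (w : ℕ → ℤ) (g j : ℕ) :
    ((yy a m K t w g j : ℤ) : ℝ) = (fun k : Fin m => (w k : ℝ)) ⬝ᵥ uu a m K t g j := by
  unfold yy uu dotProduct
  push_cast
  rw [Finset.mul_sum, Finset.sum_range]
  refine Finset.sum_congr rfl fun k _ => by ring

theorem RP_quad (a : ℕ → ℕ → ℤ) (n m K : ℕ) (t : ℕ → ℕ → ℕ) (w : Fin m → ℝ) :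
    w ⬝ᵥ (RP a n m K t *ᵥ w) =
      ∑ g ∈ range n, ∑ j ∈ range m, (w ⬝ᵥ uu a m K t g j) ^ 2 := by
  rw [RP_eq, Matrix.sum_mulVec, dotProduct_sum]
  refine Finset.sum_congr rfl fun g _ => ?_
  rw [Matrix.sum_mulVec, dotProduct_sum]
  refine Finset.sum_congr rfl fun j _ => ?_
  rw [vecMulVec_mulVec, sq, dotProduct_comm (uu a m K t g j) w]
  simp [dotProduct_smul]

theorem leverage (a : ℕ → ℕ → ℤ) {n m K : ℕ} (t : ℕ → ℕ → ℕ) {g j : ℕ} (hg : g < n) (hj : j < m)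
    (htK : t g j < K)
    (h : ¬ ((n : ℤ) * (PP a n m K (bump t g j)).det ≤ ((n - 4 : ℕ) : ℤ) * (PP a n m K t).det))
    (w : ℕ → ℤ) :
    (n : ℤ) * yy a m K t w g j ^ 2 ≤ 6 * ∑ g' ∈ range n, ∑ j' ∈ range m, yy a m K t w g' j' ^ 2 := by
  have hn : 0 < n := by omega
  have hsingle : yy a m K t w g j ^ 2 ≤ ∑ g' ∈ range n, ∑ j' ∈ range m, yy a m K t w g' j' ^ 2 := by
    calc yy a m K t w g j ^ 2 ≤ ∑ j' ∈ range m, yy a m K t w g j' ^ 2 :=
          Finset.single_le_sum (f := fun j' => yy a m K t w g j' ^ 2) (fun _ _ => sq_nonneg _)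
            (Finset.mem_range.2 hj)
      _ ≤ _ := Finset.single_le_sum (f := fun g' => ∑ j' ∈ range m, yy a m K t w g' j' ^ 2)
            (fun _ _ => Finset.sum_nonneg fun _ _ => sq_nonneg _) (Finset.mem_range.2 hg)
  rcases le_or_gt n 4 with hn4 | hn4
  · have h1 : (n : ℤ) ≤ 4 := by exact_mod_cast hn4
    have h2 : 0 ≤ yy a m K t w g j ^ 2 := sq_nonneg _
    nlinarith
  -- the real matrices
  have hP := (RP_posDef a m K t hg).1
  have hdet := RP_det_pos a m K t hn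
  set u := uu a m K t g j with hu
  set P := RP a n m K t with hPdef
  have hbump : RP a n m K (bump t g j) = P + (-(3 / 4) : ℝ) • vecMulVec u u := by
    rw [hPdef, RP_eq, RP_eq]
    have e1 : ∀ g' j', (g', j') ≠ (g, j) →
        uu a m K (bump t g j) g' j' = uu a m K t g' j' := by
      intro g' j' hne
      have : ¬ (g' = g ∧ j' = j) := fun hc => hne (Prod.ext hc.1 hc.2)
      funext k
      simp only [uu, bump, this, if_false]
    have e2 : vecMulVec (uu a m K (bump t g j) g j) (uu a m K (bump t g j) g j) =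
        (1 / 4 : ℝ) • vecMulVec u u := by
      obtain ⟨p, hp⟩ : ∃ p, K - t g j = p + 1 := ⟨K - t g j - 1, by omega⟩
      have hp' : K - (t g j + 1) = p := by omega
      ext k l
      simp only [vecMulVec_apply, Matrix.smul_apply, smul_eq_mul, hu, uu, bump, and_self, if_true,
        hp, hp', pow_succ]
      ring
    rw [← Finset.sum_product', ← Finset.sum_product',
      ← Finset.add_sum_erase _ _ (Finset.mk_mem_product (Finset.mem_range.2 hg)
        (Finset.mem_range.2 hj)),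
      ← Finset.add_sum_erase (a := (g, j)) _ (fun x : ℕ × ℕ =>
        vecMulVec (uu a m K t x.1 x.2) (uu a m K t x.1 x.2))
        (Finset.mk_mem_product (Finset.mem_range.2 hg) (Finset.mem_range.2 hj))]
    rw [Finset.sum_congr rfl (g := fun x : ℕ × ℕ =>
        vecMulVec (uu a m K t x.1 x.2) (uu a m K t x.1 x.2)) (fun x hx => by
      rw [e1 x.1 x.2 (Finset.ne_of_mem_erase hx)])]
    simp only
    rw [e2, ← hu]
    module
  have hl : (n : ℝ) * (u ⬝ᵥ (P⁻¹ *ᵥ u)) ≤ 16 / 3 := by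
    have h1 : ((n - 4 : ℕ) : ℤ) * (PP a n m K t).det <
        (n : ℤ) * (PP a n m K (bump t g j)).det := not_le.1 h
    have h2 : (((n - 4 : ℕ) : ℤ) : ℝ) * ((PP a n m K t).det : ℝ) <
        ((n : ℤ) : ℝ) * ((PP a n m K (bump t g j)).det : ℝ) := by exact_mod_cast h1
    rw [← RP_det, ← RP_det, hbump, pot_det_update hdet.ne'.isUnit, ← hPdef] at h2
    have h3 : (((n - 4 : ℕ) : ℤ) : ℝ) = (n : ℝ) - 4 := by
      rw [Int.cast_natCast, Nat.cast_sub hn4.le]; norm_num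
    rw [h3, Int.cast_natCast] at h2
    have h4 : (n : ℝ) * (P.det * (1 + -(3 / 4) * (u ⬝ᵥ (P⁻¹ *ᵥ u)))) =
        ((n : ℝ) * (1 - 3 / 4 * (u ⬝ᵥ (P⁻¹ *ᵥ u)))) * P.det := by ring
    rw [h4] at h2
    have h5 := lt_of_mul_lt_mul_right h2 hdet.le
    nlinarith
  have hcs := pot_cauchy hP hdet.ne'.isUnit (fun k : Fin m => (w k : ℝ)) u
  rw [RP_quad, ← yy_eq] at hcs
  simp only [← yy_eq] at hcs
  have hS : 0 ≤ ∑ g' ∈ range n, ∑ j' ∈ range m, ((yy a m K t w g' j' : ℤ) : ℝ) ^ 2 :=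
    Finset.sum_nonneg fun _ _ => Finset.sum_nonneg fun _ _ => sq_nonneg _
  have hfin : (n : ℝ) * ((yy a m K t w g j : ℤ) : ℝ) ^ 2 ≤
      6 * ∑ g' ∈ range n, ∑ j' ∈ range m, ((yy a m K t w g' j' : ℤ) : ℝ) ^ 2 := by
    have hn0 : (0 : ℝ) ≤ n := by positivity
    calc (n : ℝ) * ((yy a m K t w g j : ℤ) : ℝ) ^ 2
        ≤ (n : ℝ) * ((∑ g' ∈ range n, ∑ j' ∈ range m, ((yy a m K t w g' j' : ℤ) : ℝ) ^ 2) *
          (u ⬝ᵥ (P⁻¹ *ᵥ u))) := by gcongr
      _ = (∑ g' ∈ range n, ∑ j' ∈ range m, ((yy a m K t w g' j' : ℤ) : ℝ) ^ 2) *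
          ((n : ℝ) * (u ⬝ᵥ (P⁻¹ *ᵥ u))) := by ring
      _ ≤ (∑ g' ∈ range n, ∑ j' ∈ range m, ((yy a m K t w g' j' : ℤ) : ℝ) ^ 2) * (16 / 3) := by
          gcongr
      _ ≤ _ := by nlinarith
  exact_mod_cast hfin

theorem det_PP_le (a : ℕ → ℕ → ℤ) (n m b : ℕ) (ha : ∀ g < n, ∀ k < m, |a g k| ≤ 2 ^ b) :
    (PP a n m 0 fun _ _ => 0).det ≤ 2 ^ (m * (2 * m + n + 2 * b + 4)) := by
  have hv : ∀ g < n, ∀ j : ℕ, ∀ k < m, |vv a g j k| ≤ 2 ^ (b + 2) := by
    intro g hg j k hk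
    unfold vv
    have h1 := ha g hg k hk
    have h2 : (1 : ℤ) ≤ 2 ^ b := one_le_pow₀ (by norm_num)
    have h3 : (2 : ℤ) ^ (b + 2) = 4 * 2 ^ b := by rw [pow_add]; norm_num; ring
    rw [h3]
    have h4 := abs_le.1 h1
    rw [abs_le]
    split_ifs <;> constructor <;> linarith [h4.1, h4.2]
  have hentry : ∀ k l : Fin m, |(PP a n m 0 fun _ _ => 0) k l| ≤ 2 ^ (n + m + 2 * b + 4) := by
    intro k l
    calc |(PP a n m 0 fun _ _ => 0) k l|
        ≤ ∑ g ∈ range n, ∑ j ∈ range m, |4 ^ (0 - 0) * vv a g j k * vv a g j l| := by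
          unfold PP
          refine (Finset.abs_sum_le_sum_abs _ _).trans ?_
          exact Finset.sum_le_sum fun g _ => Finset.abs_sum_le_sum_abs _ _
      _ ≤ ∑ g ∈ range n, ∑ j ∈ range m, (2 : ℤ) ^ (2 * b + 4) := by
          refine Finset.sum_le_sum fun g hg => Finset.sum_le_sum fun j _ => ?_
          have h1 := hv g (Finset.mem_range.1 hg) j k k.2
          have h2 := hv g (Finset.mem_range.1 hg) j l l.2
          rw [Nat.sub_self, pow_zero, one_mul, abs_mul]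
          calc |vv a g j k| * |vv a g j l| ≤ 2 ^ (b + 2) * 2 ^ (b + 2) := by gcongr
            _ = 2 ^ (2 * b + 4) := by rw [← pow_add]; congr 1; ring
      _ = n * m * 2 ^ (2 * b + 4) := by
          simp only [Finset.sum_const, Finset.card_range, nsmul_eq_mul]
          rw [mul_assoc]
      _ ≤ 2 ^ n * 2 ^ m * 2 ^ (2 * b + 4) := by
          have h1 : (n : ℤ) ≤ 2 ^ n := by exact_mod_cast (Nat.lt_two_pow_self (n := n)).le
          have h2 : (m : ℤ) ≤ 2 ^ m := by exact_mod_cast (Nat.lt_two_pow_self (n := m)).le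
          gcongr
      _ = 2 ^ (n + m + 2 * b + 4) := by rw [← pow_add, ← pow_add]; congr 1
  have h1 := Matrix.det_le (A := (PP a n m 0 fun _ _ => 0)) (abv := AbsoluteValue.abs)
    (x := (2 : ℤ) ^ (n + m + 2 * b + 4)) hentry
  rw [Fintype.card_fin] at h1
  have h2 : ((m.factorial : ℕ) : ℤ) ≤ 2 ^ (m * m) := by
    have h3 : m.factorial ≤ 2 ^ (m * m) := by
      calc m.factorial ≤ m ^ m := Nat.factorial_le_pow m
        _ ≤ (2 ^ m) ^ m := Nat.pow_le_pow_left (Nat.lt_two_pow_self (n := m)).le m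
        _ = 2 ^ (m * m) := by rw [← pow_mul]
    exact_mod_cast h3
  calc (PP a n m 0 fun _ _ => 0).det ≤ |(PP a n m 0 fun _ _ => 0).det| := le_abs_self _
    _ ≤ m.factorial • ((2 : ℤ) ^ (n + m + 2 * b + 4)) ^ m := h1
    _ = (m.factorial : ℤ) * ((2 : ℤ) ^ (n + m + 2 * b + 4)) ^ m := by rw [nsmul_eq_mul]
    _ ≤ 2 ^ (m * m) * ((2 : ℤ) ^ (n + m + 2 * b + 4)) ^ m := by gcongr
    _ = 2 ^ (m * (2 * m + n + 2 * b + 4)) := by
        rw [← pow_mul, ← pow_add]; congr 1; ring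

end Pool.Agent.Lib.MP_634427_lc.LT
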