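import Pool.Agent.Lib.MP_634427_lc.LT.IsoDefs

/-!
# The determinant test: correctness and the number of sign vectors which pass it
-/

set_option autoImplicit false

namespace Pool.Agent.Lib.MP_634427_lc.LT

open Finset Matrix

section test

variable (a : ℕ → ℕ → ℤ) (n m K : ℕ) (t : ℕ → ℕ → ℕ)

/-- The weighted vectors. -/
noncomputable def testU (p : ℕ × ℕ) : Fin m → ℝ := fun k =>
  2 ^ (K - t p.1 p.2) * (vv a p.1 p.2 k : ℝ)

/-- The moment matrix with real entries. -/
noncomputable def testP : Matrix (Fin m) (Fin m) ℝ := (PP a n m K t).map (Int.cast : ℤ → ℝ)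

/-- The index set. -/
def testI : Finset (ℕ × ℕ) := range n ×ˢ range m

theorem testP_eq : testP a n m K t =
    ∑ p ∈ testI n m, vecMulVec (testU a m K t p) (testU a m K t p) := by
  ext k l
  rw [Matrix.sum_apply, testI, Finset.sum_product]
  simp only [testP, Matrix.map_apply, PP, vecMulVec_apply, testU]
  push_cast
  refine Finset.sum_congr rfl fun g _ => Finset.sum_congr rfl fun j _ => ?_
  rw [show (4 : ℝ) = 2 * 2 by norm_num, mul_pow]
  ring

theorem testP_quad (x y : Fin m → ℝ) : x ⬝ᵥ (testP a n m K t *ᵥ y) =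
    ∑ p ∈ testI n m, (testU a m K t p ⬝ᵥ x) * (testU a m K t p ⬝ᵥ y) := by
  rw [testP_eq, Matrix.sum_mulVec, dotProduct_sum]
  refine Finset.sum_congr rfl fun p _ => ?_
  rw [vecMulVec_mulVec, dotProduct_comm]
  simp only [smul_dotProduct, MulOpposite.smul_eq_mul_unop, MulOpposite.unop_op]

theorem testU_dot (w : ℕ → ℤ) (p : ℕ × ℕ) :
    testU a m K t p ⬝ᵥ (fun k : Fin m => (w k : ℝ)) = (yy a m K t w p.1 p.2 : ℝ) := by
  simp only [dotProduct, testU, yy]
  push_cast
  rw [Finset.sum_range (fun k => (w k : ℝ) * (vv a p.1 p.2 k : ℝ)), Finset.mul_sum]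
  refine Finset.sum_congr rfl fun k _ => ?_
  ring

variable {n}

theorem testU_inj (hn : 0 < n) {x : Fin m → ℝ}
    (hx : ∀ p ∈ testI n m, testU a m K t p ⬝ᵥ x = 0) : x = 0 := by
  set σ : ℝ := ∑ k : Fin m, (a 0 k : ℝ) * x k with hσ
  have h1 : ∀ j : Fin m, x j = -(2 * σ) := by
    intro j
    have h2 := hx (0, (j : ℕ)) (by
      simp only [testI, Finset.mem_product, Finset.mem_range]
      exact ⟨hn, j.2⟩)
    have h3 : testU a m K t (0, (j : ℕ)) ⬝ᵥ x = 2 ^ (K - t 0 j) * (2 * σ + x j) := by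
      simp only [dotProduct, testU, vv, hσ]
      have h4 : ∀ k : Fin m, (2 : ℝ) ^ (K - t 0 j) *
          ((2 * a 0 k + (if (k : ℕ) = j then 1 else 0) : ℤ) : ℝ) * x k =
          2 ^ (K - t 0 j) * (2 * (a 0 k * x k) + if k = j then x k else 0) := by
        intro k
        by_cases hk : k = j
        · subst hk
          push_cast
          simp
          ring
        · have hk' : ¬ (k : ℕ) = j := fun h => hk (Fin.ext h)
          push_cast
          simp [hk, hk']
          ring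
      rw [Finset.sum_congr rfl fun k _ => h4 k, ← Finset.mul_sum, Finset.sum_add_distrib,
        ← Finset.mul_sum, Finset.sum_ite_eq' Finset.univ j x]
      simp
    rw [h3] at h2
    rcases mul_eq_zero.1 h2 with h4 | h4
    · exact absurd h4 (by positivity)
    · linarith
  have h2 : σ = -(2 * σ) * ((∑ k : Fin m, a 0 k : ℤ) : ℝ) := by
    conv_lhs => rw [hσ]
    push_cast
    rw [Finset.mul_sum]
    refine Finset.sum_congr rfl fun k _ => ?_
    rw [h1 k]
    ring
  have h3 : σ * ((1 + 2 * ∑ k : Fin m, a 0 k : ℤ) : ℝ) = 0 := by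
    push_cast
    push_cast at h2
    linarith
  have h4 : (1 + 2 * ∑ k : Fin m, a 0 k : ℤ) ≠ 0 := by omega
  have h5 : σ = 0 := by
    rcases mul_eq_zero.1 h3 with h | h
    · exact h
    · exact absurd (by exact_mod_cast h) h4
  funext j
  rw [h1 j, h5]
  simp

theorem testP_posDef (hn : 0 < n) : (testP a n m K t).PosDef := by
  refine PosDef.of_dotProduct_mulVec_pos ?_ fun x hx => ?_
  · rw [testP_eq]
    ext k l
    simp only [conjTranspose_apply, Matrix.sum_apply, vecMulVec_apply, star_trivial]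
    exact Finset.sum_congr rfl fun p _ => mul_comm _ _
  · rw [star_trivial, testP_quad]
    by_contra hcon
    push Not at hcon
    apply hx
    refine testU_inj a m K t hn fun p hp => ?_
    have h1 : ∀ q ∈ testI n m, 0 ≤ (testU a m K t q ⬝ᵥ x) * (testU a m K t q ⬝ᵥ x) := fun q _ =>
      mul_self_nonneg _
    have h2 := (Finset.sum_eq_zero_iff_of_nonneg h1).1 (le_antisymm hcon (Finset.sum_nonneg h1))
    exact mul_self_eq_zero.1 (h2 p hp)

/-- The sum of the weighted vectors with signs. -/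
noncomputable def testZ (n : ℕ) (sg : ℕ → ℤ) : Fin m → ℝ := fun k => (zz a n m K t sg k : ℝ)

theorem testZ_eq (sg : ℕ → ℤ) : testZ a m K t n sg =
    ∑ p ∈ testI n m, (sg p.1 : ℝ) • testU a m K t p := by
  funext k
  rw [Finset.sum_apply, testI, Finset.sum_product]
  simp only [testZ, zz, Pi.smul_apply, smul_eq_mul, testU]
  push_cast
  refine Finset.sum_congr rfl fun g _ => Finset.sum_congr rfl fun j _ => ?_
  ring

/-- The value of the inverse form. -/
noncomputable def testQ (n : ℕ) (z : Fin m → ℝ) : ℝ :=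
  ∑ p ∈ testI n m, (testU a m K t p ⬝ᵥ ((testP a n m K t)⁻¹ *ᵥ z)) ^ 2

theorem test_mul_inv (hn : 0 < n) (z : Fin m → ℝ) :
    testP a n m K t *ᵥ ((testP a n m K t)⁻¹ *ᵥ z) = z := by
  rw [mulVec_mulVec, Matrix.mul_nonsing_inv _ (testP_posDef a m K t hn).det_pos.ne'.isUnit,
    one_mulVec]

theorem testQ_eq (hn : 0 < n) (z : Fin m → ℝ) :
    testQ a m K t n z = z ⬝ᵥ ((testP a n m K t)⁻¹ *ᵥ z) := by
  have h1 := testP_quad a n m K t ((testP a n m K t)⁻¹ *ᵥ z) ((testP a n m K t)⁻¹ *ᵥ z)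
  rw [test_mul_inv a m K t hn, dotProduct_comm] at h1
  rw [h1, testQ]
  exact Finset.sum_congr rfl fun p _ => by ring

theorem test_det (hn : 0 < n) (sg : ℕ → ℤ) :
    (((TT a n m K t sg).det : ℤ) : ℝ) = (n : ℝ) ^ m * (testP a n m K t).det *
      (1 - 24 / n * testQ a m K t n (testZ a m K t n sg)) := by
  have hn0 : (n : ℝ) ≠ 0 := by positivity
  set z := testZ a m K t n sg with hz
  set P := testP a n m K t with hP
  set u := P⁻¹ *ᵥ z with hu
  have h1 : (TT a n m K t sg).map (Int.cast : ℤ → ℝ) = (n : ℝ) • (P * (1 +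
      replicateCol Unit ((-24 / n : ℝ) • u) * replicateRow Unit z)) := by
    have h2 : P * (replicateCol Unit ((-24 / n : ℝ) • u) * replicateRow Unit z) =
        (-24 / n : ℝ) • vecMulVec z z := by
      rw [← Matrix.mul_assoc, ← replicateCol_mulVec, mulVec_smul, hu, hP,
        test_mul_inv a m K t hn]
      ext k l
      simp [Matrix.mul_apply, vecMulVec_apply, mul_assoc]
    rw [Matrix.mul_add, Matrix.mul_one, h2, smul_add, smul_smul, mul_div_cancel₀ _ hn0]
    ext k l
    simp only [Matrix.map_apply, TT, Matrix.add_apply, Matrix.smul_apply, smul_eq_mul,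
      vecMulVec_apply, hz, hP, testP, testZ]
    push_cast
    ring
  have h3 : (((TT a n m K t sg).det : ℤ) : ℝ) =
      ((TT a n m K t sg).map (Int.cast : ℤ → ℝ)).det := by
    have := (Int.castRingHom ℝ).map_det (TT a n m K t sg)
    simpa using this
  rw [h3, h1, det_smul, det_mul, det_one_add_replicateCol_mul_replicateRow, Fintype.card_fin,
    dotProduct_smul, smul_eq_mul, testQ_eq a m K t hn]
  ring

/-- The determinant is nonpositive if and only if the form is large. -/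
theorem test_det_le_iff (hn : 0 < n) (sg : ℕ → ℤ) :
    (TT a n m K t sg).det ≤ 0 ↔ (n : ℝ) ≤ 24 * testQ a m K t n (testZ a m K t n sg) := by
  have hn0 : (0 : ℝ) < n := by positivity
  have h1 : 0 < (n : ℝ) ^ m * (testP a n m K t).det :=
    mul_pos (pow_pos hn0 _) (testP_posDef a m K t hn).det_pos
  have h2 : (TT a n m K t sg).det ≤ 0 ↔ (((TT a n m K t sg).det : ℤ) : ℝ) ≤ 0 := by
    exact_mod_cast Iff.rfl
  rw [h2, test_det a m K t hn]
  set q := testQ a m K t n (testZ a m K t n sg) with hq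
  constructor
  · intro h
    have h3 : 1 - 24 / n * q ≤ 0 := by
      by_contra hcon
      push Not at hcon
      exact absurd h (not_le.2 (mul_pos h1 hcon))
    have h4 : (24 : ℝ) / n * q = 24 * q / n := by ring
    rw [h4, sub_nonpos, le_div_iff₀ hn0] at h3
    linarith
  · intro h
    have h3 : 1 - 24 / n * q ≤ 0 := by
      have h4 : (24 : ℝ) / n * q = 24 * q / n := by ring
      rw [h4, sub_nonpos, le_div_iff₀ hn0]
      linarith
    exact mul_nonpos_of_nonneg_of_nonpos h1.le h3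

/-- Cauchy-Schwarz. -/
theorem test_cs (hn : 0 < n) (x z : Fin m → ℝ) :
    (x ⬝ᵥ z) ^ 2 ≤ (∑ p ∈ testI n m, (testU a m K t p ⬝ᵥ x) ^ 2) * testQ a m K t n z := by
  have h1 := testP_quad a n m K t x ((testP a n m K t)⁻¹ *ᵥ z)
  rw [test_mul_inv a m K t hn] at h1
  rw [h1, testQ]
  exact Finset.sum_mul_sq_le_sq_mul_sq _ _ _

end test

theorem det_TT_le (a : ℕ → ℕ → ℤ) {n m K : ℕ} (t : ℕ → ℕ → ℕ) (hn : 0 < n) (hm : 0 < m)
    (w : ℕ → ℤ) (sg : ℕ → ℤ) (hsg : ∀ g < n, sg g = 1 ∨ sg g = -1)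
    (hlev : ∀ g < n, ∀ j < m, (n : ℤ) * yy a m K t w g j ^ 2 ≤
      6 * ∑ g' ∈ range n, ∑ j' ∈ range m, yy a m K t w g' j' ^ 2)
    (bad : Finset ℕ) (hbad : 24 * m * bad.card ≤ n)
    (hgood : ∀ g < n, g ∉ bad → ∀ j < m, 0 < sg g * yy a m K t w g j) :
    (TT a n m K t sg).det ≤ 0 := by
  classical
  rw [test_det_le_iff a m K t hn]
  have hn0 : (0 : ℝ) < n := by positivity
  set y : ℕ × ℕ → ℝ := fun p => (yy a m K t w p.1 p.2 : ℝ) with hy
  set Y2 : ℝ := ∑ p ∈ testI n m, y p ^ 2 with hY2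
  set x : Fin m → ℝ := fun k => (w k : ℝ) with hx
  set z := testZ a m K t n sg with hz
  have hUx : ∀ p, testU a m K t p ⬝ᵥ x = y p := fun p => testU_dot a m K t w p
  have hY2' : Y2 = ((∑ g' ∈ range n, ∑ j' ∈ range m, yy a m K t w g' j' ^ 2 : ℤ) : ℝ) := by
    rw [hY2, testI, Finset.sum_product]
    push_cast
    rfl
  -- the pointwise bound
  have hle : ∀ p ∈ testI n m, n * y p ^ 2 ≤ 6 * Y2 := by
    intro p hp
    simp only [testI, Finset.mem_product, Finset.mem_range] at hp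
    have := hlev p.1 hp.1 p.2 hp.2
    rw [hY2']
    simp only [hy]
    exact_mod_cast this
  -- a good item exists
  have hY2pos : 0 < Y2 := by
    have h1 : ∃ g ∈ range n, g ∉ bad := by
      by_contra hcon
      push Not at hcon
      have h2 : (range n).card ≤ bad.card := Finset.card_le_card fun g hg => hcon g hg
      rw [Finset.card_range] at h2
      have h3 : 24 * 1 * bad.card ≤ 24 * m * bad.card :=
        Nat.mul_le_mul_right _ (Nat.mul_le_mul_left _ hm)
      omega
    obtain ⟨g, hg, hgb⟩ := h1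
    rw [Finset.mem_range] at hg
    have h2 := hgood g hg hgb 0 hm
    have h3 : y (g, 0) ≠ 0 := by
      intro h
      have h5 : ((yy a m K t w g 0 : ℤ) : ℝ) = 0 := h
      have h4 : yy a m K t w g 0 = 0 := by exact_mod_cast h5
      rw [h4, mul_zero] at h2
      exact lt_irrefl _ h2
    have h4 : (g, 0) ∈ testI n m := by
      simp only [testI, Finset.mem_product, Finset.mem_range]
      exact ⟨hg, hm⟩
    exact (pow_pos (abs_pos.2 h3) 2).trans_le (by
      rw [sq_abs]
      exact Finset.single_le_sum (f := fun p => y p ^ 2) (fun p _ => sq_nonneg _) h4)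
  set R : ℝ := Real.sqrt (6 * Y2 / n) with hR
  have hR2 : R ^ 2 = 6 * Y2 / n := Real.sq_sqrt (by positivity)
  have hRpos : 0 < R := Real.sqrt_pos.2 (by positivity)
  have habs : ∀ p ∈ testI n m, |y p| ≤ R := by
    intro p hp
    rw [← abs_of_pos hRpos]
    rw [← sq_le_sq, hR2, le_div_iff₀ hn0]
    linarith [hle p hp]
  -- lower bound for the sum of the absolute values
  have hsum : Y2 ≤ R * ∑ p ∈ testI n m, |y p| := by
    rw [hY2, Finset.mul_sum]
    refine Finset.sum_le_sum fun p hp => ?_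
    rw [← sq_abs, sq]
    exact mul_le_mul_of_nonneg_right (habs p hp) (abs_nonneg _)
  -- the value of the functional
  have hval : x ⬝ᵥ z = ∑ p ∈ testI n m, (sg p.1 : ℝ) * y p := by
    rw [hz, testZ_eq, dotProduct_sum]
    refine Finset.sum_congr rfl fun p _ => ?_
    rw [dotProduct_smul, dotProduct_comm, hUx, smul_eq_mul]
  have hpt : ∀ p ∈ testI n m, |y p| - (if p.1 ∈ bad then 2 * R else 0) ≤ (sg p.1 : ℝ) * y p := by
    intro p hp
    have hp' := hp
    simp only [testI, Finset.mem_product, Finset.mem_range] at hp'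
    by_cases hb : p.1 ∈ bad
    · rw [if_pos hb]
      have h1 := habs p hp
      have h2 : -|y p| ≤ (sg p.1 : ℝ) * y p := by
        rcases hsg p.1 hp'.1 with h | h
        · rw [h]; push_cast; rw [one_mul]; exact neg_abs_le _
        · rw [h]; push_cast; rw [neg_one_mul]; exact neg_le_neg (le_abs_self _)
      linarith
    · rw [if_neg hb, sub_zero]
      have h1 := hgood p.1 hp'.1 hb p.2 hp'.2
      have h2 : (0 : ℝ) < (sg p.1 : ℝ) * y p := by
        simp only [hy]
        exact_mod_cast h1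
      have h3 : |y p| = |(sg p.1 : ℝ) * y p| := by
        rw [abs_mul]
        rcases hsg p.1 hp'.1 with h | h
        · rw [h]; simp
        · rw [h]; simp
      rw [h3, abs_of_pos h2]
  have hbadsum : ∑ p ∈ testI n m, (if p.1 ∈ bad then 2 * R else 0) ≤ m * bad.card * (2 * R) := by
    rw [testI, Finset.sum_product]
    have h1 : ∀ g ∈ range n, ∑ _j ∈ range m, (if g ∈ bad then 2 * R else 0) =
        m * (if g ∈ bad then 2 * R else 0) := by
      intro g _
      rw [Finset.sum_const, Finset.card_range, nsmul_eq_mul]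
    rw [Finset.sum_congr rfl h1, ← Finset.mul_sum, ← Finset.sum_filter, Finset.sum_const,
      nsmul_eq_mul]
    have h2 : ((range n).filter fun g => g ∈ bad).card ≤ bad.card :=
      Finset.card_le_card fun g hg => (Finset.mem_filter.1 hg).2
    have h3 : (((range n).filter fun g => g ∈ bad).card : ℝ) ≤ bad.card := by exact_mod_cast h2
    have h4 : (0 : ℝ) ≤ m * (2 * R) := by positivity
    nlinarith
  have hmain : (∑ p ∈ testI n m, |y p|) - m * bad.card * (2 * R) ≤ x ⬝ᵥ z := by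
    rw [hval]
    have := Finset.sum_le_sum hpt
    rw [Finset.sum_sub_distrib] at this
    linarith
  have hb' : (24 : ℝ) * (m * bad.card) ≤ n := by
    have : ((24 * m * bad.card : ℕ) : ℝ) ≤ n := by exact_mod_cast hbad
    push_cast at this
    linarith
  -- combine
  have h6 : 6 * Y2 = n * R ^ 2 := by
    rw [hR2, mul_div_cancel₀ _ hn0.ne']
  have h7 : n * R / 6 ≤ ∑ p ∈ testI n m, |y p| := by
    have : n * R ^ 2 / 6 ≤ R * ∑ p ∈ testI n m, |y p| := by linarith
    have h8 : R * (n * R / 6) ≤ R * ∑ p ∈ testI n m, |y p| := by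
      calc R * (n * R / 6) = n * R ^ 2 / 6 := by ring
        _ ≤ _ := this
    exact le_of_mul_le_mul_left h8 hRpos
  have h8 : (m * bad.card : ℝ) * (2 * R) ≤ n * R / 12 := by
    nlinarith
  have h9 : n * R / 12 ≤ x ⬝ᵥ z := by linarith
  have h10 : (n * R / 12) ^ 2 ≤ (x ⬝ᵥ z) ^ 2 := by
    apply pow_le_pow_left₀ (by positivity) h9
  have h11 := test_cs a m K t hn x z
  have h12 : ∑ p ∈ testI n m, (testU a m K t p ⬝ᵥ x) ^ 2 = Y2 := by
    rw [hY2]
    exact Finset.sum_congr rfl fun p _ => by rw [hUx]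
  rw [h12] at h11
  have h13 : (n * R / 12) ^ 2 = n * Y2 / 24 := by
    have : (n * R / 12) ^ 2 = n * (n * R ^ 2) / 144 := by ring
    rw [this, ← h6]; ring
  rw [h13] at h10
  have h14 : Y2 * (n / 24) ≤ Y2 * testQ a m K t n z := by
    calc Y2 * (n / 24) = n * Y2 / 24 := by ring
      _ ≤ _ := h10.trans h11
  have h15 := le_of_mul_le_mul_left h14 hY2pos
  linarith

/-- Bessel's inequality. -/
theorem test_bessel {γ : Type} (Z : Finset γ) (n N : ℕ) (φ : ℕ → ℕ)
    (hφ : Set.InjOn φ (range n)) (hφN : ∀ g < n, φ g < N) (χ : γ → ℕ → ℝ)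
    (hχ : ∀ c ∈ Z, ∑ i ∈ range N, χ c i * χ c i = N)
    (horth : ∀ c ∈ Z, ∀ c' ∈ Z, c ≠ c' → ∑ i ∈ range N, χ c i * χ c' i = 0) (f : ℕ → ℝ) :
    ∑ c ∈ Z, (∑ g ∈ range n, χ c (φ g) * f g) ^ 2 ≤ N * ∑ g ∈ range n, f g ^ 2 := by
  classical
  set G : γ → ℝ := fun c => ∑ g ∈ range n, χ c (φ g) * f g with hG
  set H : ℕ → ℝ := fun i => ∑ c ∈ Z, G c * χ c i with hH
  set S : ℝ := ∑ c ∈ Z, G c ^ 2 with hS
  have hS0 : 0 ≤ S := Finset.sum_nonneg fun c _ => sq_nonneg _
  have h1 : ∑ g ∈ range n, H (φ g) * f g = S := by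
    simp only [hH, hS, Finset.sum_mul]
    rw [Finset.sum_comm]
    refine Finset.sum_congr rfl fun c _ => ?_
    rw [sq]
    conv_rhs => rw [hG]
    simp only
    rw [Finset.mul_sum]
    refine Finset.sum_congr rfl fun g _ => ?_
    ring
  have h2 : ∑ i ∈ range N, H i ^ 2 = N * S := by
    have h3 : ∀ i ∈ range N, H i ^ 2 = ∑ c ∈ Z, ∑ c' ∈ Z, G c * G c' * (χ c i * χ c' i) := by
      intro i _
      rw [sq, hH]
      simp only
      rw [Finset.sum_mul_sum]
      refine Finset.sum_congr rfl fun c _ => Finset.sum_congr rfl fun c' _ => ?_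
      ring
    rw [Finset.sum_congr rfl h3, Finset.sum_comm, hS, Finset.mul_sum]
    refine Finset.sum_congr rfl fun c hc => ?_
    rw [Finset.sum_comm]
    have h4 : ∀ c' ∈ Z, ∑ i ∈ range N, G c * G c' * (χ c i * χ c' i) =
        if c' = c then N * G c ^ 2 else 0 := by
      intro c' hc'
      rw [← Finset.mul_sum]
      by_cases h : c' = c
      · subst h
        rw [if_pos rfl, hχ c' hc]
        ring
      · rw [if_neg h, horth c hc c' hc' (fun h' => h h'.symm), mul_zero]
    rw [Finset.sum_congr rfl h4, Finset.sum_ite_eq' Z c, if_pos hc]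
  have h3 : ∑ g ∈ range n, H (φ g) ^ 2 ≤ N * S := by
    rw [← h2, ← Finset.sum_image (f := fun i => H i ^ 2) hφ]
    refine Finset.sum_le_sum_of_subset_of_nonneg ?_ fun i _ _ => sq_nonneg _
    intro i hi
    obtain ⟨g, hg, rfl⟩ := Finset.mem_image.1 hi
    exact Finset.mem_range.2 (hφN g (Finset.mem_range.1 hg))
  have h4 := Finset.sum_mul_sq_le_sq_mul_sq (range n) (fun g => H (φ g)) f
  rw [h1] at h4
  have hF : 0 ≤ ∑ g ∈ range n, f g ^ 2 := Finset.sum_nonneg fun g _ => sq_nonneg _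
  have h5 : S ^ 2 ≤ N * S * ∑ g ∈ range n, f g ^ 2 :=
    h4.trans (mul_le_mul_of_nonneg_right h3 hF)
  rcases hS0.eq_or_lt with h6 | h6
  · rw [← h6]
    positivity
  · have h7 : S * S ≤ S * (N * ∑ g ∈ range n, f g ^ 2) := by
      calc S * S = S ^ 2 := by ring
        _ ≤ _ := h5
        _ = _ := by ring
    exact le_of_mul_le_mul_left h7 h6

/-- The trace. -/
theorem test_trace (a : ℕ → ℕ → ℤ) {n m K : ℕ} (t : ℕ → ℕ → ℕ) (hn : 0 < n) :
    ∑ q ∈ testI n m, testQ a m K t n (testU a m K t q) = m := by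
  have h1 : ∀ q ∈ testI n m, testQ a m K t n (testU a m K t q) =
      ((testP a n m K t)⁻¹ * vecMulVec (testU a m K t q) (testU a m K t q)).trace := by
    intro q _
    rw [testQ_eq a m K t hn, mul_vecMulVec, trace_vecMulVec, dotProduct_comm]
  rw [Finset.sum_congr rfl h1, ← trace_sum, ← Finset.mul_sum, ← testP_eq,
    Matrix.nonsing_inv_mul _ (testP_posDef a m K t hn).det_pos.ne'.isUnit, trace_one,
    Fintype.card_fin]

theorem card_TT_le {γ : Type} (a : ℕ → ℕ → ℤ) {n m K : ℕ} (t : ℕ → ℕ → ℕ) (hn : 0 < n)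
    (Z : Finset γ) (N : ℕ) (φ : ℕ → ℕ) (hφ : Set.InjOn φ (range n)) (hφN : ∀ g < n, φ g < N)
    (χ : γ → ℕ → ℤ) (hχ : ∀ c ∈ Z, ∀ i < N, χ c i = 1 ∨ χ c i = -1)
    (horth : ∀ c ∈ Z, ∀ c' ∈ Z, c ≠ c' → ∑ i ∈ range N, χ c i * χ c' i = 0)
    (hZ : ∀ c ∈ Z, (TT a n m K t fun g => χ c (φ g)).det ≤ 0) :
    Z.card * n ≤ 24 * m ^ 2 * N := by
  set ℓ : ℕ × ℕ → (Fin m → ℝ) → ℝ := fun p z =>
    testU a m K t p ⬝ᵥ ((testP a n m K t)⁻¹ *ᵥ z) with hℓ
  have hQ : ∀ z, testQ a m K t n z = ∑ p ∈ testI n m, ℓ p z ^ 2 := fun z => rfl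
  have hℓsum : ∀ (p : ℕ × ℕ) (s : Finset ℕ) (F : ℕ → Fin m → ℝ), ℓ p (∑ i ∈ s, F i) =
      ∑ i ∈ s, ℓ p (F i) := by
    intro p s F
    simp only [hℓ]
    rw [mulVec_sum, dotProduct_sum]
  have hℓsmul : ∀ (p : ℕ × ℕ) (r : ℝ) (z : Fin m → ℝ), ℓ p (r • z) = r * ℓ p z := by
    intro p r z
    simp only [hℓ]
    rw [mulVec_smul, dotProduct_smul, smul_eq_mul]
  set X : ℕ → Fin m → ℝ := fun g => ∑ j ∈ range m, testU a m K t (g, j) with hX
  have hz : ∀ c, testZ a m K t n (fun g => χ c (φ g)) =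
      ∑ g ∈ range n, ((χ c (φ g) : ℤ) : ℝ) • X g := by
    intro c
    rw [testZ_eq, testI, Finset.sum_product]
    refine Finset.sum_congr rfl fun g _ => ?_
    rw [hX, Finset.smul_sum]
  -- lower bound
  have h1 : (Z.card : ℝ) * n ≤ 24 * ∑ c ∈ Z, testQ a m K t n (testZ a m K t n fun g => χ c (φ g)) := by
    rw [Finset.mul_sum, ← nsmul_eq_mul, ← Finset.sum_const]
    exact Finset.sum_le_sum fun c hc => (test_det_le_iff a m K t hn _).1 (hZ c hc)
  -- Bessel
  have h2 : ∀ p ∈ testI n m, ∑ c ∈ Z, ℓ p (testZ a m K t n fun g => χ c (φ g)) ^ 2 ≤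
      N * ∑ g ∈ range n, ℓ p (X g) ^ 2 := by
    intro p _
    have h3 := test_bessel Z n N φ hφ hφN (fun c i => ((χ c i : ℤ) : ℝ))
      (fun c hc => by
        have : ∀ i ∈ range N, ((χ c i : ℤ) : ℝ) * ((χ c i : ℤ) : ℝ) = 1 := by
          intro i hi
          rcases hχ c hc i (Finset.mem_range.1 hi) with h | h
          · rw [h]; norm_num
          · rw [h]; norm_num
        rw [Finset.sum_congr rfl this]
        simp)
      (fun c hc c' hc' hne => by
        have := horth c hc c' hc' hne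
        exact_mod_cast this) (fun g => ℓ p (X g))
    refine le_trans (le_of_eq (Finset.sum_congr rfl fun c _ => ?_)) h3
    rw [hz c, hℓsum]
    congr 1
    exact Finset.sum_congr rfl fun g _ => hℓsmul _ _ _
  have h3 : ∀ p ∈ testI n m, ∑ g ∈ range n, ℓ p (X g) ^ 2 ≤
      m * ∑ q ∈ testI n m, ℓ p (testU a m K t q) ^ 2 := by
    intro p _
    rw [testI, Finset.sum_product, Finset.mul_sum]
    refine Finset.sum_le_sum fun g _ => ?_
    rw [hX, hℓsum]
    have := sq_sum_le_card_mul_sum_sq (s := range m) (f := fun j => ℓ p (testU a m K t (g, j)))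
    rwa [Finset.card_range] at this
  have h4 : ∑ c ∈ Z, testQ a m K t n (testZ a m K t n fun g => χ c (φ g)) ≤ N * (m * m) := by
    calc ∑ c ∈ Z, testQ a m K t n (testZ a m K t n fun g => χ c (φ g))
        = ∑ p ∈ testI n m, ∑ c ∈ Z, ℓ p (testZ a m K t n fun g => χ c (φ g)) ^ 2 := by
          rw [Finset.sum_comm]
          exact Finset.sum_congr rfl fun c _ => hQ _
      _ ≤ ∑ p ∈ testI n m, N * (m * ∑ q ∈ testI n m, ℓ p (testU a m K t q) ^ 2) := by
          refine Finset.sum_le_sum fun p hp => (h2 p hp).trans ?_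
          exact mul_le_mul_of_nonneg_left (h3 p hp) (Nat.cast_nonneg _)
      _ = N * (m * ∑ q ∈ testI n m, testQ a m K t n (testU a m K t q)) := by
          rw [← Finset.mul_sum, ← Finset.mul_sum, Finset.sum_comm]; rfl
      _ = N * (m * m) := by rw [test_trace a t hn]
  have h5 : (Z.card : ℝ) * n ≤ 24 * (N * (m * m)) := h1.trans (by linarith)
  have h6 : ((Z.card * n : ℕ) : ℝ) ≤ ((24 * m ^ 2 * N : ℕ) : ℝ) := by
    push_cast
    calc (Z.card : ℝ) * n ≤ 24 * (N * (m * m)) := h5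
      _ = 24 * m ^ 2 * N := by ring
  exact_mod_cast h6

end Pool.Agent.Lib.MP_634427_lc.LT
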