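import Pool.Agent.Lib.MP_634427_lc.LT.Det
import Pool.Agent.Lib.MP_634427_lc.LT.Potential
import Pool.Agent.Lib.MP_634427_lc.LT.Test
import Pool.Agent.Lib.MP_634427_lc.KNo

/-!
# The computation of a radial isotropic position, and the candidate filter

All quantities are compared by means of integer determinants.
-/

namespace Pool.Agent.Lib.MP_634427_lc.LT

open Finset KNo

/-- The integers of a table. -/
def av (AT : List (List Num)) (g k : ℕ) : ℤ := nval (entry AT g k)

/-- The entries of a table of exponents. -/
def tv (tab : List (List ℕ)) (g j : ℕ) : ℕ := (tab.getD g []).getD j 0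

/-- The perturbed vectors. -/
def vvL (AT : List (List Num)) (g j k : ℕ) : Num :=
  nadd (nadd (entry AT g k) (entry AT g k)) (bif decide (k = j) then nofNat 1 else nofNat 0)

lemma nval_vvL (AT : List (List Num)) (g j k : ℕ) : nval (vvL AT g j k) = vv (av AT) g j k := by
  unfold vvL vv av
  rw [nval_nadd, nval_nadd]
  by_cases h : k = j
  · simp [h, nval_nofNat]; ring
  · simp [h, nval_nofNat]; ring

/-- All pairs of indices. -/
def idx (n m : ℕ) : List (ℕ × ℕ) := (List.range n).flatMap fun g => (List.range m).map fun j => (g, j)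

lemma mem_idx {n m : ℕ} {p : ℕ × ℕ} : p ∈ idx n m ↔ p.1 < n ∧ p.2 < m := by
  rcases p with ⟨g, j⟩
  simp [idx]

lemma sum_map_range {M : Type*} [AddCommMonoid M] (n : ℕ) (f : ℕ → M) :
    ((List.range n).map f).sum = ∑ i ∈ range n, f i := by
  induction n with
  | zero => simp
  | succ n ih => rw [List.range_succ, List.map_append, List.sum_append, ih, Finset.sum_range_succ]; simp

lemma sum_idx {M : Type*} [AddCommMonoid M] (n m : ℕ) (f : ℕ × ℕ → M) :
    ((idx n m).map f).sum = ∑ g ∈ range n, ∑ j ∈ range m, f (g, j) := by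
  unfold idx
  rw [← sum_map_range, List.map_flatMap]
  induction List.range n with
  | nil => simp
  | cons g L ih =>
    rw [List.flatMap_cons, List.sum_append, ih, List.map_cons, List.sum_cons, List.map_map,
      ← sum_map_range]
    rfl

lemma getD_map_range {α : Type} (n : ℕ) (f : ℕ → α) (i : ℕ) (d : α) (h : i < n) :
    ((List.range n).map f).getD i d = f i := by
  rw [List.getD_eq_getElem?_getD, List.getElem?_map, List.getElem?_range h]
  rfl

lemma entry_tab (n m : ℕ) (f : ℕ → ℕ → Num) {i j : ℕ} (hi : i < n) (hj : j < m) :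
    entry ((List.range n).map fun i => (List.range m).map fun j => f i j) i j = f i j := by
  unfold entry
  rw [getD_map_range _ _ _ _ hi, getD_map_range _ _ _ _ hj]

/-- The contribution of one vector to the moment matrix. -/
def cell (AT : List (List Num)) (K : ℕ) (tab : List (List ℕ)) (k l : ℕ) (p : ℕ × ℕ) : Num :=
  nmul (npow2 (2 * (K - tv tab p.1 p.2))) (nmul (vvL AT p.1 p.2 k) (vvL AT p.1 p.2 l))

/-- The moment matrix. -/
def PPL (AT : List (List Num)) (m K : ℕ) (tab : List (List ℕ)) : List (List Num) :=
  (List.range m).map fun k => (List.range m).map fun l =>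
    nsum ((idx AT.length m).map fun p => cell AT K tab k l p)

lemma nval_PPL (AT : List (List Num)) (m K : ℕ) (tab : List (List ℕ)) (k l : Fin m) :
    nval (entry (PPL AT m K tab) k l) = PP (av AT) AT.length m K (tv tab) k l := by
  unfold PPL PP
  rw [entry_tab _ _ _ k.2 l.2, nval_nsum, List.map_map, sum_idx]
  refine Finset.sum_congr rfl fun g _ => Finset.sum_congr rfl fun j _ => ?_
  simp only [Function.comp_apply, cell, nval_nmul, nval_npow2, nval_vvL]
  rw [pow_mul]
  norm_num
  ring

lemma mat_PPL (AT : List (List Num)) (m K : ℕ) (tab : List (List ℕ)) :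
    mat m (PPL AT m K tab) = PP (av AT) AT.length m K (tv tab) := by
  ext k l
  exact nval_PPL AT m K tab k l

/-- Raise one exponent. -/
def bumpL (n m : ℕ) (tab : List (List ℕ)) (p : ℕ × ℕ) : List (List ℕ) :=
  (List.range n).map fun g => (List.range m).map fun j =>
    bif decide (g = p.1) && decide (j = p.2) then tv tab p.1 p.2 + 1 else tv tab g j

lemma tv_bumpL {n m : ℕ} (tab : List (List ℕ)) (p : ℕ × ℕ) {g j : ℕ} (hg : g < n) (hj : j < m) :
    tv (bumpL n m tab p) g j = bump (tv tab) p.1 p.2 g j := by
  have h : tv (bumpL n m tab p) g j =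
      bif decide (g = p.1) && decide (j = p.2) then tv tab p.1 p.2 + 1 else tv tab g j := by
    conv_lhs => unfold tv bumpL
    rw [getD_map_range _ _ _ _ hg, getD_map_range _ _ _ _ hj]
  rw [h]
  unfold bump
  by_cases h1 : g = p.1 <;> by_cases h2 : j = p.2 <;> simp [h1, h2]

lemma PP_congr (a : ℕ → ℕ → ℤ) (n m K : ℕ) {t t' : ℕ → ℕ → ℕ}
    (h : ∀ g < n, ∀ j < m, t g j = t' g j) : PP a n m K t = PP a n m K t' := by
  ext k l
  unfold PP
  refine Finset.sum_congr rfl fun g hg => Finset.sum_congr rfl fun j hj => ?_
  rw [h g (Finset.mem_range.1 hg) j (Finset.mem_range.1 hj)]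

/-- May the weight be halved? -/
def canHalve (AT : List (List Num)) (m K : ℕ) (tab : List (List ℕ)) (p : ℕ × ℕ) : Bool :=
  decide (tv tab p.1 p.2 < K) &&
    nle (nmul (nofNat AT.length) (detL m (PPL AT m K (bumpL AT.length m tab p))))
      (nmul (nofNat (AT.length - 4)) (detL m (PPL AT m K tab)))

lemma canHalve_iff (AT : List (List Num)) (m K : ℕ) (tab : List (List ℕ)) (p : ℕ × ℕ) :
    canHalve AT m K tab p = true ↔ tv tab p.1 p.2 < K ∧
      (AT.length : ℤ) * (PP (av AT) AT.length m K (bump (tv tab) p.1 p.2)).det ≤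
        ((AT.length - 4 : ℕ) : ℤ) * (PP (av AT) AT.length m K (tv tab)).det := by
  unfold canHalve
  rw [Bool.and_eq_true, decide_eq_true_eq, nle_iff, nval_nmul, nval_nmul, nval_nofNat, nval_nofNat,
    nval_detL, nval_detL, mat_PPL, mat_PPL,
    PP_congr (av AT) AT.length m K (t := tv (bumpL AT.length m tab p)) (fun g hg j hj =>
      tv_bumpL tab p hg hj)]

/-- One step: halve a weight if possible. -/
def isoStep (AT : List (List Num)) (m K : ℕ) (tab : List (List ℕ)) : List (List ℕ) :=
  match (idx AT.length m).find? (canHalve AT m K tab) with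
  | some p => bumpL AT.length m tab p
  | none => tab

/-- The number of steps. -/
def isoK (AT : List (List Num)) (m : ℕ) : ℕ :=
  AT.length * (m * (2 * m + AT.length + 2 * sz AT + 4)) + 1

/-- The exponents of the radial isotropic position. -/
def isoTab (AT : List (List Num)) (m : ℕ) : List (List ℕ) :=
  (isoStep AT m (isoK AT m))^[isoK AT m] []

lemma abs_av_le (AT : List (List Num)) (g k : ℕ) : |av AT g k| ≤ 2 ^ sz AT :=
  (abs_nval_lt _).le.trans (by exact_mod_cast Nat.pow_le_pow_right (by norm_num) (wid_entry_le AT g k))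

/-- The invariant of the loop. -/
structure IsoInv (AT : List (List Num)) (m K i : ℕ) (tab : List (List ℕ)) : Prop where
  le : ∀ g < AT.length, ∀ j < m, tv tab g j ≤ K
  sum : ∑ g ∈ range AT.length, ∑ j ∈ range m, tv tab g j = i
  pot : (AT.length : ℤ) ^ i * (PP (av AT) AT.length m K (tv tab)).det ≤
    ((AT.length - 4 : ℕ) : ℤ) ^ i * (PP (av AT) AT.length m K fun _ _ => 0).det

lemma tv_nil (g j : ℕ) : tv [] g j = 0 := by simp [tv]

lemma IsoInv.zero (AT : List (List Num)) (m K : ℕ) : IsoInv AT m K 0 [] :=
  ⟨fun g _ j _ => by simp [tv_nil], by simp [tv_nil], by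
    rw [show tv [] = fun _ _ => 0 from by funext g j; exact tv_nil g j, pow_zero, pow_zero]⟩

lemma sum_bump {n m : ℕ} (t : ℕ → ℕ → ℕ) {g j : ℕ} (hg : g < n) (hj : j < m) :
    ∑ g' ∈ range n, ∑ j' ∈ range m, bump t g j g' j' =
      ∑ g' ∈ range n, ∑ j' ∈ range m, t g' j' + 1 := by
  have h1 : ∀ g' j', bump t g j g' j' = t g' j' + if g' = g then (if j' = j then 1 else 0) else 0 := by
    intro g' j'
    unfold bump
    by_cases h1 : g' = g <;> by_cases h2 : j' = j <;> simp [h1, h2]
  simp only [h1, Finset.sum_add_distrib]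
  congr 1
  rw [Finset.sum_eq_single g]
  · simp [hj]
  · intro b _ hb
    simp [hb]
  · intro h
    exact absurd (Finset.mem_range.2 hg) h

lemma IsoInv.step {AT : List (List Num)} {m K i : ℕ} {tab : List (List ℕ)}
    (h : IsoInv AT m K i tab) {p : ℕ × ℕ} (hp : p ∈ idx AT.length m)
    (hc : canHalve AT m K tab p = true) :
    IsoInv AT m K (i + 1) (bumpL AT.length m tab p) := by
  obtain ⟨hg, hj⟩ := mem_idx.1 hp
  obtain ⟨h1, h2⟩ := (canHalve_iff _ _ _ _ _).1 hc
  refine ⟨?_, ?_, ?_⟩
  · intro g hg' j hj'
    rw [tv_bumpL _ _ hg' hj']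
    unfold bump
    split_ifs
    · omega
    · exact h.le g hg' j hj'
  · rw [← h.sum, ← sum_bump _ hg hj]
    exact Finset.sum_congr rfl fun g' hg' => Finset.sum_congr rfl fun j' hj' =>
      tv_bumpL _ _ (Finset.mem_range.1 hg') (Finset.mem_range.1 hj')
  · rw [PP_congr (av AT) AT.length m K (t := tv (bumpL AT.length m tab p)) (fun g hg j hj =>
      tv_bumpL tab p hg hj)]
    calc (AT.length : ℤ) ^ (i + 1) * (PP (av AT) AT.length m K (bump (tv tab) p.1 p.2)).det
        = (AT.length : ℤ) ^ i * ((AT.length : ℤ) *
            (PP (av AT) AT.length m K (bump (tv tab) p.1 p.2)).det) := by ring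
      _ ≤ (AT.length : ℤ) ^ i * (((AT.length - 4 : ℕ) : ℤ) *
            (PP (av AT) AT.length m K (tv tab)).det) :=
          mul_le_mul_of_nonneg_left h2 (by positivity)
      _ = ((AT.length - 4 : ℕ) : ℤ) * ((AT.length : ℤ) ^ i *
            (PP (av AT) AT.length m K (tv tab)).det) := by ring
      _ ≤ ((AT.length - 4 : ℕ) : ℤ) * (((AT.length - 4 : ℕ) : ℤ) ^ i *
            (PP (av AT) AT.length m K fun _ _ => 0).det) :=
          mul_le_mul_of_nonneg_left h.pot (by positivity)
      _ = _ := by ring

/-- After `i` steps either the invariant holds with `i` halvings, or no weight can be halved. -/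
lemma isoStep_iter (AT : List (List Num)) (m K i : ℕ) :
    IsoInv AT m K i ((isoStep AT m K)^[i] []) ∨
      ∃ i' < i, IsoInv AT m K i' ((isoStep AT m K)^[i] []) ∧
        ∀ p ∈ idx AT.length m, canHalve AT m K ((isoStep AT m K)^[i] []) p = false := by
  induction i with
  | zero => exact Or.inl (IsoInv.zero AT m K)
  | succ i ih =>
    rw [Function.iterate_succ_apply']
    set tab := (isoStep AT m K)^[i] []
    rcases hf : (idx AT.length m).find? (canHalve AT m K tab) with _ | p
    · have h1 : isoStep AT m K tab = tab := by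
        unfold isoStep
        rw [hf]
      rw [h1]
      have h2 : ∀ p ∈ idx AT.length m, canHalve AT m K tab p = false := by
        intro p hp
        have := List.find?_eq_none.1 hf p hp
        simpa using this
      right
      rcases ih with h | ⟨i', hi', h, _⟩
      · exact ⟨i, by omega, h, h2⟩
      · exact ⟨i', by omega, h, h2⟩
    · have h1 : isoStep AT m K tab = bumpL AT.length m tab p := by
        unfold isoStep
        rw [hf]
      rw [h1]
      have h2 := List.find?_some hf
      have h3 := List.mem_of_find?_eq_some hf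
      rcases ih with h | ⟨i', _, _, h⟩
      · exact Or.inl (h.step h3 h2)
      · rw [h p h3] at h2
        cases h2

/-- The exponents at the end: no weight can be halved. -/
theorem isoTab_spec (AT : List (List Num)) (m : ℕ) (hn : 0 < AT.length) {g j : ℕ}
    (hg : g < AT.length) (hj : j < m) : tv (isoTab AT m) g j < isoK AT m ∧
      ¬ ((AT.length : ℤ) * (PP (av AT) AT.length m (isoK AT m) (bump (tv (isoTab AT m)) g j)).det ≤
        ((AT.length - 4 : ℕ) : ℤ) * (PP (av AT) AT.length m (isoK AT m) (tv (isoTab AT m))).det) := by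
  have hB := det_PP_le (av AT) AT.length m (sz AT) fun g _ k _ => abs_av_le AT g k
  have key : ∀ i, IsoInv AT m (isoK AT m) i (isoTab AT m) → 2 * i ≤ isoK AT m - 1 := fun i h =>
    iter_bound (av AT) (tv (isoTab AT m)) hn h.le h.sum hB h.pot
  rcases isoStep_iter AT m (isoK AT m) (isoK AT m) with h | ⟨i', _, h, h2⟩
  · have h1 := key _ h
    have h2 : 1 ≤ isoK AT m := Nat.succ_pos _
    omega
  · have h1 := key _ h
    have h3 : tv (isoTab AT m) g j ≤ i' := by
      rw [← h.sum]
      calc tv (isoTab AT m) g j ≤ ∑ j ∈ range m, tv (isoTab AT m) g j :=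
            Finset.single_le_sum (f := fun j => tv (isoTab AT m) g j) (fun _ _ => Nat.zero_le _)
              (Finset.mem_range.2 hj)
        _ ≤ _ := Finset.single_le_sum
              (f := fun g => ∑ j ∈ range m, tv (isoTab AT m) g j) (fun _ _ => Nat.zero_le _)
              (Finset.mem_range.2 hg)
    have h4 : 1 ≤ isoK AT m := Nat.succ_pos _
    have h5 : tv (isoTab AT m) g j < isoK AT m := by omega
    refine ⟨h5, fun h6 => ?_⟩
    have h7 := h2 (g, j) (mem_idx.2 ⟨hg, hj⟩)
    have h8 := (canHalve_iff AT m (isoK AT m) (isoTab AT m) (g, j)).2 ⟨h5, h6⟩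
    rw [show (isoStep AT m (isoK AT m))^[isoK AT m] [] = isoTab AT m from rfl] at h7
    rw [h7] at h8
    cases h8

/-! ## The filter -/

/-- The contribution of one vector. -/
def zcell (AT : List (List Num)) (K : ℕ) (tab : List (List ℕ)) (sg : List Bool) (k : ℕ)
    (p : ℕ × ℕ) : Num :=
  bif sg.getD p.1 true then nmul (npow2 (K - tv tab p.1 p.2)) (vvL AT p.1 p.2 k)
  else nneg (nmul (npow2 (K - tv tab p.1 p.2)) (vvL AT p.1 p.2 k))

/-- Sum of the weighted vectors with signs. -/
def zzL (AT : List (List Num)) (m K : ℕ) (tab : List (List ℕ)) (sg : List Bool) (k : ℕ) : Num :=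
  nsum ((idx AT.length m).map fun p => zcell AT K tab sg k p)

lemma nval_zzL (AT : List (List Num)) (m K : ℕ) (tab : List (List ℕ)) (sg : List Bool)
    (k : Fin m) : nval (zzL AT m K tab sg k) =
      zz (av AT) AT.length m K (tv tab) (fun g => sgn (sg.getD g true)) k := by
  unfold zzL zz
  rw [nval_nsum, List.map_map, sum_idx]
  refine Finset.sum_congr rfl fun g _ => Finset.sum_congr rfl fun j _ => ?_
  simp only [Function.comp_apply, zcell]
  cases sg.getD g true
  · simp only [cond_false, nval_nneg, nval_nmul, nval_npow2, nval_vvL, sgn, Bool.false_eq_true,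
      if_false]
    ring
  · simp only [cond_true, nval_nmul, nval_npow2, nval_vvL, sgn, if_true]
    ring

/-- An entry of the matrix of the test. -/
def tcell (AT : List (List Num)) (m K : ℕ) (tab : List (List ℕ)) (sg : List Bool) (k l : ℕ) : Num :=
  nadd (nmul (nofNat AT.length) (entry (PPL AT m K tab) k l))
    (nneg (nmul (nofNat 24) (nmul (zzL AT m K tab sg k) (zzL AT m K tab sg l))))

/-- The matrix of the test. -/
def TTL (AT : List (List Num)) (m K : ℕ) (tab : List (List ℕ)) (sg : List Bool) :
    List (List Num) :=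
  (List.range m).map fun k => (List.range m).map fun l => tcell AT m K tab sg k l

lemma mat_TTL (AT : List (List Num)) (m K : ℕ) (tab : List (List ℕ)) (sg : List Bool) :
    mat m (TTL AT m K tab sg) =
      TT (av AT) AT.length m K (tv tab) (fun g => sgn (sg.getD g true)) := by
  ext k l
  unfold mat TTL TT
  rw [entry_tab _ _ _ k.2 l.2, tcell, nval_nadd, nval_nneg, nval_nmul, nval_nmul, nval_nmul, nval_PPL,
    nval_zzL, nval_zzL, nval_nofNat, nval_nofNat]
  push_cast
  ring

/-- Is the sign vector correlated with the vectors in isotropic position? -/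
def keepIso (AT : List (List Num)) (m : ℕ) (sg : List Bool) : Bool :=
  nle (detL m (TTL AT m (isoK AT m) (isoTab AT m) sg)) (nofNat 0)

/-- Are the parities of `c` correlated with the vectors in isotropic position? -/
def keepC (m : ℕ) (vt : Item → List Num) (G : List Item) (c : Word) : Bool :=
  keepIso (G.map vt) m (G.map fun e => par e.1 c)

/-- The filter: keep the candidates whose parities are correlated with the vectors in isotropic
position. -/
def isoAgree (m : ℕ) (vt : Item → List Num) (B : List Word) (G : List Item) : List Word :=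
  B.filter fun c => keepC m vt G c

lemma mem_isoAgree_iff {m : ℕ} {vt : Item → List Num} {B : List Word} {G : List Item} {c : Word} :
    c ∈ isoAgree m vt B G ↔ c ∈ B ∧ (TT (av (G.map vt)) G.length m (isoK (G.map vt) m)
      (tv (isoTab (G.map vt) m)) (fun g => sgn ((G.map fun e => par e.1 c).getD g true))).det ≤ 0 := by
  unfold isoAgree keepC keepIso
  rw [List.mem_filter, nle_iff, nval_detL, mat_TTL, nval_nofNat, List.length_map]
  simp

/-- Few candidates pass the filter. -/
theorem length_isoAgree {m : ℕ} {vt : Item → List Num} {R B : List Word} (hB : B.Nodup)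
    (horth : Orth R B) {G : List Item} (hG : Shape R G) {ρ : ℕ} (hR : 0 < R.length)
    (hρ : R.length ≤ ρ * G.length) : (isoAgree m vt B G).length ≤ 24 * m ^ 2 * ρ := by
  classical
  have hn : 0 < G.length := by
    rcases Nat.eq_zero_or_pos G.length with h | h
    · rw [h] at hρ; omega
    · exact h
  have hsub : List.Sublist (G.map Prod.fst) R := by
    obtain ⟨mf, f, rfl⟩ := hG
    rw [List.map_map]
    have h1 : (Prod.fst ∘ fun r : Word => ((r, f r) : Item)) = id := rfl
    rw [h1, List.map_id]
    exact List.filter_sublist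
  obtain ⟨φ, hφ⟩ := List.sublist_iff_exists_orderEmbedding_getElem?_eq.1 hsub
  have hφN : ∀ g < G.length, φ g < R.length := by
    intro g hg
    have h1 := hφ g
    have h2 : g < (G.map Prod.fst).length := by rwa [List.length_map]
    rw [List.getElem?_eq_getElem h2] at h1
    exact (List.getElem?_eq_some_iff.1 h1.symm).1
  have hnod : (isoAgree m vt B G).Nodup := hB.filter _
  let χ : Word → ℕ → ℤ := fun c i => sgn (par (R.getD i []) c)
  have hsgn : ∀ b, sgn b = 1 ∨ sgn b = -1 := by
    intro b; cases b <;> simp [sgn]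
  have h := card_TT_le (av (G.map vt)) (K := isoK (G.map vt) m) (m := m)
    (tv (isoTab (G.map vt) m)) hn (isoAgree m vt B G).toFinset R.length φ
    (φ.injective.injOn) hφN χ (fun c _ i _ => hsgn _) ?_ ?_
  · rw [List.toFinset_card_of_nodup hnod] at h
    have h1 : (isoAgree m vt B G).length * G.length ≤ 24 * m ^ 2 * ρ * G.length := by
      calc _ ≤ 24 * m ^ 2 * R.length := h
        _ ≤ 24 * m ^ 2 * (ρ * G.length) := Nat.mul_le_mul_left _ hρ
        _ = _ := by ring
    exact Nat.le_of_mul_le_mul_right h1 hn
  · intro c hc c' hc' hne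
    have h1 := horth c (mem_isoAgree_iff.1 (List.mem_toFinset.1 hc)).1 c'
      (mem_isoAgree_iff.1 (List.mem_toFinset.1 hc')).1 hne
    rw [← h1]
    have h2 : ∀ L : List Word, ∑ i ∈ range L.length, sgn (par (L.getD i []) c) *
        sgn (par (L.getD i []) c') = (L.map fun r => sgn (par r c == par r c')).sum := by
      intro L
      have h3 : ∀ r, sgn (par r c) * sgn (par r c') = sgn (par r c == par r c') := by
        intro r
        cases par r c <;> cases par r c' <;> simp [sgn]
      induction L with
      | nil => simp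
      | cons r L ih =>
        rw [List.length_cons, Finset.sum_range_succ', List.map_cons, List.sum_cons, ← ih]
        simp only [List.getD_cons_succ, List.getD_cons_zero, h3]
        ring
    exact h2 R
  · intro c hc
    have h1 := (mem_isoAgree_iff.1 (List.mem_toFinset.1 hc)).2
    refine le_of_eq_of_le ?_ h1
    congr 1
    ext k l
    have h2 : ∀ g ∈ range G.length, χ c (φ g) =
        sgn ((G.map fun e => par e.1 c).getD g true) := by
      intro g hg
      rw [Finset.mem_range] at hg
      have h3 := hφ g
      have h4 : g < (G.map Prod.fst).length := by rwa [List.length_map]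
      rw [List.getElem?_eq_getElem h4, List.getElem_map] at h3
      simp only [χ]
      rw [List.getD_eq_getElem?_getD, ← h3, List.getD_eq_getElem?_getD, List.getElem?_map,
        List.getElem?_eq_getElem hg]
      rfl
    unfold TT zz
    have h5 : ∀ k : Fin m, ∑ g ∈ range G.length, ∑ j ∈ range m, χ c (φ g) *
        2 ^ (isoK (G.map vt) m - tv (isoTab (G.map vt) m) g j) * vv (av (G.map vt)) g j k =
        ∑ g ∈ range G.length, ∑ j ∈ range m, sgn ((G.map fun e => par e.1 c).getD g true) *
        2 ^ (isoK (G.map vt) m - tv (isoTab (G.map vt) m) g j) * vv (av (G.map vt)) g j k :=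
      fun k => Finset.sum_congr rfl fun g hg => by rw [h2 g hg]
    rw [h5 k, h5 l]

/-- The right candidate passes the filter. -/
theorem mem_isoAgree {m : ℕ} {vt : Item → List Num} {B : List Word} {G : List Item} {u : Word}
    (hm : 0 < m) (w : ℕ → ℤ) (hw : ∀ k, |w k| ≤ 1) (p : Item → Prop) [DecidablePred p]
    (hp : ∀ e ∈ G, p e →
      0 < sgn (par e.1 u) * ∑ k ∈ range m, w k * nval ((vt e).getD k ([], [])))
    (hpos : 0 < G.length)
    (hbad : 24 * m * (G.filter fun e => decide (¬ p e)).length ≤ G.length) (hu : u ∈ B) :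
    u ∈ isoAgree m vt B G := by
  classical
  refine mem_isoAgree_iff.2 ⟨hu, ?_⟩
  have hlen : (G.map vt).length = G.length := List.length_map _
  have hspec : ∀ g j, g < G.length → j < m → tv (isoTab (G.map vt) m) g j < isoK (G.map vt) m ∧
      ¬ ((G.length : ℤ) * (PP (av (G.map vt)) G.length m (isoK (G.map vt) m)
        (bump (tv (isoTab (G.map vt) m)) g j)).det ≤ ((G.length - 4 : ℕ) : ℤ) *
        (PP (av (G.map vt)) G.length m (isoK (G.map vt) m) (tv (isoTab (G.map vt) m))).det) := by
    intro g j hg hj
    have h := isoTab_spec (G.map vt) m (by rw [hlen]; exact hpos) (g := g) (j := j)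
      (by rw [hlen]; exact hg) hj
    rw [hlen] at h
    exact h
  have hsgn : ∀ b, sgn b = 1 ∨ sgn b = -1 := by
    intro b; cases b <;> simp [sgn]
  refine det_TT_le (av (G.map vt)) (tv (isoTab (G.map vt) m)) hpos hm w _
    (fun g _ => hsgn _) (fun g hg j hj => ?_)
    ((range G.length).filter fun g => ¬ p (G.getD g ([], []))) ?_ ?_
  · exact leverage (av (G.map vt)) (tv (isoTab (G.map vt) m)) hg hj (hspec g j hg hj).1
      (hspec g j hg hj).2 w
  · refine le_trans (Nat.mul_le_mul_left _ ?_) hbad
    have h1 : ∀ L : List Item, ((range L.length).filter fun g => ¬ p (L.getD g ([], []))).card =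
        (L.filter fun e => decide (¬ p e)).length := by
      intro L
      rw [Finset.card_filter]
      induction L with
      | nil => simp
      | cons e L ih =>
        rw [List.length_cons, Finset.sum_range_succ', List.filter_cons]
        simp only [List.getD_cons_succ, List.getD_cons_zero]
        rw [ih]
        by_cases he : p e
        · simp [he]
        · simp [he]
    exact (h1 G).le
  · intro g hg hgb j hj
    have hpg : p (G.getD g ([], [])) := by
      by_contra h
      exact hgb (Finset.mem_filter.2 ⟨Finset.mem_range.2 hg, h⟩)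
    have hGg : G.getD g ([], []) = G[g] := by
      rw [List.getD_eq_getElem?_getD, List.getElem?_eq_getElem hg]; rfl
    rw [hGg] at hpg
    have h1 := hp G[g] (List.getElem_mem hg) hpg
    have h2 : (G.map fun e => par e.1 u).getD g true = par G[g].1 u := by
      rw [List.getD_eq_getElem?_getD, List.getElem?_map, List.getElem?_eq_getElem hg]; rfl
    rw [h2]
    have h3 : ∀ k, nval ((vt G[g]).getD k ([], [])) = av (G.map vt) g k := by
      intro k
      unfold av entry
      rw [List.getD_eq_getElem?_getD (l := G.map vt), List.getElem?_map,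
        List.getElem?_eq_getElem hg]
      rfl
    simp only [h3] at h1
    have h4 : ∑ k ∈ range m, w k * vv (av (G.map vt)) g j k =
        2 * (∑ k ∈ range m, w k * av (G.map vt) g k) + w j := by
      unfold vv
      simp only [mul_add, Finset.sum_add_distrib, Finset.mul_sum]
      congr 1
      · exact Finset.sum_congr rfl fun k _ => by ring
      · rw [Finset.sum_eq_single j]
        · simp
        · intro b _ hb
          simp [hb]
        · intro h
          exact absurd (Finset.mem_range.2 hj) h
    unfold yy
    rw [h4]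
    have h5 := abs_le.1 (hw j)
    have h6 : 0 < sgn (par G[g].1 u) * (2 * (∑ k ∈ range m, w k * av (G.map vt) g k) + w j) := by
      rcases hsgn (par G[g].1 u) with h | h
      · rw [h] at h1 ⊢
        linarith [h5.1]
      · rw [h] at h1 ⊢
        linarith [h5.2]
    calc 0 < 2 ^ (isoK (G.map vt) m - tv (isoTab (G.map vt) m) g j) *
          (sgn (par G[g].1 u) * (2 * (∑ k ∈ range m, w k * av (G.map vt) g k) + w j)) :=
          mul_pos (by positivity) h6
      _ = _ := by ring

end Pool.Agent.Lib.MP_634427_lc.LT
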