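import Pool.Agent.Lib.MP_634427_lc.LT.IsoPT
import Pool.Agent.Lib.MP_634427_lc.LT.Hash
import Pool.Agent.Lib.MP_634427_lc.LT.WModel
import Pool.Agent.Lib.MP_634427_lc.KNoPT

/-!
# The integer vectors attached to weighted votes

Bundles of boundedly many words in `0*` have their own coordinates; all other bundles are replaced
by their fingerprints.
-/

namespace Pool.Agent.Lib.MP_634427_lc.LT

open Finset

/-- A vote: a weight and a bundle of words. -/
abbrev Vote := (Bool × Word) × List Word

lemma ofDigits_eq (l : Word) : ofDigits l = bval l := by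
  induction l with
  | nil => rfl
  | cons b l ih => rw [ofDigits, bval, ih]

/-- The weight as a number. -/
def numW (a : Bool × Word) : Num := bif a.1 then (a.2, []) else ([], a.2)

lemma nval_numW (a : Bool × Word) : nval (numW a) = weight a := by
  unfold numW weight nval
  cases a.1
  · simp [ofDigits_eq]
  · simp [ofDigits_eq]

/-- The bundles of at most `k` words in `0*` of length at most `ℓ`. -/
def keysT (ℓ : ℕ) : ℕ → List (List Word)
  | 0 => [[]]
  | k + 1 => [] :: (List.range (ℓ + 1)).flatMap fun i =>
      (keysT ℓ k).map fun κ => List.replicate i false :: κ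

lemma onlyZeros_iff (w : Word) : onlyZeros w = true ↔ w = List.replicate w.length false := by
  rw [List.eq_replicate_iff]
  simp [onlyZeros]

lemma mem_keysT {ℓ k : ℕ} {κ : List Word} : κ ∈ keysT ℓ k ↔
    κ.length ≤ k ∧ ∀ w ∈ κ, onlyZeros w = true ∧ w.length ≤ ℓ := by
  induction k generalizing κ with
  | zero =>
    simp only [keysT, List.mem_singleton, Nat.le_zero, List.length_eq_zero_iff]
    constructor
    · rintro rfl
      simp
    · exact fun h => h.1
  | succ k ih =>
    simp only [keysT, List.mem_cons, List.mem_flatMap, List.mem_range, List.mem_map]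
    constructor
    · rintro (rfl | ⟨i, hi, κ', hκ', rfl⟩)
      · simp
      · obtain ⟨h1, h2⟩ := ih.1 hκ'
        refine ⟨by rw [List.length_cons]; omega, fun w hw => ?_⟩
        rcases List.mem_cons.1 hw with rfl | hw
        · refine ⟨?_, by rw [List.length_replicate]; omega⟩
          rw [onlyZeros_iff, List.length_replicate]
        · exact h2 w hw
    · rintro ⟨h1, h2⟩
      rcases κ with _ | ⟨w, κ⟩
      · exact Or.inl rfl
      · right
        obtain ⟨h3, h4⟩ := h2 w (List.mem_cons_self)
        refine ⟨w.length, by omega, κ, ih.2 ⟨by rw [List.length_cons] at h1; omega,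
          fun w' hw' => h2 w' (List.mem_cons_of_mem _ hw')⟩, ?_⟩
        rw [← (onlyZeros_iff w).1 h3]

lemma nodup_keysT (ℓ k : ℕ) : (keysT ℓ k).Nodup := by
  induction k with
  | zero => simp [keysT]
  | succ k ih =>
    rw [keysT, List.nodup_cons]
    refine ⟨by simp, ?_⟩
    rw [List.nodup_flatMap]
    refine ⟨fun i _ => ih.map (fun a b h => by simpa using h), ?_⟩
    refine List.Pairwise.imp_of_mem ?_ (List.nodup_range (n := ℓ + 1))
    intro i j _ _ hij κ h1 h2
    obtain ⟨a, _, ha⟩ := List.mem_map.1 h1
    obtain ⟨b, _, hb⟩ := List.mem_map.1 h2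
    rw [← hb] at ha
    have h3 : List.replicate i false = List.replicate j false := (List.cons.inj ha).1
    have := congrArg List.length h3
    simp only [List.length_replicate] at this
    exact hij this

/-- The code of a bundle. -/
def cd (κ : List Word) : Word := code (enc κ)

lemma cd_injective : Function.Injective cd := fun _ _ h =>
  enc_list_injective enc_word_injective (code_injective h)

lemma length_cd (κ : List Word) : (cd κ).length = 2 * sz κ + 1 := length_code _

/-- Coefficient of a bundle of tally words. -/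
def coefA (p : ℕ) (out : List Vote) (κ : List Word) : Num :=
  nmul (nofNat (2 * p)) (nsum ((out.filter fun e => decide (e.2 = κ)).map fun e => numW e.1))

/-- Twice the sign. -/
def sgn2 (b : Bool) : Num := bif b then nofNat 2 else nneg (nofNat 2)

/-- Coefficient of a fingerprint. -/
def coefB (ℓ k p : ℕ) (out : List Vote) (x y : ℕ) : Num :=
  nsum ((out.filter fun e => !decide (e.2 ∈ keysT ℓ k) && decide (hsh p x (cd e.2) = y)).map
    fun e => sgn2 e.1.1)

/-- The vector of a list of votes. -/
def wvec (ℓ k p : ℕ) (out : List Vote) : List Num :=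
  (keysT ℓ k).map (coefA p out) ++ (idx p p).map (fun q => coefB ℓ k p out q.1 q.2) ++
    [nneg (nofNat p)]

/-- The dimension. -/
def wdim (ℓ k p : ℕ) : ℕ := (keysT ℓ k).length + (idx p p).length + 1

lemma length_wvec (ℓ k p : ℕ) (out : List Vote) : (wvec ℓ k p out).length = wdim ℓ k p := by
  simp [wvec, wdim, Nat.add_assoc]

open Classical in
/-- The right functional. -/
noncomputable def wfun (S : Set Word) (T : Finset (List Word)) (ℓ k p : ℕ) : List ℤ :=
  (keysT ℓ k).map (fun κ => if ∀ w ∈ κ, w ∈ S then 1 else 0) ++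
    (idx p p).map (fun q => if ∃ κ ∈ T, hsh p q.1 (cd κ) = q.2 then 1 else 0) ++ [1]

lemma length_wfun (S : Set Word) (T : Finset (List Word)) (ℓ k p : ℕ) :
    (wfun S T ℓ k p).length = wdim ℓ k p := by
  simp [wfun, wdim, Nat.add_assoc]

lemma abs_wfun_le (S : Set Word) (T : Finset (List Word)) (ℓ k p i : ℕ) :
    |(wfun S T ℓ k p).getD i 0| ≤ 1 := by
  have h : ∀ a ∈ wfun S T ℓ k p, |a| ≤ 1 := by
    intro a ha
    unfold wfun at ha
    simp only [List.mem_append, List.mem_map, List.mem_singleton] at ha
    rcases ha with (⟨κ, _, rfl⟩ | ⟨q, _, rfl⟩) | rfl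
    · split_ifs <;> simp
    · split_ifs <;> simp
    · simp
  rw [List.getD_eq_getElem?_getD]
  rcases h' : (wfun S T ℓ k p)[i]? with _ | a
  · simp
  · exact h a (List.mem_of_getElem? h')

lemma sum_getD_eq (V : List Num) : ∀ (W : List ℤ), V.length = W.length →
    ∑ k ∈ range V.length, W.getD k 0 * nval (V.getD k ([], [])) =
      (List.zipWith (fun w v => w * nval v) W V).sum := by
  induction V with
  | nil => intro W h; simp
  | cons v V ih =>
    intro W h
    rcases W with _ | ⟨w, W⟩
    · simp at h
    · rw [List.length_cons, Finset.sum_range_succ', List.zipWith_cons_cons, List.sum_cons,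
        ← ih W (by simpa using h)]
      simp only [List.getD_cons_succ, List.getD_cons_zero]
      ring

section sums

variable {S : Set Word} {T : Finset (List Word)} {ℓ k p : ℕ}

open Classical in
/-- The part of the pairing from the tally bundles. -/
noncomputable def partA (S : Set Word) (ℓ k p : ℕ) (out : List Vote) : ℤ :=
  ((keysT ℓ k).map fun κ => (if ∀ w ∈ κ, w ∈ S then 1 else 0) * nval (coefA p out κ)).sum

open Classical in
/-- The part of the pairing from the fingerprints. -/
noncomputable def partB (T : Finset (List Word)) (ℓ k p : ℕ) (out : List Vote) : ℤ :=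
  ∑ x ∈ range p, ∑ y ∈ range p,
    (if ∃ κ ∈ T, hsh p x (cd κ) = y then 1 else 0) * nval (coefB ℓ k p out x y)

lemma pairing_eq (out : List Vote) :
    ∑ i ∈ range (wdim ℓ k p), (wfun S T ℓ k p).getD i 0 *
      nval ((wvec ℓ k p out).getD i ([], [])) =
    partA S ℓ k p out + partB T ℓ k p out - p := by
  classical
  rw [← length_wvec ℓ k p out, sum_getD_eq _ _ (by rw [length_wvec, length_wfun])]
  unfold wfun wvec partA partB
  rw [List.zipWith_append (by simp), List.zipWith_append (by simp), List.sum_append,
    List.sum_append]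
  have h1 : ∀ {α : Type} (L : List α) (f : α → ℤ) (g : α → Num),
      (List.zipWith (fun w v => w * nval v) (L.map f) (L.map g)).sum =
        (L.map fun a => f a * nval (g a)).sum := by
    intro α L f g
    induction L with
    | nil => rfl
    | cons a L ih => simp only [List.map_cons, List.zipWith_cons_cons, List.sum_cons, ih]
  rw [h1, h1, sum_idx p p fun q => (if ∃ κ ∈ T, hsh p q.1 (cd κ) = q.2 then (1 : ℤ) else 0) *
    nval (coefB ℓ k p out q.1 q.2)]
  simp only [List.zipWith_cons_cons, List.zipWith_nil_left, List.sum_cons, List.sum_nil,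
    nval_nneg, nval_nofNat]
  ring

lemma nval_coefA (out : List Vote) (κ : List Word) : nval (coefA p out κ) =
    2 * p * (out.map fun e => if e.2 = κ then weight e.1 else 0).sum := by
  unfold coefA
  rw [nval_nmul, nval_nofNat, nval_nsum, List.map_map]
  push_cast
  congr 1
  induction out with
  | nil => rfl
  | cons e out ih =>
    rw [List.filter_cons, List.map_cons, List.sum_cons]
    by_cases h : e.2 = κ
    · rw [if_pos (by simpa using h), if_pos h, List.map_cons, List.sum_cons, ih]
      simp only [Function.comp_apply, nval_numW]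
    · rw [if_neg (by simpa using h), if_neg h, ih]
      ring

lemma sum_ite_mem {α : Type} [DecidableEq α] (L : List α) (hL : L.Nodup) (a : α) (f : α → ℤ) :
    (L.map fun b => if a = b then f b else 0).sum = if a ∈ L then f a else 0 := by
  induction L with
  | nil => simp
  | cons b L ih =>
    rw [List.map_cons, List.sum_cons, ih (List.nodup_cons.1 hL).2]
    by_cases h : a = b
    · subst h
      have h1 := (List.nodup_cons.1 hL).1
      simp [h1]
    · simp [h]

open Classical in
lemma partA_eq (out : List Vote) : partA S ℓ k p out =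
    2 * p * (out.map fun e => if e.2 ∈ keysT ℓ k then
      (if ∀ w ∈ e.2, w ∈ S then weight e.1 else 0) else 0).sum := by
  unfold partA
  simp only [nval_coefA]
  induction out with
  | nil => simp
  | cons e out ih =>
    simp only [List.map_cons, List.sum_cons, mul_add, List.sum_map_add]
    rw [ih]
    congr 1
    have h1 : ∀ κ : List Word, (if ∀ w ∈ κ, w ∈ S then (1 : ℤ) else 0) *
        (2 * p * if e.2 = κ then weight e.1 else 0) =
        if e.2 = κ then 2 * p * (if ∀ w ∈ κ, w ∈ S then weight e.1 else 0) else 0 := by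
      intro κ
      by_cases h2 : e.2 = κ
      · rw [if_pos h2, if_pos h2]
        by_cases h3 : ∀ w ∈ κ, w ∈ S
        · rw [if_pos h3, if_pos h3]; ring
        · rw [if_neg h3, if_neg h3]; ring
      · rw [if_neg h2, if_neg h2]; ring
    simp only [h1]
    rw [sum_ite_mem (keysT ℓ k) (nodup_keysT ℓ k) e.2]
    by_cases h : e.2 ∈ keysT ℓ k
    · rw [if_pos h, if_pos h]
    · rw [if_neg h, if_neg h]; ring

lemma nval_sgn2 (b : Bool) : nval (sgn2 b) = 2 * sgn b := by
  cases b
  · simp [sgn2, sgn, nval_nneg, nval_nofNat]
  · simp [sgn2, sgn, nval_nofNat]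

lemma nval_coefB (out : List Vote) (x y : ℕ) : nval (coefB ℓ k p out x y) =
    (out.map fun e => if e.2 ∉ keysT ℓ k then
      (if hsh p x (cd e.2) = y then 2 * sgn e.1.1 else 0) else 0).sum := by
  unfold coefB
  rw [nval_nsum, List.map_map]
  induction out with
  | nil => rfl
  | cons e out ih =>
    rw [List.filter_cons, List.map_cons, List.sum_cons]
    by_cases h : e.2 ∈ keysT ℓ k
    · rw [if_neg (by simp [h]), if_neg (by simpa using h), ih]
      ring
    · by_cases h2 : hsh p x (cd e.2) = y
      · rw [if_pos (by simp [h, h2]), if_pos h, if_pos h2, List.map_cons, List.sum_cons, ih]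
        simp only [Function.comp_apply, nval_sgn2]
      · rw [if_neg (by simp [h, h2]), if_pos h, if_neg h2, ih]
        ring

open Classical in
/-- The number of the points at which the fingerprint of the bundle is the one of a member
of `T`. -/
noncomputable def hits (T : Finset (List Word)) (p : ℕ) (κ : List Word) : ℕ :=
  ((range p).filter fun x => ∃ κ' ∈ T, hsh p x (cd κ') = hsh p x (cd κ)).card

lemma partB_eq (hp : 0 < p) (out : List Vote) : partB T ℓ k p out =
    (out.map fun e => if e.2 ∉ keysT ℓ k then 2 * sgn e.1.1 * (hits T p e.2 : ℤ) else 0).sum := by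
  classical
  unfold partB
  simp only [nval_coefB]
  induction out with
  | nil => simp
  | cons e out ih =>
    simp only [List.map_cons, List.sum_cons, mul_add, Finset.sum_add_distrib]
    rw [ih]
    congr 1
    by_cases h : e.2 ∈ keysT ℓ k
    · simp [h]
    · rw [if_pos h]
      have h1 : ∀ x ∈ range p, ∑ y ∈ range p,
          (if ∃ κ ∈ T, hsh p x (cd κ) = y then (1 : ℤ) else 0) *
            (if e.2 ∉ keysT ℓ k then (if hsh p x (cd e.2) = y then 2 * sgn e.1.1 else 0) else 0) =
          if ∃ κ' ∈ T, hsh p x (cd κ') = hsh p x (cd e.2) then 2 * sgn e.1.1 else 0 := by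
        intro x _
        rw [Finset.sum_eq_single (hsh p x (cd e.2))]
        · rw [if_pos h, if_pos rfl]
          split_ifs <;> simp
        · intro y _ hy
          rw [if_pos h, if_neg (Ne.symm hy), mul_zero]
        · intro hn
          exact absurd (Finset.mem_range.2 (hsh_lt hp _)) hn
      rw [Finset.sum_congr rfl h1, hits, Finset.card_filter]
      push_cast
      rw [Finset.mul_sum]
      refine Finset.sum_congr rfl fun x _ => ?_
      split_ifs <;> simp

lemma hits_mem {κ : List Word} (h : κ ∈ T) : hits T p κ = p := by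
  classical
  unfold hits
  rw [Finset.filter_true_of_mem, Finset.card_range]
  exact fun x _ => ⟨κ, h, rfl⟩

lemma hits_le {κ : List Word} {lam : ℕ} (hp : p.Prime) (h : κ ∉ T)
    (hT : ∀ κ' ∈ T, (cd κ').length ≤ lam) (hκ : (cd κ).length ≤ lam) :
    hits T p κ ≤ T.card * lam := by
  classical
  have h1 : ((range p).filter fun x => ∃ κ' ∈ T, hsh p x (cd κ') = hsh p x (cd κ)) ⊆
      T.biUnion fun κ' => (range p).filter fun x => hsh p x (cd κ') = hsh p x (cd κ) := by
    intro x hx
    obtain ⟨hx1, κ', h2, h3⟩ := Finset.mem_filter.1 hx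
    exact Finset.mem_biUnion.2 ⟨κ', h2, Finset.mem_filter.2 ⟨hx1, h3⟩⟩
  refine (Finset.card_le_card h1).trans ((Finset.card_biUnion_le_card_mul _ _ lam fun κ' h2 => ?_))
  exact card_hsh_eq_le hp (hT κ' h2) hκ fun h3 => h (cd_injective h3 ▸ h2)

/-- The value of the right functional has the sign of the weighted vote. -/
theorem pairing_sign (hp : p.Prime) {out : List Vote} {lam : ℕ}
    (hT : ∀ κ' ∈ T, (cd κ').length ≤ lam)
    (hout : ∀ e ∈ out, e.2 ∈ keysT ℓ k ∨
      (e.1.2 = [true] ∧ (e.2 ∈ T ↔ ∀ w ∈ e.2, w ∈ S) ∧ (cd e.2).length ≤ lam))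
    (hbig : 2 * (out.length * (T.card * lam)) < p) (b : Bool)
    (hb : b = true ↔ 0 < votes S out) :
    0 < sgn b * ∑ i ∈ range (wdim ℓ k p), (wfun S T ℓ k p).getD i 0 *
      nval ((wvec ℓ k p out).getD i ([], [])) := by
  classical
  rw [pairing_eq, partA_eq, partB_eq hp.pos]
  have hsgn1 : ∀ b : Bool, |sgn b| = 1 := by intro b; cases b <;> simp [sgn]
  have key : |2 * (p : ℤ) * (out.map fun e => if e.2 ∈ keysT ℓ k then
      (if ∀ w ∈ e.2, w ∈ S then weight e.1 else 0) else 0).sum +
      (out.map fun e => if e.2 ∉ keysT ℓ k then 2 * sgn e.1.1 * (hits T p e.2 : ℤ) else 0).sum -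
      2 * p * votes S out| ≤ 2 * (out.length * (T.card * lam) : ℕ) := by
    clear hb hbig
    unfold votes
    induction out with
    | nil => simp
    | cons e out ih =>
      have ih' := ih fun e he => hout e (List.mem_cons_of_mem _ he)
      simp only [List.map_cons, List.sum_cons]
      set X := (out.map fun e => if e.2 ∈ keysT ℓ k then
        (if ∀ w ∈ e.2, w ∈ S then weight e.1 else 0) else 0).sum
      set Y := (out.map fun e => if e.2 ∉ keysT ℓ k then
        2 * sgn e.1.1 * (hits T p e.2 : ℤ) else 0).sum
      set Z := (out.map fun e : Vote => if ∀ w ∈ e.2, w ∈ S then weight e.1 else 0).sum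
      have h1 : |2 * (p : ℤ) * (if e.2 ∈ keysT ℓ k then
          (if ∀ w ∈ e.2, w ∈ S then weight e.1 else 0) else 0) +
          (if e.2 ∉ keysT ℓ k then 2 * sgn e.1.1 * (hits T p e.2 : ℤ) else 0) -
          2 * p * (if ∀ w ∈ e.2, w ∈ S then weight e.1 else 0)| ≤ 2 * ((T.card * lam : ℕ) : ℤ) := by
        by_cases h : e.2 ∈ keysT ℓ k
        · rw [if_pos h, if_neg (not_not.2 h)]
          simp only [add_zero, sub_self, abs_zero]
          positivity
        · obtain ⟨h2, h3, h4⟩ := (hout e List.mem_cons_self).resolve_left h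
          have h5 : weight e.1 = sgn e.1.1 := by
            unfold weight sgn
            rw [h2]
            cases e.1.1 <;> simp [ofDigits]
          rw [if_neg h, if_pos h]
          by_cases h6 : e.2 ∈ T
          · rw [hits_mem h6, if_pos (h3.1 h6), h5]
            have : 2 * (p : ℤ) * 0 + 2 * sgn e.1.1 * p - 2 * p * sgn e.1.1 = 0 := by ring
            rw [this, abs_zero]
            positivity
          · rw [if_neg fun h7 => h6 (h3.2 h7)]
            have h8 : 2 * (p : ℤ) * 0 + 2 * sgn e.1.1 * (hits T p e.2 : ℤ) - 2 * p * 0 =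
                sgn e.1.1 * (2 * (hits T p e.2 : ℤ)) := by ring
            rw [h8, abs_mul, hsgn1, one_mul, abs_of_nonneg (by positivity)]
            have := hits_le (T := T) (p := p) hp h6 hT h4
            have h9 : ((hits T p e.2 : ℕ) : ℤ) ≤ ((T.card * lam : ℕ) : ℤ) := by exact_mod_cast this
            linarith
      have h2 : (2 * (((e :: out).length * (T.card * lam) : ℕ) : ℤ)) =
          2 * ((T.card * lam : ℕ) : ℤ) + 2 * ((out.length * (T.card * lam) : ℕ) : ℤ) := by
        rw [List.length_cons]
        push_cast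
        ring
      rw [h2]
      refine le_trans (le_of_eq ?_) ((abs_add_le _ _).trans (add_le_add h1 ih'))
      congr 1
      ring
  set X := 2 * (p : ℤ) * (out.map fun e => if e.2 ∈ keysT ℓ k then
      (if ∀ w ∈ e.2, w ∈ S then weight e.1 else 0) else 0).sum +
      (out.map fun e => if e.2 ∉ keysT ℓ k then 2 * sgn e.1.1 * (hits T p e.2 : ℤ) else 0).sum
  have hbig' : (2 * ((out.length * (T.card * lam) : ℕ) : ℤ)) < p := by exact_mod_cast hbig
  have hp0 : (0 : ℤ) < p := by exact_mod_cast hp.pos
  have key' := abs_le.1 key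
  cases b
  · have h1 : ¬ 0 < votes S out := fun h => by
      have := hb.2 h
      cases this
    have h2 : (p : ℤ) * votes S out ≤ 0 := by nlinarith
    simp only [sgn, Bool.false_eq_true, if_false]
    linarith [key'.2]
  · have h1 : 0 < votes S out := hb.1 rfl
    have h2 : (p : ℤ) ≤ p * votes S out := by nlinarith
    simp only [sgn, if_true]
    linarith [key'.1]

end sums

/-! ## Polynomial time -/

end Pool.Agent.Lib.MP_634427_lc.LT
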